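import Pool.Agent.K4H90.RC.Pair2

/-!
# Many elements have unique counts
-/

set_option autoImplicit false
set_option linter.unusedSectionVars false

namespace Pool.Agent.K4H90.RC

open Finset

section

variable {G : Type} [Group G] [Fintype G] [DecidableEq G]

/-- A subgroup with more than half of the elements. -/
theorem top_of_half (H : Subgroup G) (A : Finset G) (hA : ∀ x ∈ A, x ∈ H)
    (h : Fintype.card G < 2 * A.card) : H = ⊤ := by
  classical
  have h1 : A.card ≤ Nat.card H := by
    rw [Nat.card_eq_fintype_card]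
    have h2 : A ⊆ univ.filter fun x => x ∈ H := fun x hx => mem_filter.2 ⟨mem_univ _, hA x hx⟩
    refine (card_le_card h2).trans (le_of_eq ?_)
    rw [Fintype.card_subtype]
  have h3 := H.card_mul_index
  rw [Nat.card_eq_fintype_card (α := G)] at h3
  have h4 : 0 < H.index := Nat.pos_of_ne_zero H.index_ne_zero_of_finite
  have h5 : H.index < 2 := by
    by_contra h6
    push Not at h6
    have : Nat.card H * 2 ≤ Nat.card H * H.index := Nat.mul_le_mul_left _ h6
    omega
  exact Subgroup.index_eq_one.1 (by omega)

/-- A group in which more than three quarters of the elements have square `1`. -/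
theorem many_noninv (hG : ∃ g : G, g * g ≠ 1) :
    Fintype.card G ≤ 4 * (univ.filter fun x : G => x * x ≠ 1).card := by
  by_contra h
  push Not at h
  set Ω := univ.filter fun x : G => x * x = 1 with hΩ
  have h0 : Ω.card + (univ.filter fun x : G => x * x ≠ 1).card = Fintype.card G := by
    have := card_filter_add_card_filter_not (s := (univ : Finset G)) (fun x => x * x = 1)
    rw [card_univ] at this
    exact this
  have hΩ1 : 3 * Fintype.card G < 4 * Ω.card := by omega
  have inv : ∀ x, x ∈ Ω → x⁻¹ = x := by
    intro x hx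
    exact inv_eq_of_mul_eq_one_left (mem_filter.1 hx).2
  -- all elements of `Ω` are central
  have hcen : ∀ x ∈ Ω, x ∈ Subgroup.center G := by
    intro x hx
    have h1 : Subgroup.centralizer {x} = (⊤ : Subgroup G) := by
      refine top_of_half _ (Ω.filter fun y => x * y ∈ Ω) ?_ ?_
      · intro y hy
        obtain ⟨h2, h3⟩ := mem_filter.1 hy
        rw [Subgroup.mem_centralizer_singleton_iff]
        have h4 := inv _ h3
        rw [mul_inv_rev, inv _ hx, inv _ h2] at h4
        exact h4
      · have h2 : (Ω \ Ω.filter fun y => x * y ∈ Ω).card ≤ (univ \ Ω).card := by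
          refine card_le_card_of_injOn (fun y => x * y) ?_ fun _ _ _ _ h => mul_left_cancel h
          intro y hy
          have hy' := mem_sdiff.1 (Finset.mem_coe.1 hy)
          refine Finset.mem_coe.2 (mem_sdiff.2 ⟨mem_univ _, fun h3 => hy'.2 ?_⟩)
          exact mem_filter.2 ⟨hy'.1, h3⟩
        have h3 := card_sdiff_add_card_eq_card (filter_subset (fun y => x * y ∈ Ω) Ω)
        have h4 := card_sdiff_add_card_eq_card (subset_univ Ω)
        rw [card_univ] at h4
        omega
    rw [Subgroup.mem_center_iff]
    intro y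
    have h2 : y ∈ Subgroup.centralizer {x} := by rw [h1]; exact Subgroup.mem_top _
    rw [Subgroup.mem_centralizer_singleton_iff] at h2
    exact h2
  have hcomm : ∀ x y : G, x * y = y * x := by
    have h1 : Subgroup.center G = ⊤ := top_of_half _ Ω hcen (by omega)
    intro x y
    have h2 : y ∈ Subgroup.center G := by rw [h1]; exact Subgroup.mem_top _
    exact Subgroup.mem_center_iff.1 h2 x
  let H : Subgroup G :=
    { carrier := {x | x * x = 1}
      mul_mem' := by
        intro a b ha hb
        show a * b * (a * b) = 1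
        have e : a * b * (a * b) = (a * a) * (b * b) := by
          rw [mul_assoc, ← mul_assoc b a b, hcomm b a, mul_assoc, mul_assoc]
        rw [e, ha, hb, one_mul]
      one_mem' := one_mul 1
      inv_mem' := by
        intro a ha
        show a⁻¹ * a⁻¹ = 1
        rw [← mul_inv_rev, ha, inv_one] }
  have h1 : H = ⊤ := top_of_half H Ω (fun x hx => (mem_filter.1 hx).2) (by omega)
  obtain ⟨g, hg⟩ := hG
  have h2 : g ∈ H := by rw [h1]; exact Subgroup.mem_top _
  exact hg h2

open Classical in
/-- The elements which satisfy the first conditions. -/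
noncomputable def Bs (g : G) : Finset G := univ.filter fun s => Base g s

theorem sum_unique (ψ : G → G) : ∑ h : G, (univ.filter fun s : G => ψ s = h).card =
    Fintype.card G := by
  rw [← card_univ]
  exact (card_eq_sum_card_fiberwise (f := ψ) (t := univ) fun _ _ => mem_coe.2 (mem_univ _)).symm

theorem sum_Bs (hG : ∃ g : G, g * g ≠ 1) :
    (Fintype.card G) ^ 2 ≤ 16 * (∑ g : G, (Bs g).card) + 64 * Fintype.card G := by
  classical
  set N := univ.filter fun x : G => x * x ≠ 1 with hN
  have h1 := many_noninv hG
  rw [← hN] at h1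
  have h2 : ∑ g : G, (N.filter fun s => s⁻¹ * g ∈ N).card = N.card ^ 2 := by
    simp only [card_filter]
    rw [sum_comm]
    have h3 : ∀ s ∈ N, ∑ g : G, (if s⁻¹ * g ∈ N then 1 else 0) = N.card := by
      intro s _
      rw [← card_filter]
      refine card_bij (fun g _ => s⁻¹ * g) ?_ ?_ ?_
      · intro g hg
        exact (mem_filter.1 hg).2
      · intro a _ b _ h
        exact mul_left_cancel h
      · intro y hy
        refine ⟨s * y, mem_filter.2 ⟨mem_univ _, ?_⟩, ?_⟩ <;> simp [hy]
    rw [sum_congr rfl h3, sum_const, smul_eq_mul, sq]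
  have h3 : ∀ g : G, (N.filter fun s => s⁻¹ * g ∈ N).card ≤ (Bs g).card +
      ((univ.filter fun s : G => s * s = g).card + (univ.filter fun s : G => (s * s)⁻¹ = g).card +
        (univ.filter fun s : G => s = g).card + (univ.filter fun s : G => s⁻¹ = g).card) := by
    intro g
    have h4 : (N.filter fun s => s⁻¹ * g ∈ N) ⊆ Bs g ∪ ((((univ.filter fun s : G => s * s = g) ∪
        (univ.filter fun s : G => (s * s)⁻¹ = g)) ∪ (univ.filter fun s : G => s = g)) ∪
        (univ.filter fun s : G => s⁻¹ = g)) := by
      intro s hs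
      obtain ⟨h5, h6⟩ := mem_filter.1 hs
      have h7 := (mem_filter.1 h5).2
      have h8 := (mem_filter.1 h6).2
      by_cases c1 : s * s = g
      · refine mem_union_right _ (mem_union_left _ (mem_union_left _ (mem_union_left _ ?_)))
        exact mem_filter.2 ⟨mem_univ _, c1⟩
      by_cases c2 : (s * s)⁻¹ = g
      · refine mem_union_right _ (mem_union_left _ (mem_union_left _ (mem_union_right _ ?_)))
        exact mem_filter.2 ⟨mem_univ _, c2⟩
      by_cases c3 : s = g
      · refine mem_union_right _ (mem_union_left _ (mem_union_right _ ?_))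
        exact mem_filter.2 ⟨mem_univ _, c3⟩
      by_cases c4 : s⁻¹ = g
      · exact mem_union_right _ (mem_union_right _ (mem_filter.2 ⟨mem_univ _, c4⟩))
      · refine mem_union_left _ (mem_filter.2 ⟨mem_univ _, h7, h8, c1, ?_, c3, ?_⟩)
        · intro h9; exact c2 (by rw [h9, inv_inv])
        · intro h9; exact c4 (by rw [h9, inv_inv])
    refine (card_le_card h4).trans ((card_union_le _ _).trans (Nat.add_le_add_left ?_ _))
    refine (card_union_le _ _).trans (Nat.add_le_add_right ?_ _)
    refine (card_union_le _ _).trans (Nat.add_le_add_right ?_ _)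
    exact card_union_le _ _
  have h4 : N.card ^ 2 ≤ (∑ g : G, (Bs g).card) + 4 * Fintype.card G := by
    rw [← h2]
    refine (sum_le_sum fun g _ => h3 g).trans (le_of_eq ?_)
    rw [sum_add_distrib, sum_add_distrib, sum_add_distrib, sum_add_distrib,
      sum_unique fun s : G => s * s, sum_unique fun s : G => (s * s)⁻¹, sum_unique fun s : G => s,
      sum_unique fun s : G => s⁻¹]
    ring
  nlinarith

/-- The elements `g` with many suitable `s`. -/
theorem exists_many (hG : ∃ g : G, g * g ≠ 1) (hn : 128 ≤ Fintype.card G) : ∃ A : Finset G,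
    (1 : G) ∉ A ∧ Fintype.card G ≤ 128 * A.card ∧ ∀ g ∈ A, Fintype.card G ≤ 64 * (Bs g).card := by
  classical
  set n := Fintype.card G with hn'
  set A' := univ.filter fun g : G => n ≤ 64 * (Bs g).card with hA'
  have h1 := sum_Bs hG
  rw [← hn'] at h1
  have h2 : 64 * (∑ g : G, (Bs g).card) ≤ 64 * (A'.card * n) + n * n := by
    rw [mul_sum]
    have h3 : ∀ g : G, 64 * (Bs g).card ≤ (if n ≤ 64 * (Bs g).card then 64 * n else 0) + n := by
      intro g
      have h4 : (Bs g).card ≤ n := card_le_univ _
      split_ifs <;> omega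
    refine (sum_le_sum fun g _ => h3 g).trans (le_of_eq ?_)
    rw [sum_add_distrib, ← sum_filter, sum_const, sum_const, card_univ, smul_eq_mul, smul_eq_mul,
      ← hn']
    ring
  have h3 : n * n ≤ 64 * (A'.card * n) := by nlinarith
  have h4 : n ≤ 64 * A'.card := by
    have : n * n ≤ (64 * A'.card) * n := by linarith
    exact Nat.le_of_mul_le_mul_right this (by omega)
  refine ⟨A'.erase 1, notMem_erase _ _, ?_, fun g hg => (mem_filter.1 (mem_erase.1 hg).2).2⟩
  have h5 := pred_card_le_card_erase (s := A') (a := (1 : G))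
  omega

open Classical in
/-- Few `h` are bad for `g`. -/
theorem few_bad (g : G) : (univ.filter fun h : G =>
    Fintype.card G < 128 * (univ.filter fun s : G => ¬ Other g h s).card).card ≤ 1280 := by
  set n := Fintype.card G with hn
  set A := univ.filter fun h : G => n < 128 * (univ.filter fun s : G => ¬ Other g h s).card
  let ψ : Fin 10 → G → G := ![fun s => s * s, fun s => (s * s)⁻¹, fun s => s, fun s => s⁻¹,
    fun s => s * (g⁻¹ * s), fun s => s⁻¹ * (s⁻¹ * g), fun s => s⁻¹ * (g⁻¹ * s),
    fun s => s⁻¹ * g * s, fun s => g⁻¹ * s * s, fun s => s⁻¹ * g * s⁻¹]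
  have h1 : ∀ h : G, (univ.filter fun s : G => ¬ Other g h s).card ≤
      ∑ i, (univ.filter fun s : G => ψ i s = h).card := by
    intro h
    have h2 : (univ.filter fun s : G => ¬ Other g h s) ⊆
        univ.biUnion fun i => univ.filter fun s : G => ψ i s = h := by
      intro s hs
      have h3 := (mem_filter.1 hs).2
      by_contra h4
      apply h3
      have h5 : ∀ i, ψ i s ≠ h := by
        intro i h6
        exact h4 (mem_biUnion.2 ⟨i, mem_univ _, mem_filter.2 ⟨mem_univ _, h6⟩⟩)
      refine ⟨h5 0, ?_, h5 2, ?_, ?_, ?_, ?_, ?_, ?_, ?_⟩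
      · intro h7; exact h5 1 (by show (s * s)⁻¹ = h; rw [h7, inv_inv])
      · intro h7; exact h5 3 (by show s⁻¹ = h; rw [h7, inv_inv])
      · intro h7; exact h5 4 (by show s * (g⁻¹ * s) = h; rw [← h7, mul_inv_cancel_left])
      · intro h7; exact h5 5 (by show s⁻¹ * (s⁻¹ * g) = h; rw [← h7, inv_mul_cancel_left])
      · intro h7; exact h5 6 (by show s⁻¹ * (g⁻¹ * s) = h; rw [← h7, inv_mul_cancel_left])
      · intro h7; exact h5 7 (by show s⁻¹ * g * s = h; rw [← h7, inv_mul_cancel_right])
      · intro h7; exact h5 8 (by show g⁻¹ * s * s = h; rw [← h7, inv_mul_cancel_right])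
      · intro h7; exact h5 9 (by show s⁻¹ * g * s⁻¹ = h; rw [← h7, mul_inv_cancel_right])
    exact (card_le_card h2).trans card_biUnion_le
  have h2 : ∑ h : G, (univ.filter fun s : G => ¬ Other g h s).card ≤ 10 * n := by
    refine (sum_le_sum fun h _ => h1 h).trans (le_of_eq ?_)
    rw [sum_comm, sum_congr rfl fun i _ => sum_unique (ψ i), sum_const, card_univ]
    simp [hn]
  have h3 : A.card * (n + 1) ≤ 128 * (10 * n) := by
    calc A.card * (n + 1) = ∑ _h ∈ A, (n + 1) := by rw [sum_const, smul_eq_mul]
      _ ≤ ∑ h ∈ A, 128 * (univ.filter fun s : G => ¬ Other g h s).card :=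
          sum_le_sum fun h hh => (mem_filter.1 hh).2
      _ ≤ ∑ h : G, 128 * (univ.filter fun s : G => ¬ Other g h s).card :=
          sum_le_sum_of_subset (subset_univ _)
      _ = 128 * ∑ h : G, (univ.filter fun s : G => ¬ Other g h s).card := by rw [mul_sum]
      _ ≤ 128 * (10 * n) := Nat.mul_le_mul_left _ h2
  by_contra h4
  push Not at h4
  have h5 : 1281 * (n + 1) ≤ A.card * (n + 1) := Nat.mul_le_mul_right _ h4
  omega

/-- The same counts. -/
def Same (b : G → Bool) (g h : G) : Prop :=
  F f0 g b = F f0 h b ∧ ∀ j < 3, F (ff j) g b = F (ff j) h b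

open Classical in
/-- The elements with unique counts. -/
noncomputable def Uq (b : G → Bool) : Finset G :=
  univ.filter fun g => g ≠ 1 ∧ ∀ h, h ≠ 1 → h ≠ g → ¬ Same b g h

end

end Pool.Agent.K4H90.RC
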