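import Pool.Agent.K4H90.RC.Count

/-!
# With high probability a positive proportion of the elements has unique counts
-/

set_option autoImplicit false
set_option linter.unusedSectionVars false

namespace Pool.Agent.K4H90.RC

open Finset

/-- The expected number of elements with the same counts. -/
theorem sum_same (ε : ℝ) (hε : 0 < ε) (hε2 : 2 * ε ≤ 1) : ∃ C : ℝ, 0 < C ∧
    ∀ (G : Type) [Group G] [Fintype G] [DecidableEq G] (p : G → ℝ) (_ : Pr p)
      (_ : ∀ x, x ≠ 1 → ε ≤ p x ∧ p x ≤ 1 - ε) (g : G) (_ : g ≠ 1)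
      (_ : Fintype.card G ≤ 64 * (Bs g).card),
      Pb p (fun b => ∃ h, h ≠ 1 ∧ h ≠ g ∧ Same b g h) ≤ C / Real.sqrt (Fintype.card G + 1) := by
  classical
  obtain ⟨C3, hC3, h3⟩ := pair3 ε hε hε2
  obtain ⟨C1, hC1, h1⟩ := pair1 ε hε hε2
  refine ⟨C3 * (Real.sqrt (128 : ℕ)) ^ 3 + 1281 * C1, by positivity, ?_⟩
  intro G _ _ _ p hp hpε g hg hB
  set n := Fintype.card G with hn
  set A := univ.filter fun h : G => n < 128 * (univ.filter fun s : G => ¬ Other g h s).card with hA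
  set A' := insert g⁻¹ A with hA'
  have hA1 : A.card ≤ 1280 := few_bad g
  have hA2 : A'.card ≤ 1281 := (card_insert_le _ _).trans (by omega)
  have hn0 : (0 : ℝ) < (n : ℝ) + 1 := by positivity
  have hsq : 0 < Real.sqrt ((n : ℝ) + 1) := Real.sqrt_pos.2 hn0
  have e1 : Pb p (fun b => ∃ h, h ≠ 1 ∧ h ≠ g ∧ Same b g h) ≤
      ∑ h ∈ univ.filter (fun h : G => h ≠ 1 ∧ h ≠ g), Pb p (fun b => Same b g h) := by
    refine le_trans (Pb_mono hp fun b hb => ?_) (Pb_exists hp _ _)
    obtain ⟨h, h4, h5, h6⟩ := hb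
    exact ⟨h, mem_filter.2 ⟨mem_univ _, h4, h5⟩, h6⟩
  have e2 : ∀ h ∈ univ.filter (fun h : G => h ≠ 1 ∧ h ≠ g), Pb p (fun b => Same b g h) ≤
      C3 * (Real.sqrt (128 : ℕ)) ^ 3 / (Real.sqrt (n + 1)) ^ 3 +
        if h ∈ A' then C1 / Real.sqrt (n + 1) else 0 := by
    intro h hh
    obtain ⟨-, h4, h5⟩ := mem_filter.1 hh
    by_cases h6 : h ∈ A'
    · rw [if_pos h6]
      have h7 : Pb p (fun b => Same b g h) ≤ C1 / Real.sqrt (n + 1) :=
        (Pb_mono hp fun b hb => hb.1).trans (h1 G p hp hpε g h (Ne.symm h5))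
      have h8 : 0 ≤ C3 * (Real.sqrt (128 : ℕ)) ^ 3 / (Real.sqrt (n + 1)) ^ 3 := by positivity
      linarith
    · rw [if_neg h6, add_zero]
      have h7 : h ≠ g⁻¹ := fun h8 => h6 (by rw [h8]; exact mem_insert_self _ _)
      have h8 : 128 * (univ.filter fun s : G => ¬ Other g h s).card ≤ n := by
        by_contra h9
        push Not at h9
        exact h6 (mem_insert_of_mem (mem_filter.2 ⟨mem_univ _, h9⟩))
      set S := (Bs g).filter fun s => Other g h s with hS
      have h9 : (Bs g).card ≤ S.card + (univ.filter fun s : G => ¬ Other g h s).card := by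
        have e := card_filter_add_card_filter_not (s := Bs g) (fun s => Other g h s)
        have e' : ((Bs g).filter fun s => ¬ Other g h s).card ≤
            (univ.filter fun s : G => ¬ Other g h s).card :=
          card_le_card (filter_subset_filter _ (subset_univ _))
        rw [← hS] at e
        omega
      have h10 := h3 G p hp hpε g h hg h4 h5 h7 S (fun s hs => by
        obtain ⟨q1, q2⟩ := mem_filter.1 hs
        exact ⟨(mem_filter.1 q1).2, q2⟩)
      have h11 : Pb p (fun b => Same b g h) ≤ Pb p (fun b => ∀ j < 3, DD g h j b = 0) :=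
        Pb_mono hp fun b hb j hj => sub_eq_zero.2 (hb.2 j hj)
      refine h11.trans (h10.trans (sqrt_ratio (A := n) (c := 128) ?_ 3 hC3))
      omega
  refine e1.trans ((sum_le_sum e2).trans ?_)
  rw [sum_add_distrib, sum_const, nsmul_eq_mul]
  have e3 : ∑ h ∈ univ.filter (fun h : G => h ≠ 1 ∧ h ≠ g),
      (if h ∈ A' then C1 / Real.sqrt (n + 1) else 0) ≤ 1281 * (C1 / Real.sqrt (n + 1)) := by
    rw [← sum_filter, sum_const, nsmul_eq_mul]
    refine mul_le_mul_of_nonneg_right ?_ (by positivity)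
    have : ((univ.filter fun h : G => h ≠ 1 ∧ h ≠ g).filter fun h => h ∈ A').card ≤ 1281 := by
      refine (card_le_card fun x hx => ?_).trans hA2
      exact (mem_filter.1 hx).2
    exact_mod_cast this
  have e4 : ((univ.filter fun h : G => h ≠ 1 ∧ h ≠ g).card : ℝ) *
      (C3 * (Real.sqrt (128 : ℕ)) ^ 3 / (Real.sqrt (n + 1)) ^ 3) ≤
        C3 * (Real.sqrt (128 : ℕ)) ^ 3 / Real.sqrt (n + 1) := by
    have h4 : ((univ.filter fun h : G => h ≠ 1 ∧ h ≠ g).card : ℝ) ≤ n + 1 := by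
      have : (univ.filter fun h : G => h ≠ 1 ∧ h ≠ g).card ≤ n := card_le_univ _
      have : ((univ.filter fun h : G => h ≠ 1 ∧ h ≠ g).card : ℝ) ≤ n := by exact_mod_cast this
      linarith
    calc _ ≤ ((n : ℝ) + 1) * (C3 * (Real.sqrt (128 : ℕ)) ^ 3 / (Real.sqrt (n + 1)) ^ 3) :=
          mul_le_mul_of_nonneg_right h4 (by positivity)
      _ = _ := by
          have h5 : (n : ℝ) + 1 = (Real.sqrt (n + 1)) ^ 2 := (Real.sq_sqrt hn0.le).symm
          nth_rewrite 1 [h5]
          field_simp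
  calc _ ≤ C3 * (Real.sqrt (128 : ℕ)) ^ 3 / Real.sqrt (n + 1) +
        1281 * (C1 / Real.sqrt (n + 1)) := add_le_add e4 e3
    _ = _ := by ring

/-- With high probability many elements have unique counts. -/
theorem many_unique (ε : ℝ) (hε : 0 < ε) (hε2 : 2 * ε ≤ 1) : ∃ C : ℝ, 0 < C ∧
    ∀ (G : Type) [Group G] [Fintype G] [DecidableEq G] (p : G → ℝ) (_ : Pr p)
      (_ : ∀ x, x ≠ 1 → ε ≤ p x ∧ p x ≤ 1 - ε) (_ : ∃ g : G, g * g ≠ 1)
      (_ : 128 ≤ Fintype.card G),
      Pb p (fun b => 256 * (Uq b).card < Fintype.card G) ≤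
        C / Real.sqrt (Fintype.card G + 1) := by
  classical
  obtain ⟨C, hC, hmain⟩ := sum_same ε hε hε2
  refine ⟨2 * C, by positivity, ?_⟩
  intro G _ _ _ p hp hpε hG hn
  obtain ⟨A, hA1, hA2, hA3⟩ := exists_many hG hn
  have hA0 : 0 < A.card := by omega
  set f : (G → Bool) → ℝ := fun b => ∑ g ∈ A, ind (∃ h, h ≠ 1 ∧ h ≠ g ∧ Same b g h) with hf
  have h1 : Ex p f ≤ A.card * (C / Real.sqrt (Fintype.card G + 1)) := by
    rw [hf, Ex_sum, ← nsmul_eq_mul, ← sum_const]
    refine sum_le_sum fun g hg => hmain G p hp hpε g ?_ (hA3 g hg)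
    rintro rfl
    exact hA1 hg
  have h2 : Pb p (fun b => 256 * (Uq b).card < Fintype.card G) ≤
      Pb p (fun b => (A.card : ℝ) / 2 ≤ f b) := by
    refine Pb_mono hp fun b hb => ?_
    have h3 : f b = ((A.filter fun g => ∃ h, h ≠ 1 ∧ h ≠ g ∧ Same b g h).card : ℝ) := by
      rw [hf, card_filter]
      push_cast
      refine sum_congr rfl fun g _ => ?_
      by_cases h4 : ∃ h, h ≠ 1 ∧ h ≠ g ∧ Same b g h
      · rw [ind_pos h4, if_pos h4]
      · rw [ind_neg h4, if_neg h4]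
    have h4 : (A.filter fun g => ¬ ∃ h, h ≠ 1 ∧ h ≠ g ∧ Same b g h).card ≤ (Uq b).card := by
      refine card_le_card fun g hg => ?_
      obtain ⟨h5, h6⟩ := mem_filter.1 hg
      refine mem_filter.2 ⟨mem_univ _, ?_, fun h h7 h8 h9 => h6 ⟨h, h7, h8, h9⟩⟩
      rintro rfl
      exact hA1 h5
    have h5 := card_filter_add_card_filter_not (s := A)
      (fun g => ∃ h, h ≠ 1 ∧ h ≠ g ∧ Same b g h)
    have h6 : A.card ≤ 2 * (A.filter fun g => ∃ h, h ≠ 1 ∧ h ≠ g ∧ Same b g h).card := by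
      omega
    have h7 : (A.card : ℝ) ≤ 2 * ((A.filter fun g => ∃ h, h ≠ 1 ∧ h ≠ g ∧ Same b g h).card : ℝ) := by
      exact_mod_cast h6
    rw [h3]
    linarith
  have hA0' : (0 : ℝ) < A.card := by exact_mod_cast hA0
  have h3 := markov hp (f := f) (fun b => sum_nonneg fun _ _ => ind_nonneg _)
    (t := (A.card : ℝ) / 2) (by positivity)
  refine h2.trans (h3.trans ?_)
  rw [div_le_iff₀ (by positivity)]
  refine h1.trans (le_of_eq ?_)
  ring

end Pool.Agent.K4H90.RC
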