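import Mathlib

/-!
# The Weisfeiler-Leman method for digraphs
-/

set_option autoImplicit false
set_option linter.unusedSectionVars false

namespace Pool.Agent.K4H90.RC

variable {V W U : Type}

/-- The tuples `x` and `x'` get the same colour in the round `r` of the `k`-dimensional
Weisfeiler-Leman method. Initially the colour is the atomic type. In a round the new colour of `x` is
the old colour together with the multiset over all vertices `z` of the `k`-tuples of the old colours
of the tuples in which one entry of `x` is replaced by `z`. -/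
def SameColour {k : ℕ} (A : V → V → Prop) (B : W → W → Prop) : ℕ → (Fin k → V) → (Fin k → W) → Prop
  | 0 => fun x x' => ∀ i j, (x i = x j ↔ x' i = x' j) ∧ (A (x i) (x j) ↔ B (x' i) (x' j))
  | r + 1 => fun x x' => SameColour A B r x x' ∧ ∃ σ : V ≃ W, ∀ z i,
      SameColour A B r (Function.update x i z) (Function.update x' i (σ z))

/-- `r` rounds of the `k`-dimensional Weisfeiler-Leman method do not distinguish `A` and `B`: every
colour occurs equally often. -/
def NotDistinguished (k r : ℕ) (A : V → V → Prop) (B : W → W → Prop) : Prop :=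
  ∃ τ : (Fin k → V) ≃ (Fin k → W), ∀ x, SameColour A B r x (τ x)

theorem same_mono {k : ℕ} {A : V → V → Prop} {B : W → W → Prop} {r r' : ℕ} (h : r ≤ r')
    {x : Fin k → V} {x' : Fin k → W} (hx : SameColour A B r' x x') : SameColour A B r x x' := by
  induction h with
  | refl => exact hx
  | step _ ih => exact ih hx.1

theorem same_atom {k : ℕ} {A : V → V → Prop} {B : W → W → Prop} {r : ℕ}
    {x : Fin k → V} {x' : Fin k → W} (hx : SameColour A B r x x') (i j : Fin k) :
    (x i = x j ↔ x' i = x' j) ∧ (A (x i) (x j) ↔ B (x' i) (x' j)) :=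
  same_mono (Nat.zero_le r) hx i j

theorem same_symm {k : ℕ} {A : V → V → Prop} {B : W → W → Prop} {r : ℕ}
    {x : Fin k → V} {x' : Fin k → W} (hx : SameColour A B r x x') : SameColour B A r x' x := by
  induction r generalizing x x' with
  | zero => exact fun i j => ⟨(hx i j).1.symm, (hx i j).2.symm⟩
  | succ r ih =>
    obtain ⟨h1, σ, hσ⟩ := hx
    refine ⟨ih h1, σ.symm, fun z i => ih ?_⟩
    have := hσ (σ.symm z) i
    rwa [Equiv.apply_symm_apply] at this

theorem same_trans {k : ℕ} {A : V → V → Prop} {B : W → W → Prop} {C : U → U → Prop} {r : ℕ}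
    {x : Fin k → V} {x' : Fin k → W} {x'' : Fin k → U} (hx : SameColour A B r x x')
    (hx' : SameColour B C r x' x'') : SameColour A C r x x'' := by
  induction r generalizing x x' x'' with
  | zero => exact fun i j => ⟨(hx i j).1.trans (hx' i j).1, (hx i j).2.trans (hx' i j).2⟩
  | succ r ih =>
    obtain ⟨h1, σ, hσ⟩ := hx
    obtain ⟨h2, τ, hτ⟩ := hx'
    exact ⟨ih h1 h2, σ.trans τ, fun z i => ih (hσ z i) (hτ (σ z) i)⟩

/-- Some of the coordinates. -/
theorem same_inj {k l : ℕ} {A : V → V → Prop} {B : W → W → Prop} {r : ℕ} (π : Fin l → Fin k)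
    (hπ : Function.Injective π) {x : Fin k → V} {x' : Fin k → W} (hx : SameColour A B r x x') :
    SameColour A B r (x ∘ π) (x' ∘ π) := by
  induction r generalizing x x' with
  | zero => exact fun i j => hx (π i) (π j)
  | succ r ih =>
    obtain ⟨h1, σ, hσ⟩ := hx
    refine ⟨ih h1, σ, fun z i => ?_⟩
    have h2 : ∀ {Y : Type} (y : Fin k → Y) (w : Y),
        Function.update (y ∘ π) i w = Function.update y (π i) w ∘ π := by
      intro Y y w
      funext j
      by_cases hj : j = i
      · subst hj
        simp
      · rw [Function.update_of_ne hj, Function.comp_apply, Function.comp_apply,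
          Function.update_of_ne fun h => hj (hπ h)]
    rw [h2, h2]
    exact ih (hσ z (π i))

/-- An isomorphism preserves the colours. -/
theorem same_iso {k : ℕ} {A : V → V → Prop} {B : W → W → Prop} (φ : V ≃ W)
    (hφ : ∀ x y, A x y ↔ B (φ x) (φ y)) (r : ℕ) (x : Fin k → V) :
    SameColour A B r x (φ ∘ x) := by
  induction r generalizing x with
  | zero => exact fun i j => ⟨φ.injective.eq_iff.symm, hφ _ _⟩
  | succ r ih =>
    refine ⟨ih x, φ, fun z i => ?_⟩
    have h := ih (Function.update x i z)
    have h2 : φ ∘ Function.update x i z = Function.update (φ ∘ x) i (φ z) := by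
      funext j
      by_cases hj : j = i
      · subst hj
        simp
      · simp [Function.update_of_ne hj]
    rwa [h2] at h

/-- Isomorphic digraphs are not distinguished. -/
theorem iso_not {k : ℕ} {A : V → V → Prop} {B : W → W → Prop} (φ : V ≃ W)
    (hφ : ∀ x y, A x y ↔ B (φ x) (φ y)) (r : ℕ) : NotDistinguished k r A B :=
  ⟨Equiv.arrowCongr (Equiv.refl _) φ, fun x => same_iso φ hφ r x⟩

/-- If the entry `i` is determined by the colour for some choice of the other entries, then a
digraph `B` which is not distinguished from `A` by two more rounds is isomorphic to `A`. -/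
theorem identify {k r : ℕ} {A : V → V → Prop} {B : W → W → Prop} (c : Fin k → V) {i j : Fin k}
    (hij : i ≠ j) (hA : ∀ x y, SameColour A A r (Function.update c i x) (Function.update c i y) →
      x = y) (h : NotDistinguished k (r + 2) A B) :
    ∃ φ : V ≃ W, ∀ u v, A u v ↔ B (φ u) (φ v) := by
  obtain ⟨τ, hτ⟩ := h
  obtain ⟨-, σ, hσ⟩ := hτ c
  set c' := τ c with hc'
  refine ⟨σ, fun u v => ?_⟩
  obtain ⟨-, ρ, hρ⟩ := hσ v i
  have h1 := hρ u i
  have h2 := hρ u j
  rw [Function.update_idem, Function.update_idem] at h1
  have h3 := hσ (σ.symm (ρ u)) i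
  rw [Equiv.apply_symm_apply] at h3
  have h4 := hA _ _ (same_trans h1 (same_symm (same_mono (Nat.le_succ r) h3)))
  have h5 : ρ u = σ u := by
    rw [h4, Equiv.apply_symm_apply]
    rw [← h4]
  have h6 := (same_atom h2 j i).2
  rw [Function.update_self, Function.update_self, Function.update_of_ne hij,
    Function.update_of_ne hij, Function.update_self, Function.update_self, h5] at h6
  exact h6

/-! ### Dimension two -/

theorem upd0 {V : Type} (x y z : V) : Function.update ![x, y] 0 z = ![z, y] := by
  funext i
  fin_cases i <;> simp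

theorem upd1 {V : Type} (x y z : V) : Function.update ![x, y] 1 z = ![x, z] := by
  funext i
  fin_cases i <;> simp

theorem same_swap {A : V → V → Prop} {B : W → W → Prop} {r : ℕ} {x y : V} {x' y' : W}
    (h : SameColour A B r ![x, y] ![x', y']) : SameColour A B r ![y, x] ![y', x'] := by
  have h1 := same_inj (Equiv.swap 0 1) (Equiv.injective _) h
  have h2 : ∀ {Y : Type} (a b : Y), ![a, b] ∘ (Equiv.swap (0 : Fin 2) 1) = ![b, a] := by
    intro Y a b
    funext i
    fin_cases i <;> simp
  rwa [h2, h2] at h1

/-- A round in dimension two. -/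
theorem same_round {A : V → V → Prop} {B : W → W → Prop} {r : ℕ} {x y : V} {x' y' : W}
    (h : SameColour A B (r + 1) ![x, y] ![x', y']) : ∃ σ : V ≃ W, ∀ z,
      SameColour A B r ![z, y] ![σ z, y'] ∧ SameColour A B r ![x, z] ![x', σ z] := by
  obtain ⟨-, σ, hσ⟩ := h
  refine ⟨σ, fun z => ⟨?_, ?_⟩⟩
  · have := hσ z 0
    rwa [upd0, upd0] at this
  · have := hσ z 1
    rwa [upd1, upd1] at this

end Pool.Agent.K4H90.RC
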