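import Pool.Agent.K4H90.RC.Sub
import Pool.Agent.K4H90.RC.Uniq
import Pool.Agent.K4H90.RC.WL

/-!
# A good connection set makes the stable colouring trivial
-/

set_option autoImplicit false
set_option linter.unusedSectionVars false

namespace Pool.Agent.K4H90.RC

open Finset
open scoped Pointwise

variable {G : Type} [Group G]

/-- The Cayley digraph. -/
def cay (b : G → Bool) (x y : G) : Prop := b (x⁻¹ * y) = true

theorem bool_eq {u v : Bool} (h : u = true ↔ v = true) : u = v := by
  cases u <;> cases v <;> simp_all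

/-- The elements `t` such that `v * t` is determined by `v` and the colour in the round `r`. -/
def Det (b : G → Bool) (r : ℕ) : Set G := {t | ∀ v v' y', SameColour (cay b) (cay b) r ![v, v * t]
  ![v', y'] → y' = v' * t}

theorem Det_mono {b : G → Bool} {r r' : ℕ} (h : r ≤ r') : Det b r ⊆ Det b r' :=
  fun _ ht v v' y' h1 => ht v v' y' (same_mono h h1)

theorem Det_one (b : G → Bool) (r : ℕ) : (1 : G) ∈ Det b r := by
  intro v v' y' h
  have h1 := (same_atom h 0 1).1
  simp only [Matrix.cons_val_zero, Matrix.cons_val_one, mul_one, true_iff] at h1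
  rw [mul_one, h1]

theorem Det_inv {b : G → Bool} {r : ℕ} {t : G} (ht : t ∈ Det b r) : t⁻¹ ∈ Det b r := by
  intro v v' y' h
  have h1 := same_swap h
  have h2 := ht (v * t⁻¹) y' v' (by rwa [inv_mul_cancel_right])
  rw [h2, mul_inv_cancel_right]

theorem Det_mul {b : G → Bool} {r : ℕ} {t u : G} (ht : t ∈ Det b r) (hu : u ∈ Det b r) :
    t * u ∈ Det b (r + 1) := by
  intro v v' y' h
  obtain ⟨σ, hσ⟩ := same_round h
  obtain ⟨h1, h2⟩ := hσ (v * t)
  have h3 := ht _ _ _ h2
  rw [← mul_assoc] at h1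
  have h4 := hu _ _ _ h1
  rw [h4, h3, mul_assoc]

theorem Det_pow {b : G → Bool} {r : ℕ} {A : Set G} (hA : A ⊆ Det b r) (j : ℕ) :
    A ^ (2 ^ j) ⊆ Det b (r + j) := by
  induction j with
  | zero => simpa using hA
  | succ j ih =>
    rw [pow_succ, pow_mul, sq]
    rintro _ ⟨t, ht, u, hu, rfl⟩
    exact Det_mul (ih ht) (ih hu)

/-- In a finite group a large symmetric set generates fast. -/
theorem gen_fast [Finite G] (A : Set G) (h1 : (1 : G) ∈ A) (hinv : A⁻¹ = A) {c : ℕ}
    (hc : Nat.card G ≤ c * Nat.card A) :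
    ((A ^ (3 * c) : Set G)) = (Subgroup.closure A : Set G) := by
  have hmono : ∀ m n : ℕ, m ≤ n → A ^ m ⊆ A ^ n := fun m n h => Set.pow_subset_pow_right h1 h
  by_cases hst : A ^ (3 * c + 1) = A ^ (3 * c)
  · have hk : ∀ k : ℕ, A ^ (3 * c + k) = A ^ (3 * c) := by
      intro k
      induction k with
      | zero => rfl
      | succ k ih => rw [← add_assoc, pow_succ, ih, ← pow_succ, hst]
    apply Set.Subset.antisymm
    · have h2 : ∀ n : ℕ, A ^ n ⊆ (Subgroup.closure A : Set G) := by
        intro n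
        induction n with
        | zero =>
          rw [pow_zero]
          intro x hx
          rw [Set.mem_one.1 hx]
          exact one_mem _
        | succ n ih =>
          rw [pow_succ]
          rintro _ ⟨x, hx, y, hy, rfl⟩
          exact mul_mem (ih hx) (Subgroup.subset_closure hy)
      exact h2 _
    · let K : Subgroup G :=
        { carrier := A ^ (3 * c)
          mul_mem' := by
            intro x y hx hy
            rw [← hk (3 * c), pow_add]
            exact Set.mul_mem_mul hx hy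
          one_mem' := Set.one_mem_pow h1
          inv_mem' := by
            intro x hx
            have : x⁻¹ ∈ (A ^ (3 * c))⁻¹ := by rwa [Set.inv_mem_inv]
            rwa [← inv_pow, hinv] at this }
      have h3 : Subgroup.closure A ≤ K := by
        rw [Subgroup.closure_le]
        intro x hx
        show x ∈ A ^ (3 * c)
        rw [← hst]
        exact hmono 1 _ (by omega) (by rwa [pow_one])
      exact h3
  · exfalso
    have hne : ∀ i : Fin (c + 1), ∃ x ∈ A ^ (3 * (i : ℕ) + 1), x ∉ A ^ (3 * (i : ℕ)) := by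
      intro i
      by_contra h2
      push Not at h2
      have h3 : A ^ (3 * (i : ℕ) + 1) = A ^ (3 * (i : ℕ)) :=
        Set.Subset.antisymm h2 (hmono _ _ (by omega))
      have hk : ∀ k : ℕ, A ^ (3 * (i : ℕ) + k) = A ^ (3 * (i : ℕ)) := by
        intro k
        induction k with
        | zero => rfl
        | succ k ih => rw [← add_assoc, pow_succ, ih, ← pow_succ, h3]
      obtain ⟨k, hk'⟩ : ∃ k, 3 * c = 3 * (i : ℕ) + k := ⟨3 * c - 3 * i, by omega⟩
      apply hst
      rw [hk', add_assoc, hk, hk]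
    choose x hx1 hx2 using hne
    have hinj : Function.Injective fun q : Fin (c + 1) × A => x q.1 * (q.2 : G) := by
      have hlt : ∀ i j : Fin (c + 1), i < j → ∀ a a' : A, x i * (a : G) ≠ x j * (a' : G) := by
        intro i j hij a a' h
        apply hx2 j
        refine hmono (3 * (i : ℕ) + 1 + 1 + 1) _ (by have : (i : ℕ) < j := hij; omega) ?_
        have h4 : x j = x i * (a : G) * (a' : G)⁻¹ := eq_mul_inv_of_mul_eq h.symm
        rw [h4, pow_succ, pow_succ]
        refine Set.mul_mem_mul (Set.mul_mem_mul (hx1 i) a.2) ?_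
        have h8 : (a' : G)⁻¹ ∈ A⁻¹ := Set.inv_mem_inv.2 a'.2
        rwa [hinv] at h8
      rintro ⟨i, a⟩ ⟨j, a'⟩ h
      rcases lt_trichotomy i j with h5 | h5 | h5
      · exact absurd h (hlt i j h5 a a')
      · subst h5
        have h6 : (a : G) = a' := mul_left_cancel h
        rw [Prod.mk.injEq]
        exact ⟨rfl, Subtype.ext h6⟩
      · exact absurd h.symm (hlt j i h5 a' a)
    have h5 := Nat.card_le_card_of_injective _ hinj
    rw [Nat.card_prod, Nat.card_fin] at h5
    have h6 : 0 < Nat.card A := by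
      have : Nonempty A := ⟨⟨1, h1⟩⟩
      exact Nat.card_pos
    have h7 : (c + 1) * Nat.card A = c * Nat.card A + Nat.card A := by ring
    omega

section

variable [Fintype G] [DecidableEq G]

/-- The numbers of the walks are determined by the colour in the first round. -/
theorem F_of_same {b : G → Bool} {v y v' y' : G}
    (h : SameColour (cay b) (cay b) 1 ![v, y] ![v', y']) (f : Bool → Bool → Bool → Bool → ℤ) :
    F f (v⁻¹ * y) b = F f (v'⁻¹ * y') b := by
  obtain ⟨σ, hσ⟩ := same_round h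
  have key : ∀ v y : G, F f (v⁻¹ * y) b =
      ∑ u, f (b (v⁻¹ * u)) (b (u⁻¹ * v)) (b (u⁻¹ * y)) (b (y⁻¹ * u)) := by
    intro v y
    unfold F
    rw [← Equiv.sum_comp (Equiv.mulLeft v⁻¹)]
    refine sum_congr rfl fun u _ => ?_
    rw [Equiv.coe_mulLeft]
    have e1 : (v⁻¹ * u)⁻¹ = u⁻¹ * v := by group
    have e2 : u⁻¹ * v * (v⁻¹ * y) = u⁻¹ * y := by group
    have e3 : (v⁻¹ * y)⁻¹ * (v⁻¹ * u) = y⁻¹ * u := by group
    rw [e1, e2, e3]
  rw [key v y, key v' y', ← Equiv.sum_comp σ fun u => f (b (v'⁻¹ * u)) (b (u⁻¹ * v'))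
    (b (u⁻¹ * y')) (b (y'⁻¹ * u))]
  refine sum_congr rfl fun u _ => ?_
  obtain ⟨h1, h2⟩ := hσ u
  have a1 := bool_eq (same_atom h2 0 1).2
  have a2 := bool_eq (same_atom h2 1 0).2
  have a3 := bool_eq (same_atom h1 0 1).2
  have a4 := bool_eq (same_atom h1 1 0).2
  simp only [Matrix.cons_val_zero, Matrix.cons_val_one] at a1 a2 a3 a4
  rw [a1, a2, a3, a4]

theorem Uq_Det (b : G → Bool) : (Uq b : Set G) ⊆ Det b 1 := by
  classical
  intro t ht v v' y' h
  unfold Uq at ht
  obtain ⟨-, h1, h2⟩ := mem_filter.1 (mem_coe.1 ht)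
  by_contra h3
  have hF := F_of_same h
  rw [inv_mul_cancel_left] at hF
  refine h2 (v'⁻¹ * y') ?_ ?_ ⟨hF _, fun j _ => hF _⟩
  · intro h4
    have h5 := (same_atom h 0 1).1
    simp only [Matrix.cons_val_zero, Matrix.cons_val_one, left_eq_mul] at h5
    exact h1 (h5.2 (inv_mul_eq_one.1 h4))
  · intro h4
    apply h3
    rw [← h4, mul_inv_cancel_left]

/-- A good connection set. -/
def Good (b : G → Bool) : Prop := Fintype.card G ≤ 256 * (Uq b).card ∧ ¬ Bad b

theorem Good_Det {b : G → Bool} (h : Good b) (t : G) : t ∈ Det b 12 := by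
  classical
  obtain ⟨h1, h2⟩ := h
  set A : Set G := (Uq b : Set G) ∪ (Uq b : Set G)⁻¹ ∪ {1} with hA
  have hA1 : (1 : G) ∈ A := Or.inr rfl
  have hA2 : A⁻¹ = A := by
    rw [hA, Set.union_inv, Set.union_inv, inv_inv, Set.inv_singleton, inv_one,
      Set.union_comm (Uq b : Set G)⁻¹]
  have hA3 : A ⊆ Det b 1 := by
    rintro x ((hx | hx) | hx)
    · exact Uq_Det b hx
    · have := Det_inv (Uq_Det b hx)
      rwa [inv_inv] at this
    · rw [Set.mem_singleton_iff.1 hx]
      exact Det_one b 1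
  have hA4 : (Uq b).card ≤ Nat.card A := by
    rw [← Set.ncard_coe_finset, Nat.card_coe_set_eq]
    exact Set.ncard_le_ncard (fun x hx => Or.inl (Or.inl hx)) (Set.toFinite _)
  have hA5 := gen_fast A hA1 hA2 (c := 256) (by
    rw [Nat.card_eq_fintype_card]
    omega)
  have hH : (Subgroup.closure A : Set G) ⊆ Det b 11 := by
    rw [← hA5]
    refine (Set.pow_subset_pow_right hA1 (n := 2 ^ 10) (by norm_num)).trans ?_
    exact Det_pow hA3 10
  intro v v' y' h3
  obtain ⟨σ, hσ⟩ := same_round h3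
  by_contra h4
  apply h2
  refine ⟨Subgroup.closure A, ?_, t, v'⁻¹ * y', ?_, ?_⟩
  · refine h1.trans (Nat.mul_le_mul_left _ (hA4.trans ?_))
    rw [Nat.card_coe_set_eq]
    exact Set.ncard_le_ncard Subgroup.subset_closure (Set.toFinite _)
  · intro h5
    apply h4
    rw [h5, mul_inv_cancel_left]
  · intro u hu
    obtain ⟨h5, h6⟩ := hσ (v * u⁻¹)
    have h7 := hH (inv_mem hu) _ _ _ h6
    have h8 := bool_eq (same_atom h5 0 1).2
    simp only [Matrix.cons_val_zero, Matrix.cons_val_one] at h8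
    rw [h7] at h8
    have e1 : (v * u⁻¹)⁻¹ * (v * t) = u * t := by group
    have e2 : (v' * u⁻¹)⁻¹ * y' = u * (v'⁻¹ * y') := by group
    rwa [e1, e2] at h8

/-- The conclusions for a good connection set. -/
theorem Good_main {b : G → Bool} (h : Good b) :
    (∀ v x y : G, SameColour (cay b) (cay b) 12 ![v, x] ![v, y] → x = y) ∧
    (∀ φ : G ≃ G, (∀ x y, cay b x y ↔ cay b (φ x) (φ y)) → ∃ g, ∀ x, φ x = g * x) ∧
    ∀ (W : Type) (B : W → W → Prop), NotDistinguished 2 14 (cay b) B →
      ∃ φ : G ≃ W, ∀ u v, cay b u v ↔ B (φ u) (φ v) := by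
  have key : ∀ v x y : G, SameColour (cay b) (cay b) 12 ![v, x] ![v, y] → x = y := by
    intro v x y hxy
    have h1 := Good_Det h (v⁻¹ * x) v v y (by rwa [mul_inv_cancel_left])
    rw [h1, mul_inv_cancel_left]
  refine ⟨key, fun φ hφ => ⟨φ 1, fun x => ?_⟩, fun W B hB => ?_⟩
  · have h1 := same_iso φ hφ 12 ![1, x]
    have h2 : φ ∘ ![1, x] = ![φ 1, φ x] := by
      funext i
      fin_cases i <;> simp
    rw [h2] at h1
    have h3 := Good_Det h x 1 (φ 1) (φ x) (by rwa [one_mul])
    exact h3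
  · refine identify (r := 12) (c := ![1, 1]) (i := 1) (j := 0) (by decide) (fun x y hxy => ?_) hB
    rw [upd1, upd1] at hxy
    exact key 1 x y hxy

end

end Pool.Agent.K4H90.RC
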