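import Pool.Agent.K4H90.RC.Disc

/-!
# Elementary abelian 2-groups: the counts relative to two fixed vertices
-/

set_option autoImplicit false
set_option linter.unusedSectionVars false

namespace Pool.Agent.K4H90.RC

open Finset

section

variable {G : Type} [Group G] [Fintype G] [DecidableEq G]

/-- The number (with weight `f`) of the elements `z` with given bits at `z`, `z a`, `z g`. -/
def T (f : Bool → Bool → Bool → ℤ) (a g : G) (b : G → Bool) : ℤ :=
  ∑ z, f (b z) (b (z * a)) (b (z * g))

def q : ℕ → Bool → Bool → Bool → ℤ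
  | 0 => fun w _ z => if w && z then 1 else 0
  | 1 => fun _ y z => if y && z then 1 else 0
  | _ => fun w y z => if w && y && z then 1 else 0

theorem T_flip (hG : ∀ x : G, x * x = 1) (f : Bool → Bool → Bool → ℤ) {a g s : G} (ha : a ≠ 1)
    (hg : g ≠ 1) (hga : g ≠ a) (b : G → Bool) :
    T f a g (Function.update b s true) - T f a g (Function.update b s false) =
      (f true (b (s * a)) (b (s * g)) - f false (b (s * a)) (b (s * g))) +
      (f (b (s * a)) true (b (s * (a * g))) - f (b (s * a)) false (b (s * (a * g)))) +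
      (f (b (s * g)) (b (s * (g * a))) true - f (b (s * g)) (b (s * (g * a))) false) := by
  have e1 : s * a ≠ s := fun h => ha (mul_eq_left.1 h)
  have e2 : s * g ≠ s := fun h => hg (mul_eq_left.1 h)
  have e3 : s * g ≠ s * a := fun h => hga (mul_left_cancel h)
  have e4 : a * g ≠ 1 := by
    intro h
    apply hga
    have h2 := hG a
    rw [← h2] at h
    exact mul_left_cancel h
  have e5 : g * a ≠ 1 := by
    intro h
    apply hga
    have h2 := hG a
    rw [← h2] at h
    exact mul_right_cancel h
  have e6 : s * (a * g) ≠ s := fun h => e4 (mul_eq_left.1 h)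
  have e7 : s * (g * a) ≠ s := fun h => e5 (mul_eq_left.1 h)
  have u : ∀ (v : Bool) (y : G), y ≠ s → Function.update b s v y = b y :=
    fun v y hy => Function.update_of_ne hy _ _
  have w : ∀ v : Bool, Function.update b s v s = v := fun v => Function.update_self _ _ _
  unfold T
  rw [← sum_sub_distrib]
  have hsub : ({s, s * a, s * g} : Finset G) ⊆ univ := subset_univ _
  rw [← sum_subset hsub]
  · rw [sum_insert, sum_insert, sum_singleton]
    · have a1 : s * a * a = s := by rw [mul_assoc, hG, mul_one]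
      have a2 : s * g * g = s := by rw [mul_assoc, hG, mul_one]
      simp only [a1, a2, w, mul_assoc s a g, mul_assoc s g a, u _ _ e1, u _ _ e2, u _ _ e6, u _ _ e7]
      ring
    · rw [mem_singleton]
      exact e3.symm
    · simp only [mem_insert, mem_singleton, not_or]
      exact ⟨e1.symm, e2.symm⟩
  · intro z _ hz
    simp only [mem_insert, mem_singleton, not_or] at hz
    obtain ⟨z1, z2, z3⟩ := hz
    have y1 : z * a ≠ s := by
      intro h
      apply z2
      rw [← h, mul_assoc, hG, mul_one]
    have y2 : z * g ≠ s := by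
      intro h
      apply z3
      rw [← h, mul_assoc, hG, mul_one]
    rw [u _ _ z1, u _ _ y1, u _ _ y2, u _ _ z1, u _ _ y1, u _ _ y2, sub_self]

/-- The differences of the counts. -/
def DE (a g h : G) (j : ℕ) (b : G → Bool) : ℤ := T (q j) a g b - T (q j) a h b

theorem DE_flip (hG : ∀ x : G, x * x = 1) {a g h s : G} (ha : a ≠ 1)
    (hg : g ≠ 1) (hga : g ≠ a) (hh : h ≠ 1) (hha : h ≠ a) (j : ℕ) (b : G → Bool) :
    DE a g h j (Function.update b s true) = DE a g h j (Function.update b s false) +
      (((q j true (b (s * a)) (b (s * g)) - q j false (b (s * a)) (b (s * g))) +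
      (q j (b (s * a)) true (b (s * (a * g))) - q j (b (s * a)) false (b (s * (a * g)))) +
      (q j (b (s * g)) (b (s * (g * a))) true - q j (b (s * g)) (b (s * (g * a))) false)) -
      ((q j true (b (s * a)) (b (s * h)) - q j false (b (s * a)) (b (s * h))) +
      (q j (b (s * a)) true (b (s * (a * h))) - q j (b (s * a)) false (b (s * (a * h)))) +
      (q j (b (s * h)) (b (s * (h * a))) true - q j (b (s * h)) (b (s * (h * a))) false))) := by
  have h1 := T_flip hG (q j) (s := s) ha hg hga b
  have h2 := T_flip hG (q j) (s := s) ha hh hha b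
  unfold DE
  linarith

/-- The elements of the environment. -/
def ev (a g h : G) : Fin 5 → G := ![a, g, a * g, h, a * h]

def EV (a g h s : G) : Finset G := univ.image fun i => s * ev a g h i

theorem mem_EV (a g h s : G) (i : Fin 5) : s * ev a g h i ∈ EV a g h s :=
  mem_image.2 ⟨i, mem_univ _, rfl⟩

/-- The patterns. -/
def pe (j : ℕ) (a g s y : G) : Bool :=
  if j = 0 then decide (y = s * g) else if j = 1 then decide (y = s * (a * g)) else
    decide (y = s * a ∨ y = s * g)

/-- Three counts. -/
theorem pairE3 (ε : ℝ) (hε : 0 < ε) (hε2 : 2 * ε ≤ 1) : ∃ C : ℝ, 0 < C ∧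
    ∀ (G : Type) [Group G] [Fintype G] [DecidableEq G] (_ : ∀ x : G, x * x = 1) (p : G → ℝ)
      (_ : Pr p) (_ : ∀ x, x ≠ 1 → ε ≤ p x ∧ p x ≤ 1 - ε) (a g h : G) (_ : a ≠ 1) (_ : g ≠ 1)
      (_ : g ≠ a) (_ : h ≠ 1) (_ : h ≠ a) (_ : h ≠ g) (_ : h ≠ a * g),
      Pb p (fun b => ∀ j < 3, DE a g h j b = 0) ≤ C / (Real.sqrt (Fintype.card G + 1)) ^ 3 := by
  obtain ⟨C, hC, hmain⟩ := tri_num ε hε hε2 5 3
  refine ⟨C * (Real.sqrt (36 : ℕ)) ^ 3, by positivity, ?_⟩
  intro G _ _ _ hG p hp hpε a g h ha hg hga hh hha hgh hgh'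
  have hinv : ∀ x : G, x⁻¹ = x := fun x => inv_eq_of_mul_eq_one_left (hG x)
  have hcomm : ∀ x y : G, x * y = y * x := by
    intro x y
    have h1 := hinv (x * y)
    rw [mul_inv_rev, hinv, hinv] at h1
    exact h1.symm
  have hag : a * g ≠ 1 := fun h1 => hga (by rw [← mul_right_inj a, hG, h1])
  have hah : a * h ≠ 1 := fun h1 => hha (by rw [← mul_right_inj a, hG, h1])
  have hne : ∀ i, ev a g h i ≠ 1 := by
    intro i
    fin_cases i
    · exact ha
    · exact hg
    · exact hag
    · exact hh
    · exact hah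
  -- distinct elements
  have d1 : g ≠ a * g := fun h1 => ha (right_eq_mul.1 h1)
  have d2 : a ≠ a * g := fun h1 => hg (left_eq_mul.1 h1)
  have d3 : a ≠ a * h := fun h1 => hh (left_eq_mul.1 h1)
  have d4 : g ≠ a * h := fun h1 => hgh' (by rw [h1, ← mul_assoc, hG, one_mul])
  have d5 : a * g ≠ a * h := fun h1 => hgh (mul_left_cancel h1).symm
  set S : Finset G := univ.filter fun s => s ≠ 1 ∧ ∀ i, s ≠ ev a g h i with hS
  have hScard : Fintype.card G ≤ S.card + 6 := by
    have h1 : (univ : Finset G) ⊆ S ∪ insert 1 (univ.image (ev a g h)) := by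
      intro s _
      by_cases h2 : s ≠ 1 ∧ ∀ i, s ≠ ev a g h i
      · exact mem_union_left _ (mem_filter.2 ⟨mem_univ _, h2⟩)
      · refine mem_union_right _ ?_
        rw [not_and_or, not_not] at h2
        rcases h2 with h2 | h2
        · rw [h2]
          exact mem_insert_self _ _
        · push Not at h2
          obtain ⟨i, hi⟩ := h2
          exact mem_insert_of_mem (mem_image.2 ⟨i, mem_univ _, hi.symm⟩)
    have h2 := card_le_card h1
    have h3 := card_union_le S (insert 1 (univ.image (ev a g h)))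
    have h4 := card_insert_le (1 : G) (univ.image (ev a g h))
    have h5 : (univ.image (ev a g h)).card ≤ 5 := card_image_le.trans (by simp)
    rw [card_univ] at h2
    omega
  obtain ⟨P, hP, hP1, hP2, hP3⟩ := select (fun i => Equiv.mulRight (ev a g h i)) (EV a g h)
    (fun s y hy => by
      obtain ⟨i, -, hi⟩ := mem_image.1 hy
      exact ⟨i, hi⟩) S (fun s _ h1 => by
        obtain ⟨i, -, hi⟩ := mem_image.1 h1
        exact hne i (mul_eq_left.1 hi))
  have hι : 2 * Fintype.card (Fin 5) + Fintype.card (Fin 5) * Fintype.card (Fin 5) + 1 = 36 := by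
    simp
  rw [hι] at hP3
  have hv : ∀ (j : ℕ) (s : G) (b : G → Bool), (∀ y ∈ EV a g h s, b y = pe j a g s y) → ∀ i,
      b (s * ev a g h i) = pe j a g s (s * ev a g h i) := fun j s b hb i => hb _ (mem_EV a g h s i)
  have ne1 : ∀ {s x y : G}, x ≠ y → s * x ≠ s * y := fun h1 h2 => h1 (mul_left_cancel h2)
  have vals : ∀ (j : ℕ) (s : G) (b : G → Bool), (∀ y ∈ EV a g h s, b y = pe j a g s y) →
      b (s * a) = decide (2 ≤ j) ∧ b (s * g) = decide (j ≠ 1) ∧
      b (s * (a * g)) = decide (j = 1) ∧ b (s * h) = false ∧ b (s * (a * h)) = false := by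
    intro j s b hb
    have h0 : b (s * a) = _ := hv j s b hb 0
    have h1 : b (s * g) = _ := hv j s b hb 1
    have h2 : b (s * (a * g)) = _ := hv j s b hb 2
    have h3 : b (s * h) = _ := hv j s b hb 3
    have h4 : b (s * (a * h)) = _ := hv j s b hb 4
    rw [h0, h1, h2, h3, h4]
    have i0 : ev a g h 0 = a := rfl
    have i1 : ev a g h 1 = g := rfl
    have i2 : ev a g h 2 = a * g := rfl
    have i3 : ev a g h 3 = h := rfl
    have i4 : ev a g h 4 = a * h := rfl
    rw [i0, i1, i2, i3, i4]
    unfold pe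
    simp only [mul_right_inj, hga.symm, d1, d2, d1.symm, d2.symm, d3.symm, hha, hgh, hgh',
      d4.symm, d5.symm]
    refine ⟨?_, ?_, ?_, ?_, ?_⟩
    · by_cases j0 : j = 0
      · simp [j0]
      · by_cases j1 : j = 1
        · simp [j1]
        · simp [j0, j1]
          omega
    · by_cases j0 : j = 0
      · simp [j0]
      · by_cases j1 : j = 1
        · simp [j1]
        · simp [j0, j1]
    · by_cases j0 : j = 0
      · simp [j0]
      · by_cases j1 : j = 1
        · simp [j1]
        · simp [j0, j1]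
    · simp
    · simp
  have h4 := hmain G p hp P (EV a g h) hP1 hP2
    (fun s _ => card_image_le.trans (by simp))
    (fun s hs => hpε s (mem_filter.1 (hP hs)).2.1)
    (fun s hs x hx => hpε x (by
      obtain ⟨i, -, hi⟩ := mem_image.1 hx
      rintro rfl
      apply (mem_filter.1 (hP hs)).2.2 i
      rw [eq_inv_of_mul_eq_one_left hi, hinv]))
    (fun j s y => pe j a g s y) (DE a g h) (fun j => if j < 2 then 2 else 1)
    (by
      intro j _
      split_ifs <;> norm_num)
    (by
      intro j hj s hs b hb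
      rw [DE_flip hG ha hg hga hh hha]
      obtain ⟨v1, v2, v3, v4, v5⟩ := vals j s b hb
      rw [hcomm g a, hcomm h a, v1, v2, v3, v4, v5]
      interval_cases j <;> simp [q])
    (by
      intro j hj s hs b hb j' hjj hj'
      rw [DE_flip hG ha hg hga hh hha]
      obtain ⟨v1, v2, v3, v4, v5⟩ := vals j s b hb
      rw [hcomm g a, hcomm h a, v1, v2, v3, v4, v5]
      interval_cases j
      · interval_cases j' <;> simp [q]
      · interval_cases j'
        simp [q]
      · omega)
  refine h4.trans (sqrt_ratio ?_ 3 hC)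
  omega

/-- One count. -/
theorem pairE1 (ε : ℝ) (hε : 0 < ε) (hε2 : 2 * ε ≤ 1) : ∃ C : ℝ, 0 < C ∧
    ∀ (G : Type) [Group G] [Fintype G] [DecidableEq G] (_ : ∀ x : G, x * x = 1) (p : G → ℝ)
      (_ : Pr p) (_ : ∀ x, x ≠ 1 → ε ≤ p x ∧ p x ≤ 1 - ε) (a g : G) (_ : a ≠ 1) (_ : g ≠ 1)
      (_ : g ≠ a),
      Pb p (fun b => DE a g (a * g) 0 b = 0) ≤ C / Real.sqrt (Fintype.card G + 1) := by
  obtain ⟨C, hC, hmain⟩ := tri_num ε hε hε2 2 1
  refine ⟨C * (Real.sqrt (9 : ℕ)) ^ 1, by positivity, ?_⟩
  intro G _ _ _ hG p hp hpε a g ha hg hga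
  have hinv : ∀ x : G, x⁻¹ = x := fun x => inv_eq_of_mul_eq_one_left (hG x)
  have hag : a * g ≠ 1 := fun h1 => hga (by rw [← mul_right_inj a, hG, h1])
  have d1 : a * g ≠ g := fun h1 => ha (mul_eq_right.1 h1)
  have d2 : a * g ≠ a := fun h1 => hg (mul_eq_left.1 h1)
  set S : Finset G := univ \ {1, g, a * g} with hS
  have hScard : Fintype.card G ≤ S.card + 3 := by
    have h1 := card_le_three (a := (1 : G)) (b := g) (c := a * g)
    have h2 := le_card_sdiff ({1, g, a * g} : Finset G) univ
    rw [card_univ, ← hS] at h2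
    omega
  obtain ⟨P, hP, hP1, hP2, hP3⟩ := select
    (fun i : Bool => Equiv.mulRight (if i then g else a * g)) (fun s => {s * g, s * (a * g)})
    (fun s y hy => by
      rcases mem_insert.1 hy with h | h
      · exact ⟨true, h.symm⟩
      · exact ⟨false, (mem_singleton.1 h).symm⟩) S (fun s _ h1 => by
        rcases mem_insert.1 h1 with h | h
        · exact hg (left_eq_mul.1 h)
        · exact hag (left_eq_mul.1 (mem_singleton.1 h)))
  have hι : 2 * Fintype.card Bool + Fintype.card Bool * Fintype.card Bool + 1 = 9 := by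
    simp
  rw [hι] at hP3
  have hSs : ∀ s ∈ P, s ≠ 1 ∧ s ≠ g ∧ s ≠ a * g := by
    intro s hs
    have h1 := (mem_sdiff.1 (hP hs)).2
    simp only [mem_insert, mem_singleton, not_or] at h1
    exact h1
  have h4 := hmain G p hp P (fun s => {s * g, s * (a * g)}) hP1 hP2
    (fun s _ => card_le_two)
    (fun s hs => hpε s (hSs s hs).1)
    (fun s hs x hx => hpε x (by
      rintro rfl
      rcases mem_insert.1 hx with h | h
      · apply (hSs s hs).2.1
        rw [eq_inv_of_mul_eq_one_left h.symm, hinv]
      · apply (hSs s hs).2.2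
        rw [eq_inv_of_mul_eq_one_left (mem_singleton.1 h).symm, hinv]))
    (fun _ s y => decide (y = s * g)) (DE a g (a * g)) (fun _ => 2)
    (fun _ _ => by norm_num)
    (by
      intro j hj s hs b hb
      have hj0 : j = 0 := by omega
      subst hj0
      rw [DE_flip hG ha hg hga hag d2]
      have v1 : b (s * g) = true := by
        rw [hb _ (mem_insert_self _ _)]
        simp
      have v2 : b (s * (a * g)) = false := by
        rw [hb _ (mem_insert_of_mem (mem_singleton_self _))]
        simpa using ha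
      rw [v1, v2]
      simp [q])
    (by
      intro j hj s hs b hb j' hjj hj'
      omega)
  have h5 : Pb p (fun b => DE a g (a * g) 0 b = 0) ≤
      Pb p (fun b => ∀ j < 1, DE a g (a * g) j b = 0) := by
    refine Pb_mono hp fun b hb j hj => ?_
    have hj0 : j = 0 := by omega
    rw [hj0]
    exact hb
  have h6 := h5.trans (h4.trans (sqrt_ratio (A := Fintype.card G) (c := 9) (by omega) 1 hC))
  rwa [pow_one (Real.sqrt (Fintype.card G + 1))] at h6

end

end Pool.Agent.K4H90.RC
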