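import Pool.Agent.K4H90.RC.Elem

/-!
# Elementary abelian 2-groups: almost all connection sets are good
-/

set_option autoImplicit false
set_option linter.unusedSectionVars false

namespace Pool.Agent.K4H90.RC

open Finset

/-- An element collides with few elements. -/
theorem sumE (ε : ℝ) (hε : 0 < ε) (hε2 : 2 * ε ≤ 1) : ∃ C : ℝ, 0 < C ∧
    ∀ (G : Type) [Group G] [Fintype G] [DecidableEq G] (_ : ∀ x : G, x * x = 1) (p : G → ℝ)
      (_ : Pr p) (_ : ∀ x, x ≠ 1 → ε ≤ p x ∧ p x ≤ 1 - ε) (a g : G) (_ : a ≠ 1) (_ : g ≠ 1)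
      (_ : g ≠ a),
      Pb p (fun b => ∃ h, h ≠ 1 ∧ h ≠ a ∧ h ≠ g ∧ ∀ j < 3, DE a g h j b = 0) ≤
        C / Real.sqrt (Fintype.card G + 1) := by
  classical
  obtain ⟨C3, hC3, h3⟩ := pairE3 ε hε hε2
  obtain ⟨C1, hC1, h1⟩ := pairE1 ε hε hε2
  refine ⟨C3 + C1, by positivity, ?_⟩
  intro G _ _ _ hG p hp hpε a g ha hg hga
  set n := Fintype.card G with hn
  have hn0 : (0 : ℝ) < (n : ℝ) + 1 := by positivity
  have hsq : 0 < Real.sqrt ((n : ℝ) + 1) := Real.sqrt_pos.2 hn0
  set B : Finset G := univ.filter fun h : G => h ≠ 1 ∧ h ≠ a ∧ h ≠ g with hB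
  have e1 : Pb p (fun b => ∃ h, h ≠ 1 ∧ h ≠ a ∧ h ≠ g ∧ ∀ j < 3, DE a g h j b = 0) ≤
      ∑ h ∈ B, Pb p (fun b => ∀ j < 3, DE a g h j b = 0) := by
    refine le_trans (Pb_mono hp fun b hb => ?_) (Pb_exists hp _ _)
    obtain ⟨h, h4, h5, h6, h7⟩ := hb
    exact ⟨h, mem_filter.2 ⟨mem_univ _, h4, h5, h6⟩, h7⟩
  have e2 : ∀ h ∈ B, Pb p (fun b => ∀ j < 3, DE a g h j b = 0) ≤
      C3 / (Real.sqrt (n + 1)) ^ 3 + if h = a * g then C1 / Real.sqrt (n + 1) else 0 := by
    intro h hh
    obtain ⟨-, h4, h5, h6⟩ := mem_filter.1 hh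
    by_cases h7 : h = a * g
    · rw [if_pos h7]
      have h8 : Pb p (fun b => ∀ j < 3, DE a g h j b = 0) ≤ C1 / Real.sqrt (n + 1) := by
        rw [h7]
        exact (Pb_mono hp fun b hb => hb 0 (by norm_num)).trans (h1 G hG p hp hpε a g ha hg hga)
      have h9 : 0 ≤ C3 / (Real.sqrt (n + 1)) ^ 3 := by positivity
      linarith
    · rw [if_neg h7, add_zero]
      exact h3 G hG p hp hpε a g h ha hg hga h4 h5 h6 h7
  refine e1.trans ((sum_le_sum e2).trans ?_)
  rw [sum_add_distrib, sum_const, nsmul_eq_mul]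
  have e3 : ∑ h ∈ B, (if h = a * g then C1 / Real.sqrt (n + 1) else 0) ≤
      C1 / Real.sqrt (n + 1) := by
    rw [sum_ite_eq']
    split_ifs
    · exact le_rfl
    · positivity
  have e4 : (B.card : ℝ) * (C3 / (Real.sqrt (n + 1)) ^ 3) ≤ C3 / Real.sqrt (n + 1) := by
    have h4 : (B.card : ℝ) ≤ n + 1 := by
      have : B.card ≤ n := card_le_univ _
      have : (B.card : ℝ) ≤ n := by exact_mod_cast this
      linarith
    calc _ ≤ ((n : ℝ) + 1) * (C3 / (Real.sqrt (n + 1)) ^ 3) :=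
          mul_le_mul_of_nonneg_right h4 (by positivity)
      _ = _ := by
          have h5 : (n : ℝ) + 1 = (Real.sqrt (n + 1)) ^ 2 := (Real.sq_sqrt hn0.le).symm
          nth_rewrite 1 [h5]
          field_simp
  calc _ ≤ C3 / Real.sqrt (n + 1) + C1 / Real.sqrt (n + 1) := add_le_add e4 e3
    _ = _ := by ring

section

variable {G : Type} [Group G] [Fintype G] [DecidableEq G]

/-- A collision. -/
def ColE (a : G) (b : G → Bool) (g : G) : Prop :=
  ∃ h, h ≠ 1 ∧ h ≠ a ∧ h ≠ g ∧ ∀ j < 3, DE a g h j b = 0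

open Classical in
/-- The elements without unique counts. -/
noncomputable def Nu (a : G) (b : G → Bool) : Finset G := univ.filter fun g =>
  g = 1 ∨ g = a ∨ ColE a b g

/-- The translations which separate `x` and `y`. -/
def Sep (x y : G) (b : G → Bool) : Finset G := univ.filter fun u => b (u * x) ≠ b (u * y)

/-- A good connection set. -/
def GoodE (a : G) (b : G → Bool) : Prop := ∀ x y, x ≠ y → (Nu a b).card < (Sep x y b).card

theorem few_sep {ε : ℝ} (hε0 : 0 ≤ ε) (hε1 : ε ≤ 1) {p : G → ℝ} (hp : Pr p)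
    (hpε : ∀ x, x ≠ 1 → ε ≤ p x ∧ p x ≤ 1 - ε) {x y : G} (hxy : x ≠ y) (k m : ℕ)
    (hk : 3 * k + 2 ≤ Fintype.card G) :
    Pb p (fun b => (Sep x y b).card < m) ≤ 2 ^ m * (1 - ε ^ 2 / 2) ^ k := by
  set S := (univ : Finset G).filter fun t => t * x ≠ 1 ∧ t * y ≠ 1 with hS
  have h1 : Fintype.card G ≤ S.card + 2 := by
    have h2 : (univ : Finset G) ⊆ S ∪ {x⁻¹, y⁻¹} := by
      intro t ht
      by_cases h3 : t * x = 1
      · refine mem_union_right _ ?_
        rw [eq_inv_of_mul_eq_one_left h3]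
        exact mem_insert_self _ _
      · by_cases h4 : t * y = 1
        · refine mem_union_right _ ?_
          rw [eq_inv_of_mul_eq_one_left h4]
          exact mem_insert_of_mem (mem_singleton_self _)
        · exact mem_union_left _ (mem_filter.2 ⟨ht, h3, h4⟩)
    have h3 := card_le_card h2
    have h4 := card_union_le S {x⁻¹, y⁻¹}
    have h5 : ({x⁻¹, y⁻¹} : Finset G).card ≤ 2 := card_le_two
    rw [card_univ] at h3
    omega
  obtain ⟨P, hP, hP1, hP2⟩ := indep (fun t => {t * y * x⁻¹, t * x * y⁻¹}) (by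
      intro t t' h
      rcases mem_insert.1 h with h | h
      · refine mem_insert_of_mem (mem_singleton.2 ?_)
        rw [h]; group
      · rw [mem_singleton] at h
        refine mem_insert.2 (Or.inl ?_)
        rw [h]; group) 2 (fun _ => card_le_two) S.card S le_rfl
  have hPk : k ≤ P.card := by omega
  have hd : ∀ t ∈ P, ∀ t' ∈ P, t ≠ t' → Disjoint ({t * x, t * y} : Finset G) {t' * x, t' * y} := by
    intro t ht t' ht' htt
    rw [Finset.disjoint_left]
    intro z hz hz'
    have h7 := hP1 t ht t' ht' htt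
    simp only [mem_insert, mem_singleton, not_or] at h7 hz hz'
    rcases hz with h8 | h8 <;> rcases hz' with h9 | h9
    · exact htt (mul_right_cancel (h8.symm.trans h9))
    · apply h7.2
      rw [← h8, h9]; group
    · apply h7.1
      rw [← h8, h9]; group
    · exact htt (mul_right_cancel (h8.symm.trans h9))
  have h2 := At_few (p := p) hp hε0 hε1 (P := P) (E := fun t => {t * x, t * y}) hd (K := 2)
    (fun t _ => card_le_two) (by
      intro t ht z hz
      obtain ⟨-, h4, h5⟩ := mem_filter.1 (hP ht)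
      rcases mem_insert.1 hz with h6 | h6
      · rw [h6]
        exact hpε _ h4
      · rw [mem_singleton.1 h6]
        exact hpε _ h5) (fun t z => decide (z = t * x)) m
  have h3 : Pb p (fun b => (Sep x y b).card < m) ≤
      Pb p (fun b => (At P (fun t => {t * x, t * y}) (fun t z => decide (z = t * x)) b).card < m) := by
    refine Pb_mono hp fun b hb => lt_of_le_of_lt (card_le_card fun t ht => ?_) hb
    obtain ⟨-, h4⟩ := mem_filter.1 ht
    refine mem_filter.2 ⟨mem_univ _, ?_⟩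
    have h5 : b (t * x) = true := by
      rw [h4 _ (mem_insert_self _ _)]
      simp
    have h6 : b (t * y) = false := by
      rw [h4 _ (mem_insert_of_mem (mem_singleton_self _))]
      simpa using hxy.symm
    rw [h5, h6]
    decide
  refine h3.trans (h2.trans (mul_le_mul_of_nonneg_left ?_ (by positivity)))
  have h6 : 0 ≤ ε ^ 2 / 2 := by positivity
  have h7 : ε ^ 2 ≤ 1 := pow_le_one₀ hε0 hε1
  exact pow_le_pow_of_le_one (by linarith) (by linarith) hPk

end

/-- Almost all connection sets are good. -/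
theorem goodE_main (ε : ℝ) (hε : 0 < ε) (hε2 : 2 * ε ≤ 1) : ∃ C : ℝ, 0 < C ∧
    ∀ (G : Type) [Group G] [Fintype G] [DecidableEq G] (_ : ∀ x : G, x * x = 1) (p : G → ℝ)
      (_ : Pr p) (_ : ∀ x, x ≠ 1 → ε ≤ p x ∧ p x ≤ 1 - ε) (a : G) (_ : a ≠ 1),
      Pb p (fun b => ¬ GoodE a b) ≤ C / Real.sqrt (Fintype.card G + 1) := by
  classical
  obtain ⟨C0, hC0, hsum⟩ := sumE ε hε hε2
  have hρ1 : 1 - ε ^ 2 / 2 < 1 := by
    have : 0 < ε ^ 2 := by positivity
    linarith
  have hρ0 : 0 ≤ 1 - ε ^ 2 / 2 := by nlinarith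
  obtain ⟨L, hL⟩ := exists_pow_lt_of_lt_one (show (0 : ℝ) < 1 / 4 by norm_num) hρ1
  have hL1 : 1 ≤ L := by
    by_contra h
    have : L = 0 := by omega
    rw [this, pow_zero] at hL
    norm_num at hL
  obtain ⟨B, hB⟩ : ∃ B : ℝ, ∀ M : ℕ, (M : ℝ) ^ 3 * (1 / 2) ^ M ≤ B := by
    have h1 : Filter.Tendsto (fun M : ℕ => (M : ℝ) ^ 3 * (1 / 2 : ℝ) ^ M) Filter.atTop (nhds 0) :=
      tendsto_pow_const_mul_const_pow_of_lt_one 3 (by norm_num) (by norm_num)
    obtain ⟨B, hB⟩ := h1.bddAbove_range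
    exact ⟨B, fun M => hB ⟨M, rfl⟩⟩
  have hB0 : 0 ≤ B := le_trans (by positivity) (hB 1)
  refine ⟨Real.sqrt (12 * L + 1) + (48 * L + 12 * L * C0) + (13 * L) ^ 3 * B, by positivity, ?_⟩
  intro G _ _ _ hG p hp hpε a ha
  set n := Fintype.card G with hn
  have hn0 : (0 : ℝ) < (n : ℝ) + 1 := by positivity
  have hsq : 0 < Real.sqrt ((n : ℝ) + 1) := Real.sqrt_pos.2 hn0
  have hL0 : (0 : ℝ) < L := by exact_mod_cast hL1
  rcases Nat.lt_or_ge n (12 * L) with hlt | hge
  · refine (Pb_le_one hp _).trans ?_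
    rw [le_div_iff₀ hsq, one_mul]
    have h1 : Real.sqrt ((n : ℝ) + 1) ≤ Real.sqrt (12 * L + 1) := by
      refine Real.sqrt_le_sqrt ?_
      have : (n : ℝ) ≤ 12 * L := by exact_mod_cast hlt.le
      linarith
    have h2 : 0 ≤ (48 * L + 12 * L * C0) + (13 * L : ℝ) ^ 3 * B := by positivity
    linarith
  set m := n / (6 * L) with hm
  have hm1 : 6 * L * m ≤ n := Nat.mul_div_le n (6 * L)
  have hm2 : n < 6 * L * (m + 1) := by
    have := Nat.lt_mul_div_succ n (show 0 < 6 * L by omega)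
    exact this
  have hm0 : 1 ≤ m := by
    rw [hm, Nat.le_div_iff_mul_le (by omega)]
    omega
  have hm3 : n ≤ 12 * L * m := by nlinarith
  have hm4 : (n : ℝ) ≤ 12 * L * m := by exact_mod_cast hm3
  have hm0' : (1 : ℝ) ≤ m := by exact_mod_cast hm0
  have hn1 : (1 : ℝ) ≤ n := by
    have : 1 ≤ n := by omega
    exact_mod_cast this
  have hsqle : Real.sqrt ((n : ℝ) + 1) ≤ n + 1 := by
    rw [Real.sqrt_le_left (by positivity)]
    nlinarith
  -- the two events
  have hcover : ∀ b : G → Bool, ¬ GoodE a b → (m : ℝ) ≤ ((Nu a b).card : ℝ) ∨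
      ∃ z ∈ (univ : Finset (G × G)).filter (fun z => z.1 ≠ z.2), (Sep z.1 z.2 b).card < m := by
    intro b hb
    unfold GoodE at hb
    push Not at hb
    obtain ⟨x, y, hxy, h1⟩ := hb
    rcases Nat.lt_or_ge (Nu a b).card m with h2 | h2
    · exact Or.inr ⟨(x, y), mem_filter.2 ⟨mem_univ _, hxy⟩, lt_of_le_of_lt h1 h2⟩
    · exact Or.inl (by exact_mod_cast h2)
  refine (Pb_mono hp hcover).trans ((Pb_or hp _ _).trans ?_)
  -- the first event
  have hE : Ex p (fun b => ((Nu a b).card : ℝ)) ≤ 2 + n * (C0 / Real.sqrt (n + 1)) := by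
    have h1 : ∀ b : G → Bool, ((Nu a b).card : ℝ) ≤ 2 + ∑ g ∈ univ.filter
        (fun g : G => g ≠ 1 ∧ g ≠ a),
        ind (ColE a b g) := by
      intro b
      have h2 : Nu a b ⊆ {1, a} ∪ ((univ.filter fun g : G => g ≠ 1 ∧ g ≠ a).filter fun g =>
          ColE a b g) := by
        intro g hg
        by_cases h3 : g = 1
        · exact mem_union_left _ (by rw [h3]; exact mem_insert_self _ _)
        · by_cases h4 : g = a
          · exact mem_union_left _ (by rw [h4]; exact mem_insert_of_mem (mem_singleton_self _))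
          · refine mem_union_right _ (mem_filter.2 ⟨mem_filter.2 ⟨mem_univ _, h3, h4⟩, ?_⟩)
            rcases (mem_filter.1 hg).2 with h5 | h5 | h5
            · exact absurd h5 h3
            · exact absurd h5 h4
            · exact h5
      have h3 := (card_le_card h2).trans (card_union_le _ _)
      have h4 : ({1, a} : Finset G).card ≤ 2 := card_le_two
      have h5 : ∑ g ∈ univ.filter (fun g : G => g ≠ 1 ∧ g ≠ a),
          ind (ColE a b g) =
          (((univ.filter fun g : G => g ≠ 1 ∧ g ≠ a).filter fun g =>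
            ColE a b g).card : ℝ) := by
        rw [card_filter (fun g => ColE a b g)]
        push_cast
        refine sum_congr rfl fun g _ => ?_
        by_cases h6 : ColE a b g
        · rw [ind_pos h6, if_pos h6]
        · rw [ind_neg h6, if_neg h6]
      rw [h5]
      have h6 : (Nu a b).card ≤ 2 + ((univ.filter fun g : G => g ≠ 1 ∧ g ≠ a).filter fun g =>
          ColE a b g).card := by omega
      exact_mod_cast h6
    refine (Ex_mono hp h1).trans ?_
    rw [Ex_add, Ex_const, Ex_sum]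
    have h2 : ∑ g ∈ univ.filter (fun g : G => g ≠ 1 ∧ g ≠ a), Ex p (fun b =>
        ind (ColE a b g)) ≤
        ∑ _g ∈ univ.filter (fun g : G => g ≠ 1 ∧ g ≠ a), C0 / Real.sqrt (n + 1) := by
      refine sum_le_sum fun g hg => ?_
      obtain ⟨-, h3, h4⟩ := mem_filter.1 hg
      exact hsum G hG p hp hpε a g ha h3 h4
    rw [sum_const, nsmul_eq_mul] at h2
    have h3 : ((univ.filter (fun g : G => g ≠ 1 ∧ g ≠ a)).card : ℝ) ≤ n := by
      have : (univ.filter (fun g : G => g ≠ 1 ∧ g ≠ a)).card ≤ n := card_le_univ _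
      exact_mod_cast this
    have h4 : ((univ.filter (fun g : G => g ≠ 1 ∧ g ≠ a)).card : ℝ) * (C0 / Real.sqrt (n + 1)) ≤
        n * (C0 / Real.sqrt (n + 1)) := mul_le_mul_of_nonneg_right h3 (by positivity)
    linarith
  have hev1 : Pb p (fun b => (m : ℝ) ≤ ((Nu a b).card : ℝ)) ≤
      (48 * L + 12 * L * C0) / Real.sqrt (n + 1) := by
    have h1 := markov hp (f := fun b => ((Nu a b).card : ℝ)) (fun b => by positivity)
      (t := (m : ℝ)) (by linarith)
    refine h1.trans ((div_le_div_of_nonneg_right hE (by linarith)).trans ?_)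
    rw [div_le_div_iff₀ (by linarith) hsq]
    have h2 : (2 + n * (C0 / Real.sqrt (n + 1))) * Real.sqrt (n + 1) =
        2 * Real.sqrt (n + 1) + n * C0 := by
      field_simp
    rw [h2]
    have h3 : 2 * Real.sqrt ((n : ℝ) + 1) ≤ 4 * n := by linarith
    have h4 : (n : ℝ) * C0 ≤ 12 * L * m * C0 := mul_le_mul_of_nonneg_right hm4 hC0.le
    nlinarith
  -- the second event
  have hev2 : Pb p (fun b => ∃ z ∈ (univ : Finset (G × G)).filter (fun z => z.1 ≠ z.2),
      (Sep z.1 z.2 b).card < m) ≤ (13 * L) ^ 3 * B / Real.sqrt (n + 1) := by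
    refine (Pb_exists hp _ _).trans ?_
    have h1 : ∀ z ∈ (univ : Finset (G × G)).filter (fun z => z.1 ≠ z.2),
        Pb p (fun b => (Sep z.1 z.2 b).card < m) ≤ (1 / 2) ^ m := by
      intro z hz
      have h2 := few_sep (G := G) hε.le (by linarith) hp hpε (mem_filter.1 hz).2 (L * m) m (by
        have h3 : 2 ≤ L * m * 3 := by nlinarith
        have h4 : 3 * (L * m) + 2 ≤ 6 * L * m := by nlinarith
        omega)
      refine h2.trans ?_
      rw [pow_mul]
      have h3 : ((1 - ε ^ 2 / 2) ^ L) ^ m ≤ (1 / 4) ^ m :=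
        pow_le_pow_left₀ (pow_nonneg hρ0 _) hL.le _
      calc (2 : ℝ) ^ m * ((1 - ε ^ 2 / 2) ^ L) ^ m ≤ 2 ^ m * (1 / 4) ^ m :=
            mul_le_mul_of_nonneg_left h3 (by positivity)
        _ = (1 / 2) ^ m := by
            rw [← mul_pow]
            norm_num
    refine (sum_le_sum h1).trans ?_
    rw [sum_const, nsmul_eq_mul, le_div_iff₀ hsq]
    have h2 : (((univ : Finset (G × G)).filter (fun z => z.1 ≠ z.2)).card : ℝ) ≤
        ((n : ℝ) + 1) ^ 2 := by
      have h3 : ((univ : Finset (G × G)).filter (fun z => z.1 ≠ z.2)).card ≤ n * n := by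
        refine (card_le_univ _).trans ?_
        rw [Fintype.card_prod]
      have h4 : (((univ : Finset (G × G)).filter (fun z => z.1 ≠ z.2)).card : ℝ) ≤ n * n := by
        exact_mod_cast h3
      nlinarith
    have h3 : (n : ℝ) + 1 ≤ 13 * L * m := by
      have : (1 : ℝ) ≤ L * m := by
        have : 1 ≤ L * m := Nat.one_le_iff_ne_zero.2 (by positivity)
        exact_mod_cast this
      linarith
    calc _ ≤ ((n : ℝ) + 1) ^ 2 * (1 / 2) ^ m * (n + 1) := by
          refine mul_le_mul (mul_le_mul_of_nonneg_right h2 (by positivity)) hsqle (by positivity)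
            (by positivity)
      _ = ((n : ℝ) + 1) ^ 3 * (1 / 2) ^ m := by ring
      _ ≤ (13 * L * m) ^ 3 * (1 / 2) ^ m :=
          mul_le_mul_of_nonneg_right (pow_le_pow_left₀ (by positivity) h3 _) (by positivity)
      _ = (13 * L) ^ 3 * ((m : ℝ) ^ 3 * (1 / 2) ^ m) := by ring
      _ ≤ _ := mul_le_mul_of_nonneg_left (hB m) (by positivity)
  refine (add_le_add hev1 hev2).trans ?_
  rw [← add_div]
  refine div_le_div_of_nonneg_right ?_ hsq.le
  have : 0 ≤ Real.sqrt (12 * (L : ℝ) + 1) := Real.sqrt_nonneg _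
  linarith

end Pool.Agent.K4H90.RC
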