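import Pool.Agent.K4H90.RC.Elem2

/-!
# Good connection sets and the three-dimensional method
-/

set_option autoImplicit false
set_option linter.unusedSectionVars false

namespace Pool.Agent.K4H90.RC

open Finset

theorem upd30 {V : Type} (x y w z : V) : Function.update ![x, y, w] 0 z = ![z, y, w] := by
  funext i
  fin_cases i <;> simp

theorem upd31 {V : Type} (x y w z : V) : Function.update ![x, y, w] 1 z = ![x, z, w] := by
  funext i
  fin_cases i <;> simp

theorem upd32 {V : Type} (x y w z : V) : Function.update ![x, y, w] 2 z = ![x, y, z] := by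
  funext i
  fin_cases i <;> simp

/-- A round in dimension three. -/
theorem same_round3 {V W : Type} {A : V → V → Prop} {B : W → W → Prop} {r : ℕ} {x y w : V}
    {x' y' w' : W} (h : SameColour A B (r + 1) ![x, y, w] ![x', y', w']) : ∃ σ : V ≃ W, ∀ z,
      SameColour A B r ![z, y, w] ![σ z, y', w'] ∧ SameColour A B r ![x, z, w] ![x', σ z, w'] ∧
      SameColour A B r ![x, y, z] ![x', y', σ z] := by
  obtain ⟨-, σ, hσ⟩ := h
  refine ⟨σ, fun z => ⟨?_, ?_, ?_⟩⟩
  · have := hσ z 0
    rwa [upd30, upd30] at this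
  · have := hσ z 1
    rwa [upd31, upd31] at this
  · have := hσ z 2
    rwa [upd32, upd32] at this

section

variable {G : Type} [Group G] [Fintype G] [DecidableEq G]

theorem T_of_same (hG : ∀ x : G, x * x = 1) {b : G → Bool} {a g h : G}
    (hs : SameColour (cay b) (cay b) 1 ![1, a, g] ![1, a, h]) (f : Bool → Bool → Bool → ℤ) :
    T f a g b = T f a h b := by
  have hinv : ∀ x : G, x⁻¹ = x := fun x => inv_eq_of_mul_eq_one_left (hG x)
  obtain ⟨σ, hσ⟩ := same_round3 hs
  unfold T
  rw [← Equiv.sum_comp σ fun z => f (b z) (b (z * a)) (b (z * h))]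
  refine sum_congr rfl fun z _ => ?_
  obtain ⟨h1, h2, -⟩ := hσ z
  have a1 := bool_eq (same_atom h2 0 1).2
  have a2 := bool_eq (same_atom h1 0 1).2
  have a3 := bool_eq (same_atom h1 0 2).2
  simp only [Matrix.cons_val_zero, Matrix.cons_val_one, Matrix.cons_val, one_mul, hinv]
    at a1 a2 a3
  rw [a1, a2, a3]

/-- A good connection set makes the colours relative to `1` and `a` different. -/
theorem GoodE_main (hG : ∀ x : G, x * x = 1) {a : G} {b : G → Bool} (hb : GoodE a b) (x y : G)
    (hxy : SameColour (cay b) (cay b) 2 ![1, a, x] ![1, a, y]) : x = y := by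
  classical
  have hinv : ∀ x : G, x⁻¹ = x := fun x => inv_eq_of_mul_eq_one_left (hG x)
  by_contra hne
  obtain ⟨u, hu, hu'⟩ := exists_mem_notMem_of_card_lt_card (hb x y hne)
  obtain ⟨σ, hσ⟩ := same_round3 hxy
  obtain ⟨h1, -, h3⟩ := hσ u
  have h4 : σ u = u := by
    unfold Nu at hu'
    simp only [mem_filter, mem_univ, true_and, not_or] at hu'
    obtain ⟨u1, u2, u3⟩ := hu'
    by_contra h5
    apply u3
    refine ⟨σ u, ?_, ?_, h5, fun j _ => sub_eq_zero.2 (T_of_same hG h3 _)⟩
    · intro h6
      have h7 := (same_atom h3 0 2).1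
      simp only [Matrix.cons_val_zero, Matrix.cons_val] at h7
      exact u1 (h7.2 h6.symm).symm
    · intro h6
      have h7 := (same_atom h3 1 2).1
      simp only [Matrix.cons_val_one, Matrix.cons_val] at h7
      exact u2 (h7.2 h6.symm).symm
  rw [h4] at h1
  have h5 := bool_eq (same_atom h1 0 2).2
  simp only [Matrix.cons_val_zero, Matrix.cons_val, hinv] at h5
  exact (mem_filter.1 hu).2 h5

end

end Pool.Agent.K4H90.RC
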