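import Pool.Agent.K4H90.RC.Sel

/-!
# Path counts in Cayley digraphs and the effect of a single bit
-/

set_option autoImplicit false
set_option linter.unusedSectionVars false

namespace Pool.Agent.K4H90.RC

open Finset

variable {G : Type} [Group G] [Fintype G] [DecidableEq G]

/-- The number (with weight `f`) of the elements `z` with given bits at `z`, `z⁻¹`, `z⁻¹ g`,
`g⁻¹ z`. -/
def F (f : Bool → Bool → Bool → Bool → ℤ) (g : G) (b : G → Bool) : ℤ :=
  ∑ z, f (b z) (b z⁻¹) (b (z⁻¹ * g)) (b (g⁻¹ * z))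

theorem F_flip (f : Bool → Bool → Bool → Bool → ℤ) {g s : G} (b : G → Bool) (hg : g ≠ 1)
    (h1 : s * s ≠ 1) (h2 : s * s ≠ g) (h3 : s * s ≠ g⁻¹) :
    F f g (Function.update b s true) - F f g (Function.update b s false) =
      (f true (b s⁻¹) (b (s⁻¹ * g)) (b (g⁻¹ * s)) - f false (b s⁻¹) (b (s⁻¹ * g)) (b (g⁻¹ * s))) +
      (f (b s⁻¹) true (b (s * g)) (b (g⁻¹ * s⁻¹)) - f (b s⁻¹) false (b (s * g)) (b (g⁻¹ * s⁻¹))) +
      (f (b (g * s⁻¹)) (b (s * g⁻¹)) true (b s⁻¹) - f (b (g * s⁻¹)) (b (s * g⁻¹)) false (b s⁻¹)) +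
      (f (b (g * s)) (b (s⁻¹ * g⁻¹)) (b s⁻¹) true -
        f (b (g * s)) (b (s⁻¹ * g⁻¹)) (b s⁻¹) false) := by
  have e1 : s⁻¹ ≠ s := by
    intro h
    apply h1
    nth_rewrite 1 [← h]
    group
  have e2 : g * s⁻¹ ≠ s := by
    intro h
    apply h2
    nth_rewrite 1 [← h]
    group
  have e3 : g * s ≠ s := by
    intro h
    exact hg (mul_eq_right.1 h)
  have e4 : g * s⁻¹ ≠ s⁻¹ := by
    intro h
    exact hg (mul_eq_right.1 h)
  have e5 : g * s ≠ s⁻¹ := by
    intro h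
    apply h3
    have h8 : g = s⁻¹ * s⁻¹ := eq_mul_inv_of_mul_eq h
    rw [h8, mul_inv_rev, inv_inv]
  have e6 : g * s ≠ g * s⁻¹ := fun h => e1 (mul_left_cancel h).symm
  have e7 : s⁻¹ * g ≠ s := by
    intro h
    apply h2
    nth_rewrite 2 [← h]
    group
  have e8 : g⁻¹ * s ≠ s := fun h => hg (inv_eq_one.1 (mul_eq_right.1 h))
  have e9 : s * g ≠ s := fun h => hg (mul_eq_left.1 h)
  have e10 : g⁻¹ * s⁻¹ ≠ s := by
    intro h
    apply h3
    nth_rewrite 1 [← h]
    group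
  have e11 : s * g⁻¹ ≠ s := fun h => hg (inv_eq_one.1 (mul_eq_left.1 h))
  have e12 : s⁻¹ * g⁻¹ ≠ s := by
    intro h
    apply h3
    nth_rewrite 2 [← h]
    group
  unfold F
  rw [← sum_sub_distrib]
  have hsub : ({s, s⁻¹, g * s⁻¹, g * s} : Finset G) ⊆ univ := subset_univ _
  rw [← sum_subset hsub]
  · rw [sum_insert, sum_insert, sum_insert, sum_singleton]
    · have u : ∀ (v : Bool) (y : G), y ≠ s → Function.update b s v y = b y :=
        fun v y hy => Function.update_of_ne hy _ _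
      have w : ∀ v : Bool, Function.update b s v s = v := fun v => Function.update_self _ _ _
      have a1 : (g * s⁻¹)⁻¹ = s * g⁻¹ := by group
      have a2 : s * g⁻¹ * g = s := by group
      have a3 : g⁻¹ * (g * s⁻¹) = s⁻¹ := by group
      have a4 : (g * s)⁻¹ = s⁻¹ * g⁻¹ := by group
      have a5 : s⁻¹ * g⁻¹ * g = s⁻¹ := by group
      have a6 : g⁻¹ * (g * s) = s := by group
      simp only [a1, a2, a3, a4, a5, a6, inv_inv, w, u _ _ e1, u _ _ e2, u _ _ e3, u _ _ e7,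
        u _ _ e8, u _ _ e9, u _ _ e10, u _ _ e11, u _ _ e12]
      ring
    · simp only [mem_singleton]
      exact Ne.symm e6
    · simp only [mem_insert, mem_singleton, not_or]
      exact ⟨e4.symm, e5.symm⟩
    · simp only [mem_insert, mem_singleton, not_or]
      exact ⟨e1.symm, e2.symm, e3.symm⟩
  · intro z _ hz
    simp only [mem_insert, mem_singleton, not_or] at hz
    obtain ⟨z1, z2, z3, z4⟩ := hz
    have u : ∀ (v : Bool) (y : G), y ≠ s → Function.update b s v y = b y :=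
      fun v y hy => Function.update_of_ne hy _ _
    have y1 : z⁻¹ ≠ s := fun h => z2 (by rw [← h, inv_inv])
    have y2 : z⁻¹ * g ≠ s := fun h => z3 (by rw [← h]; group)
    have y3 : g⁻¹ * z ≠ s := fun h => z4 (by rw [← h]; group)
    rw [u _ _ z1, u _ _ y1, u _ _ y2, u _ _ y3, u _ _ z1, u _ _ y1, u _ _ y2, u _ _ y3, sub_self]

/-- The three counts. -/
def ff : ℕ → Bool → Bool → Bool → Bool → ℤ
  | 0 => fun w x y z => if w && !x && y && z then 1 else 0
  | 1 => fun w x y z => if w && !x && y && !z then 1 else 0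
  | _ => fun w x y z => if w && x && y && z then 1 else 0

/-- The number of the paths of length two. -/
def f0 : Bool → Bool → Bool → Bool → ℤ := fun w _ y _ => if w && y then 1 else 0

/-- The values `β`, `p`, `q` at `s⁻¹`, `x`, `x⁻¹` in the three patterns. -/
def pat (j : ℕ) (s x y : G) : Bool :=
  if y = s⁻¹ then decide (2 ≤ j) else if y = x then true else if y = x⁻¹ then decide (j ≠ 1)
    else false

theorem pat_inv {j : ℕ} {s x : G} : pat j s x s⁻¹ = decide (2 ≤ j) := if_pos rfl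

theorem pat_self {j : ℕ} {s x : G} (h : x ≠ s⁻¹) : pat j s x x = true := by
  unfold pat
  rw [if_neg h, if_pos rfl]

theorem pat_xinv {j : ℕ} {s x : G} (h : x⁻¹ ≠ s⁻¹) (h1 : x⁻¹ ≠ x) :
    pat j s x x⁻¹ = decide (j ≠ 1) := by
  unfold pat
  rw [if_neg h, if_neg h1, if_pos rfl]

theorem pat_ne {j : ℕ} {s x y : G} (h : y ≠ s⁻¹) (h1 : y ≠ x) (h2 : y ≠ x⁻¹) :
    pat j s x y = false := by
  unfold pat
  rw [if_neg h, if_neg h1, if_neg h2]

/-- For the patterns `0` and `2` the bits at `y` and `y⁻¹` are equal. -/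
theorem pat_symm {j : ℕ} (hj : j ≠ 1) {s x y : G} (h : y ≠ s⁻¹) (h' : y⁻¹ ≠ s⁻¹) : pat j s x y = pat j s x y⁻¹ := by
  unfold pat
  rw [if_neg h, if_neg h']
  have e1 : (y⁻¹ = x) ↔ (y = x⁻¹) := inv_eq_iff_eq_inv
  have e2 : (y⁻¹ = x⁻¹) ↔ (y = x) := inv_inj
  by_cases h1 : y = x
  · by_cases h2 : y⁻¹ = x
    · rw [if_pos h1, if_pos h2]
    · rw [if_pos h1, if_neg h2, if_pos (e2.2 h1)]
      simp [hj]
  · by_cases h2 : y⁻¹ = x
    · rw [if_neg h1, if_pos (e1.1 h2), if_pos h2]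
      simp [hj]
    · rw [if_neg h1, if_neg fun h3 => h2 (e1.2 h3), if_neg h2, if_neg fun h3 => h1 (e2.1 h3)]

end Pool.Agent.K4H90.RC
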