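import Pool.Agent.K4H90.RC.Prob

/-!
# Concentration of sums of independent bits
-/

set_option autoImplicit false
set_option linter.unusedSectionVars false

namespace Pool.Agent.K4H90.RC

open Finset Polynomial

/-- The even middle binomial coefficients. -/
theorem central_even (j : ℕ) : (2 * j + 1) * ((2 * j).choose j) ^ 2 ≤ 16 ^ j := by
  induction j with
  | zero => simp
  | succ j ih =>
    have h1 := Nat.succ_mul_centralBinom_succ j
    rw [Nat.centralBinom_eq_two_mul_choose, Nat.centralBinom_eq_two_mul_choose] at h1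
    set a := (2 * (j + 1)).choose (j + 1)
    set b := (2 * j).choose j
    -- (j+1) a = 2 (2j+1) b
    have h2 : (j + 1) ^ 2 * ((2 * (j + 1) + 1) * a ^ 2) = (2 * j + 3) * (2 * (2 * j + 1) * b) ^ 2 := by
      rw [← h1]; ring
    have h3 : (j + 1) ^ 2 * ((2 * (j + 1) + 1) * a ^ 2) ≤ (j + 1) ^ 2 * 16 ^ (j + 1) := by
      rw [h2]
      calc (2 * j + 3) * (2 * (2 * j + 1) * b) ^ 2
          = 4 * ((2 * j + 3) * (2 * j + 1)) * ((2 * j + 1) * b ^ 2) := by ring
        _ ≤ 4 * (4 * (j + 1) ^ 2) * 16 ^ j := by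
            refine Nat.mul_le_mul (Nat.mul_le_mul_left _ ?_) ih
            nlinarith
        _ = (j + 1) ^ 2 * 16 ^ (j + 1) := by ring
    exact Nat.le_of_mul_le_mul_left h3 (by positivity)

/-- The binomial coefficients. -/
theorem choose_sq_le (m r : ℕ) : (m + 1) * (m.choose r) ^ 2 ≤ 4 ^ m := by
  have h0 : (m + 1) * (m.choose r) ^ 2 ≤ (m + 1) * (m.choose (m / 2)) ^ 2 :=
    Nat.mul_le_mul_left _ (Nat.pow_le_pow_left (Nat.choose_le_middle r m) 2)
  refine h0.trans ?_
  rcases Nat.even_or_odd' m with ⟨j, rfl | rfl⟩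
  · rw [Nat.mul_div_cancel_left _ (by norm_num : 0 < 2), pow_mul]
    exact central_even j
  · have h1 : (2 * j + 1) / 2 = j := by omega
    rw [h1]
    have h2 : (2 * (j + 1)).choose (j + 1) = 2 * (2 * j + 1).choose j := by
      have h3 : 2 * (j + 1) = (2 * j + 1) + 1 := by ring
      rw [h3, Nat.choose_succ_succ, Nat.choose_symm_half]
      ring
    have h3 := central_even (j + 1)
    rw [h2] at h3
    have h4 : (16 : ℕ) ^ (j + 1) = 4 * 4 ^ (2 * j + 1) := by
      rw [show (16 : ℕ) = 4 ^ 2 by norm_num, ← pow_mul]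
      ring
    rw [h4] at h3
    nlinarith

theorem choose_le_sqrt (m r : ℕ) : ((m.choose r : ℕ) : ℝ) ≤ 2 ^ m / Real.sqrt (m + 1) := by
  have h := choose_sq_le m r
  have h1 : ((m : ℝ) + 1) * ((m.choose r : ℕ) : ℝ) ^ 2 ≤ 4 ^ m := by exact_mod_cast h
  have h2 : (0 : ℝ) < (m : ℝ) + 1 := by positivity
  rw [le_div_iff₀ (Real.sqrt_pos.2 h2)]
  refine abs_le_of_sq_le_sq' ?_ (by positivity) |>.2
  rw [mul_pow, Real.sq_sqrt h2.le]
  calc ((m.choose r : ℕ) : ℝ) ^ 2 * (m + 1) = ((m : ℝ) + 1) * ((m.choose r : ℕ) : ℝ) ^ 2 := by ring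
    _ ≤ 4 ^ m := h1
    _ = (2 ^ m) ^ 2 := by rw [← pow_mul, mul_comm m 2, pow_mul]; norm_num

/-- Nonnegative coefficients. -/
def Nn (P : ℝ[X]) : Prop := ∀ i, 0 ≤ P.coeff i

theorem Nn.mul {P Q : ℝ[X]} (hP : Nn P) (hQ : Nn Q) : Nn (P * Q) := by
  intro i
  rw [coeff_mul]
  exact sum_nonneg fun x _ => mul_nonneg (hP _) (hQ _)

theorem Nn_one : Nn (1 : ℝ[X]) := by
  intro i
  rw [coeff_one]
  split_ifs <;> norm_num

theorem Nn_lin {a b : ℝ} (ha : 0 ≤ a) (hb : 0 ≤ b) : Nn (C a + C b * X) := by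
  intro i
  rw [coeff_add, coeff_C, coeff_C_mul, coeff_X]
  split_ifs <;> simp [ha, hb, add_nonneg]

theorem Nn_prod {ι : Type} (s : Finset ι) (f : ι → ℝ[X]) (h : ∀ i ∈ s, Nn (f i)) :
    Nn (∏ i ∈ s, f i) :=
  prod_induction f Nn (fun _ _ => Nn.mul) Nn_one h

theorem coeff_mul_le {P R : ℝ[X]} {M : ℝ} (hM : ∀ i, P.coeff i ≤ M) (hM0 : 0 ≤ M) (hR : Nn R)
    (k : ℕ) : (P * R).coeff k ≤ M * R.eval 1 := by
  rw [coeff_mul, Nat.sum_antidiagonal_eq_sum_range_succ_mk]
  have h1 : R.eval 1 = ∑ i ∈ range (R.natDegree + 1), R.coeff i := by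
    rw [eval_eq_sum_range]
    simp
  have h2 : ∑ j ∈ range (k + 1), P.coeff j * R.coeff (k - j) ≤
      ∑ j ∈ range (k + 1), M * R.coeff (k - j) :=
    sum_le_sum fun j _ => mul_le_mul_of_nonneg_right (hM j) (hR _)
  refine h2.trans ?_
  rw [← mul_sum]
  refine mul_le_mul_of_nonneg_left ?_ hM0
  have h3 : ∑ j ∈ range (k + 1), R.coeff (k - j) = ∑ j ∈ range (k + 1), R.coeff j := by
    rw [← sum_range_reflect]
    refine sum_congr rfl fun j hj => ?_
    have := mem_range.1 hj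
    congr 1
    omega
  rw [h3, h1]
  rcases le_total (k + 1) (R.natDegree + 1) with h | h
  · exact sum_le_sum_of_subset_of_nonneg (range_subset_range.2 h) fun i _ _ => hR i
  · refine le_of_eq (sum_subset (range_subset_range.2 h) fun i _ hi => ?_).symm
    refine coeff_eq_zero_of_natDegree_lt ?_
    have := mt mem_range.2 hi
    omega

/-- The bound for sums of `m` bits. -/
noncomputable def gb (ε : ℝ) (m : ℕ) : ℝ := 1 / Real.sqrt (2 * ε * (m + 1))

theorem sum_binom_le {q : ℝ} (hq : 0 < q) (hq1 : q ≤ 1) (n : ℕ) :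
    ∑ m ∈ range (n + 1), (n.choose m : ℝ) * (q ^ m * (1 - q) ^ (n - m) * (1 / ((m : ℝ) + 1))) ≤
      1 / (q * (n + 1)) := by
  have h1 : ∀ m ∈ range (n + 1),
      (n.choose m : ℝ) * (q ^ m * (1 - q) ^ (n - m) * (1 / ((m : ℝ) + 1))) =
        (1 / (q * (n + 1))) * (q ^ (m + 1) * (1 - q) ^ (n + 1 - (m + 1)) *
          ((n + 1).choose (m + 1) : ℝ)) := by
    intro m _
    have h2 : ((n : ℝ) + 1) * (n.choose m : ℝ) = ((n + 1).choose (m + 1) : ℝ) * ((m : ℝ) + 1) := by
      exact_mod_cast Nat.add_one_mul_choose_eq n m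
    have h3 : (n.choose m : ℝ) = ((n + 1).choose (m + 1) : ℝ) * ((m : ℝ) + 1) / ((n : ℝ) + 1) := by
      rw [eq_div_iff (by positivity)]
      linarith
    rw [h3, Nat.add_sub_add_right, pow_succ]
    field_simp
  rw [sum_congr rfl h1, ← mul_sum]
  have h4 : ∑ m ∈ range (n + 1), q ^ (m + 1) * (1 - q) ^ (n + 1 - (m + 1)) *
      ((n + 1).choose (m + 1) : ℝ) ≤ 1 := by
    have h5 := add_pow q (1 - q) (n + 1)
    rw [add_sub_cancel, one_pow, sum_range_succ'] at h5
    have h6 : 0 ≤ q ^ 0 * (1 - q) ^ (n + 1 - 0) * ((n + 1).choose 0 : ℝ) := by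
      have : 0 ≤ 1 - q := by linarith
      positivity
    linarith
  calc _ ≤ (1 / (q * (n + 1))) * 1 := mul_le_mul_of_nonneg_left h4 (by positivity)
    _ = _ := mul_one _

theorem mixture {q : ℝ} (hq : 0 < q) (hq1 : q ≤ 1) {X : Type} [DecidableEq X] (A : Finset X) :
    ∑ T ∈ A.powerset, q ^ T.card * (1 - q) ^ (A.card - T.card) * (1 / Real.sqrt (T.card + 1)) ≤
      1 / Real.sqrt (q * (A.card + 1)) := by
  have h0 : ∀ f : ℕ → ℝ, ∑ T ∈ A.powerset, f T.card =
      ∑ m ∈ range (A.card + 1), (A.card.choose m : ℝ) * f m := by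
    intro f
    rw [sum_powerset_apply_card]
    exact sum_congr rfl fun m _ => nsmul_eq_mul _ _
  set n := A.card
  set t := Real.sqrt (q * (n + 1)) with ht
  have hn : (0 : ℝ) < q * (n + 1) := by positivity
  have ht0 : 0 < t := Real.sqrt_pos.2 hn
  have ht2 : t ^ 2 = q * (n + 1) := Real.sq_sqrt hn.le
  have h1q : 0 ≤ 1 - q := by linarith
  have h1 : ∑ T ∈ A.powerset, q ^ T.card * (1 - q) ^ (n - T.card) *
      (1 / Real.sqrt (T.card + 1)) ≤ ∑ T ∈ A.powerset, q ^ T.card * (1 - q) ^ (n - T.card) *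
        ((t * (1 / ((T.card : ℝ) + 1)) + 1 / t) / 2) := by
    refine sum_le_sum fun T _ => mul_le_mul_of_nonneg_left ?_ (by positivity)
    set a := 1 / Real.sqrt ((T.card : ℝ) + 1)
    have h2 : a ^ 2 = 1 / ((T.card : ℝ) + 1) := by
      rw [div_pow, one_pow, Real.sq_sqrt (by positivity)]
    rw [← h2]
    have h3 : t * a ^ 2 + 1 / t - 2 * a = (t * a - 1) ^ 2 / t := by
      field_simp
      ring
    have h4 : 0 ≤ (t * a - 1) ^ 2 / t := by positivity
    linarith
  refine h1.trans ?_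
  have h5 : ∑ T ∈ A.powerset, q ^ T.card * (1 - q) ^ (n - T.card) *
        ((t * (1 / ((T.card : ℝ) + 1)) + 1 / t) / 2) =
      t / 2 * (∑ T ∈ A.powerset, q ^ T.card * (1 - q) ^ (n - T.card) * (1 / ((T.card : ℝ) + 1))) +
        1 / t / 2 * ∑ T ∈ A.powerset, q ^ T.card * (1 - q) ^ (n - T.card) := by
    rw [mul_sum, mul_sum, ← sum_add_distrib]
    exact sum_congr rfl fun T _ => by ring
  have h6 : ∑ T ∈ A.powerset, q ^ T.card * (1 - q) ^ (n - T.card) = 1 := by
    rw [h0 fun m => q ^ m * (1 - q) ^ (n - m)]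
    have h7 := add_pow q (1 - q) n
    rw [add_sub_cancel, one_pow] at h7
    refine Eq.trans ?_ h7.symm
    exact sum_congr rfl fun m _ => by ring
  have h8 : ∑ T ∈ A.powerset, q ^ T.card * (1 - q) ^ (n - T.card) * (1 / ((T.card : ℝ) + 1)) ≤
      1 / (q * (n + 1)) := by
    rw [h0 fun m => q ^ m * (1 - q) ^ (n - m) * (1 / ((m : ℝ) + 1))]
    exact sum_binom_le hq hq1 n
  rw [h5, h6, mul_one]
  have h9 : t / 2 * (∑ T ∈ A.powerset, q ^ T.card * (1 - q) ^ (n - T.card) *
      (1 / ((T.card : ℝ) + 1))) ≤ t / 2 * (1 / (q * (n + 1))) :=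
    mul_le_mul_of_nonneg_left h8 (by positivity)
  have h10 : t / 2 * (1 / (q * (n + 1))) = 1 / t / 2 := by
    rw [← ht2]
    field_simp
  linarith

section

variable {X : Type} [Fintype X] [DecidableEq X] {p : X → ℝ}

/-- The number of the bits `1` in `A`. -/
def cnt (A : Finset X) (b : X → Bool) : ℕ := (A.filter fun s => b s = true).card

/-- The generating function of the number of the bits `1`. -/
theorem gen (A : Finset X) (k : ℕ) : Pb p (fun b => cnt A b = k) =
    (∏ s ∈ A, (C (1 - p s) + C (p s) * Polynomial.X)).coeff k := by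
  have h1 : ∏ s ∈ A, (C (1 - p s) + C (p s) * (Polynomial.X : ℝ[X])) =
      ∏ s, ∑ v ∈ (univ : Finset Bool), C (wb p s v) *
        (if s ∈ A ∧ v = true then (Polynomial.X : ℝ[X]) else 1) := by
    rw [← prod_subset (subset_univ A)]
    · refine prod_congr rfl fun s hs => ?_
      rw [Fintype.sum_bool]
      simp [wb, hs, add_comm]
    · intro s _ hs
      rw [Fintype.sum_bool]
      simp only [hs, false_and, if_false, mul_one]
      rw [← C_add]
      simp [wb]
  rw [h1, prod_univ_sum, Fintype.piFinset_univ, finsetSum_coeff]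
  unfold Pb Ex
  refine sum_congr rfl fun b _ => ?_
  rw [prod_mul_distrib, ← map_prod, coeff_C_mul]
  have h2 : (∏ s, if s ∈ A ∧ b s = true then (Polynomial.X : ℝ[X]) else 1) =
      Polynomial.X ^ (cnt A b) := by
    rw [prod_ite, prod_const_one, mul_one, prod_const]
    congr 1
    unfold cnt
    congr 1
    ext s
    simp
  rw [h2, coeff_X_pow]
  unfold wt
  congr 1
  show ind (cnt A b = k) = _
  by_cases h : cnt A b = k
  · rw [ind_pos h, if_pos h.symm]
  · rw [ind_neg h, if_neg (Ne.symm h)]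

/-- The number of the bits `1` in `A` is not concentrated. -/
theorem cnt_le {ε : ℝ} (hε : 0 < ε) (A : Finset X) (hA : ∀ s ∈ A, ε ≤ p s ∧ p s ≤ 1 - ε) (k : ℕ)
    (hε2 : 2 * ε ≤ 1) : Pb p (fun b => cnt A b = k) ≤ gb ε A.card := by
  rw [gen]
  have h1 : ∀ s ∈ A, (C (1 - p s) + C (p s) * (Polynomial.X : ℝ[X])) =
      (C ε + C ε * Polynomial.X) + (C (1 - p s - ε) + C (p s - ε) * Polynomial.X) := by
    intro s _
    simp only [C_sub]
    ring
  rw [prod_congr rfl h1, prod_add, finsetSum_coeff]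
  have h2 : ∀ T ∈ A.powerset, ((∏ _i ∈ T, (C ε + C ε * (Polynomial.X : ℝ[X]))) *
      ∏ i ∈ A \ T, (C (1 - p i - ε) + C (p i - ε) * Polynomial.X)).coeff k ≤
        (2 * ε) ^ T.card * (1 - 2 * ε) ^ (A.card - T.card) * (1 / Real.sqrt (T.card + 1)) := by
    intro T hT
    have hT' := mem_powerset.1 hT
    have h3 : ∏ _i ∈ T, (C ε + C ε * (Polynomial.X : ℝ[X])) =
        C (ε ^ T.card) * (1 + Polynomial.X) ^ T.card := by
      rw [prod_const, ← mul_one_add, mul_pow, ← C_pow]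
    rw [h3]
    have h4 : Nn (∏ i ∈ A \ T, (C (1 - p i - ε) + C (p i - ε) * (Polynomial.X : ℝ[X]))) := by
      refine Nn_prod _ _ fun i hi => Nn_lin ?_ ?_
      · linarith [(hA i (mem_sdiff.1 hi).1).2]
      · linarith [(hA i (mem_sdiff.1 hi).1).1]
    have h5 : (∏ i ∈ A \ T, (C (1 - p i - ε) + C (p i - ε) * (Polynomial.X : ℝ[X]))).eval 1 =
        (1 - 2 * ε) ^ (A.card - T.card) := by
      rw [eval_prod, ← card_sdiff_of_subset hT', ← prod_const]
      refine prod_congr rfl fun i _ => ?_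
      simp
      ring
    have h6 := coeff_mul_le (P := C (ε ^ T.card) * (1 + Polynomial.X) ^ T.card)
      (M := (2 * ε) ^ T.card * (1 / Real.sqrt (T.card + 1))) ?_ (by positivity) h4 k
    · refine h6.trans (le_of_eq ?_)
      rw [h5]
      ring
    · intro i
      rw [coeff_C_mul, coeff_one_add_X_pow]
      have h7 := choose_le_sqrt T.card i
      calc ε ^ T.card * ((T.card.choose i : ℕ) : ℝ)
          ≤ ε ^ T.card * (2 ^ T.card / Real.sqrt (T.card + 1)) :=
            mul_le_mul_of_nonneg_left h7 (by positivity)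
        _ = (2 * ε) ^ T.card * (1 / Real.sqrt (T.card + 1)) := by
            rw [mul_pow]
            ring
  refine (sum_le_sum h2).trans ?_
  exact mixture (by linarith) hε2 A

end

end Pool.Agent.K4H90.RC
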