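import Pool.Agent.K4H90.RC.Elem3

/-!
# Random Cayley digraphs
-/

set_option autoImplicit false
set_option linter.unusedSectionVars false

namespace Pool.Agent.K4H90.RC

open Finset

/-- Almost all connection sets are good. -/
theorem good_main (ε : ℝ) (hε : 0 < ε) (hε2 : 2 * ε ≤ 1) : ∃ C : ℝ, 0 < C ∧
    ∀ (G : Type) [Group G] [Fintype G] [DecidableEq G] (p : G → ℝ) (_ : Pr p)
      (_ : ∀ x, x ≠ 1 → ε ≤ p x ∧ p x ≤ 1 - ε) (_ : ∃ g : G, g * g ≠ 1),
      Pb p (fun b => ¬ Good b) ≤ C / Real.sqrt (Fintype.card G + 1) := by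
  obtain ⟨C1, hC1, h1⟩ := many_unique ε hε hε2
  obtain ⟨C2, hC2, h2⟩ := bad_main ε hε (by linarith)
  refine ⟨C1 + C2 + Real.sqrt 128, by positivity, ?_⟩
  intro G _ _ _ p hp hpε hG
  have hsq : 0 < Real.sqrt ((Fintype.card G : ℝ) + 1) := Real.sqrt_pos.2 (by positivity)
  rcases Nat.lt_or_ge (Fintype.card G) 128 with hlt | hge
  · refine (Pb_le_one hp _).trans ?_
    rw [le_div_iff₀ hsq, one_mul]
    have h3 : Real.sqrt ((Fintype.card G : ℝ) + 1) ≤ Real.sqrt 128 := by
      refine Real.sqrt_le_sqrt ?_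
      have : ((Fintype.card G + 1 : ℕ) : ℝ) ≤ (128 : ℕ) := by exact_mod_cast hlt
      push_cast at this
      exact this
    linarith
  · have h3 : ∀ b : G → Bool, ¬ Good b → 256 * (Uq b).card < Fintype.card G ∨ Bad b := by
      intro b hb
      by_contra h4
      push Not at h4
      exact hb h4
    refine (Pb_mono hp h3).trans ((Pb_or hp _ _).trans ?_)
    have h4 := h1 G p hp hpε hG hge
    have h5 := h2 G p hp hpε
    refine (add_le_add h4 h5).trans ?_
    rw [← add_div]
    refine div_le_div_of_nonneg_right ?_ hsq.le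
    have := Real.sqrt_nonneg 128
    linarith

/-- The conclusion. -/
def Identified {V : Type} (k : ℕ) (A : V → V → Prop) : Prop :=
  (∃ (c : Fin k → V) (i : Fin k), ∀ x y, SameColour A A 12 (Function.update c i x)
    (Function.update c i y) → x = y) ∧
  ∀ (W : Type) (B : W → W → Prop), NotDistinguished k 14 A B →
    ∃ φ : V ≃ W, ∀ x y, A x y ↔ B (φ x) (φ y)

theorem identified_of {V : Type} {k : ℕ} {A : V → V → Prop} (c : Fin k → V) {i j : Fin k}
    (hij : i ≠ j) (hA : ∀ x y, SameColour A A 12 (Function.update c i x) (Function.update c i y) →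
      x = y) : Identified k A :=
  ⟨⟨c, i, hA⟩, fun _ _ hB => identify c hij hA hB⟩

section

variable {G : Type} [Group G] [Fintype G] [DecidableEq G]

theorem Good_two {b : G → Bool} (h : Good b) : Identified 2 (cay b) := by
  refine identified_of ![1, 1] (i := 1) (j := 0) (by decide) fun x y hxy => ?_
  rw [upd1, upd1] at hxy
  exact (Good_main h).1 1 x y hxy

theorem Good_three {b : G → Bool} (h : Good b) : Identified 3 (cay b) := by
  refine identified_of ![1, 1, 1] (i := 2) (j := 0) (by decide) fun x y hxy => ?_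
  rw [upd32, upd32] at hxy
  have h1 := same_inj (![0, 2] : Fin 2 → Fin 3) (by decide) hxy
  have h2 : ∀ z : G, ![1, 1, z] ∘ (![0, 2] : Fin 2 → Fin 3) = ![1, z] := by
    intro z
    funext i
    fin_cases i <;> rfl
  rw [h2, h2] at h1
  exact (Good_main h).1 1 x y h1

theorem GoodE_three (hG : ∀ x : G, x * x = 1) {a : G} {b : G → Bool} (hb : GoodE a b) :
    Identified 3 (cay b) := by
  refine identified_of ![1, a, 1] (i := 2) (j := 0) (by decide) fun x y hxy => ?_
  rw [upd32, upd32] at hxy
  exact GoodE_main hG hb x y (same_mono (by norm_num) hxy)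

end

/-- The main result, for bits. -/
theorem bits (ε : ℝ) (hε : 0 < ε) : ∃ C : ℝ, 0 < C ∧
    ∀ (G : Type) [Group G] [Fintype G] [DecidableEq G] (p : G → ℝ) (_ : Pr p)
      (_ : ∀ x, x ≠ 1 → ε ≤ p x ∧ p x ≤ 1 - ε) (k : ℕ)
      (_ : k = 3 ∨ k = 2 ∧ ∃ g : G, g * g ≠ 1),
      Pb p (fun b => ¬ Identified k (cay b)) ≤ C / Real.sqrt (Fintype.card G + 1) := by
  by_cases hε2 : 2 * ε ≤ 1
  · obtain ⟨C1, hC1, h1⟩ := good_main ε hε hε2
    obtain ⟨C2, hC2, h2⟩ := goodE_main ε hε hε2
    refine ⟨C1 + C2 + Real.sqrt 2, by positivity, ?_⟩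
    intro G _ _ _ p hp hpε k hk
    have hsq : 0 < Real.sqrt ((Fintype.card G : ℝ) + 1) := Real.sqrt_pos.2 (by positivity)
    have hs2 : 0 ≤ Real.sqrt 2 := Real.sqrt_nonneg 2
    by_cases hG : ∃ g : G, g * g ≠ 1
    · have h3 : Pb p (fun b => ¬ Identified k (cay b)) ≤ Pb p (fun b => ¬ Good b) := by
        refine Pb_mono hp fun b hb hb' => hb ?_
        rcases hk with rfl | ⟨rfl, -⟩
        · exact Good_three hb'
        · exact Good_two hb'
      refine h3.trans ((h1 G p hp hpε hG).trans (div_le_div_of_nonneg_right ?_ hsq.le))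
      linarith
    · have hk3 : k = 3 := by
        rcases hk with h | ⟨-, h⟩
        · exact h
        · exact absurd h hG
      subst hk3
      push Not at hG
      by_cases ha : ∃ a : G, a ≠ 1
      · obtain ⟨a, ha⟩ := ha
        have h3 : Pb p (fun b => ¬ Identified 3 (cay b)) ≤ Pb p (fun b => ¬ GoodE a b) :=
          Pb_mono hp fun b hb hb' => hb (GoodE_three hG hb')
        refine h3.trans ((h2 G hG p hp hpε a ha).trans (div_le_div_of_nonneg_right ?_ hsq.le))
        linarith
      · push Not at ha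
        have hc : Fintype.card G = 1 := Fintype.card_eq_one_iff.2 ⟨1, ha⟩
        refine (Pb_le_one hp _).trans ?_
        rw [le_div_iff₀ hsq, one_mul, hc]
        norm_num
        linarith
  · refine ⟨Real.sqrt 2, by positivity, ?_⟩
    intro G _ _ _ p hp hpε k hk
    have hc : Fintype.card G = 1 := by
      refine Fintype.card_eq_one_iff.2 ⟨1, fun x => ?_⟩
      by_contra hx
      have := hpε x hx
      linarith
    refine (Pb_le_one hp _).trans ?_
    rw [hc, le_div_iff₀ (Real.sqrt_pos.2 (by norm_num))]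
    norm_num

/-! ### Subsets -/

section

variable {X : Type} [Fintype X] [DecidableEq X] {p : X → ℝ}

theorem Pb_not (Q : (X → Bool) → Prop) : Pb p Q = 1 - Pb p (fun b => ¬ Q b) := by
  have h : Ex p (fun b => ind (Q b) + ind (¬ Q b)) = 1 := by
    rw [← Ex_one (p := p)]
    refine Ex_congr fun b => ?_
    by_cases h : Q b
    · rw [ind_pos h, ind_neg (not_not_intro h), add_zero]
    · rw [ind_neg h, ind_pos h, zero_add]
  rw [Ex_add] at h
  unfold Pb
  linarith

open Classical in
theorem sum_sets (Q : Finset X → Prop) :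
    ∑ S : Finset X with Q S, ∏ x, (if x ∈ S then p x else 1 - p x) =
      Pb p fun b => Q (univ.filter fun x => b x = true) := by
  unfold Pb Ex wt
  rw [sum_filter]
  refine sum_bij' (fun S _ => fun x => decide (x ∈ S)) (fun b _ => univ.filter fun x => b x = true)
    (fun _ _ => mem_univ _) (fun _ _ => mem_univ _) (fun S _ => ?_) (fun b _ => ?_) (fun S _ => ?_)
  · ext x
    simp
  · funext x
    simp
  · have h1 : (univ.filter fun x => decide (x ∈ S) = true) = S := by
      ext x
      simp
    have h2 : ∀ x, wb p x (decide (x ∈ S)) = if x ∈ S then p x else 1 - p x := by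
      intro x
      unfold wb
      by_cases h : x ∈ S <;> simp [h]
    dsimp only
    rw [h1]
    simp only [h2]
    by_cases h : Q S
    · rw [if_pos h, ind_pos h, mul_one]
    · rw [if_neg h, ind_neg h, mul_zero]

end

end Pool.Agent.K4H90.RC
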