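import Pool.Agent.K4H90.RC.Flip

/-!
# Two elements rarely have the same counts
-/

set_option autoImplicit false
set_option linter.unusedSectionVars false

namespace Pool.Agent.K4H90.RC

open Finset

variable {G : Type} [Group G] [Fintype G] [DecidableEq G]

/-- The conditions on the element `s` that concern only `g`. -/
def Base (g s : G) : Prop := s * s ≠ 1 ∧ (s⁻¹ * g) * (s⁻¹ * g) ≠ 1 ∧ s * s ≠ g ∧ s * s ≠ g⁻¹ ∧
  s ≠ g ∧ s ≠ g⁻¹

/-- The conditions on the element `s` that concern `h`. -/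
def Other (g h s : G) : Prop := s * s ≠ h ∧ s * s ≠ h⁻¹ ∧ s ≠ h ∧ s ≠ h⁻¹ ∧
  (s⁻¹ * h ≠ g⁻¹ * s) ∧ (s * h ≠ s⁻¹ * g) ∧ (s * h ≠ g⁻¹ * s) ∧ (h * s⁻¹ ≠ s⁻¹ * g) ∧
  (h * s⁻¹ ≠ g⁻¹ * s) ∧ (h * s ≠ s⁻¹ * g)

/-- The maps to the environment. -/
def env (g h : G) : Option (Bool × Fin 8) → G ≃ G
  | none => Equiv.inv G
  | some (c, i) =>
    let x := if c then g else h
    match i with
    | 0 => (Equiv.inv G).trans (Equiv.mulRight x)
    | 1 => Equiv.mulLeft x⁻¹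
    | 2 => Equiv.mulRight x
    | 3 => (Equiv.inv G).trans (Equiv.mulLeft x⁻¹)
    | 4 => (Equiv.inv G).trans (Equiv.mulLeft x)
    | 5 => Equiv.mulRight x⁻¹
    | 6 => Equiv.mulLeft x
    | 7 => (Equiv.inv G).trans (Equiv.mulRight x⁻¹)

/-- The environment. -/
def EE (g h s : G) : Finset G := univ.image fun i => env g h i s

theorem mem_EE_inv (g h s : G) : s⁻¹ ∈ EE g h s := mem_image.2 ⟨none, mem_univ _, rfl⟩

theorem mem_EE (g h s : G) {x : G} (hx : x = g ∨ x = h) : s⁻¹ * x ∈ EE g h s ∧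
    x⁻¹ * s ∈ EE g h s ∧ s * x ∈ EE g h s ∧ x⁻¹ * s⁻¹ ∈ EE g h s ∧ x * s⁻¹ ∈ EE g h s ∧
    s * x⁻¹ ∈ EE g h s ∧ x * s ∈ EE g h s ∧ s⁻¹ * x⁻¹ ∈ EE g h s := by
  rcases hx with rfl | rfl
  · exact ⟨mem_image.2 ⟨some (true, 0), mem_univ _, rfl⟩,
      mem_image.2 ⟨some (true, 1), mem_univ _, rfl⟩, mem_image.2 ⟨some (true, 2), mem_univ _, rfl⟩,
      mem_image.2 ⟨some (true, 3), mem_univ _, rfl⟩, mem_image.2 ⟨some (true, 4), mem_univ _, rfl⟩,
      mem_image.2 ⟨some (true, 5), mem_univ _, rfl⟩, mem_image.2 ⟨some (true, 6), mem_univ _, rfl⟩,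
      mem_image.2 ⟨some (true, 7), mem_univ _, rfl⟩⟩
  · exact ⟨mem_image.2 ⟨some (false, 0), mem_univ _, rfl⟩,
      mem_image.2 ⟨some (false, 1), mem_univ _, rfl⟩,
      mem_image.2 ⟨some (false, 2), mem_univ _, rfl⟩,
      mem_image.2 ⟨some (false, 3), mem_univ _, rfl⟩,
      mem_image.2 ⟨some (false, 4), mem_univ _, rfl⟩,
      mem_image.2 ⟨some (false, 5), mem_univ _, rfl⟩,
      mem_image.2 ⟨some (false, 6), mem_univ _, rfl⟩,
      mem_image.2 ⟨some (false, 7), mem_univ _, rfl⟩⟩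

theorem EE_cases {g h s y : G} (hy : y ∈ EE g h s) : y = s⁻¹ ∨ ∃ x, (x = g ∨ x = h) ∧
    (y = s⁻¹ * x ∨ y = x⁻¹ * s ∨ y = s * x ∨ y = x⁻¹ * s⁻¹ ∨ y = x * s⁻¹ ∨ y = s * x⁻¹ ∨
      y = x * s ∨ y = s⁻¹ * x⁻¹) := by
  obtain ⟨i, -, hi⟩ := mem_image.1 hy
  rcases i with _ | ⟨c, i⟩
  · exact Or.inl hi.symm
  · refine Or.inr ⟨if c then g else h, ?_, ?_⟩
    · cases c
      · exact Or.inr rfl
      · exact Or.inl rfl
    · have h1 : env g h (some (c, i)) s = y := hi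
      revert h1
      fin_cases i <;> intro h1 <;> simp only [← h1] <;> simp [env]

theorem EE_card (g h s : G) : (EE g h s).card ≤ 17 := by
  refine card_image_le.trans ?_
  rw [card_univ]
  simp

/-- All the conditions on `s`, with the numbers of coincidences fixed. -/
theorem EE_self {g h s : G} (hg : g ≠ 1) (hh : h ≠ 1) (h1 : Base g s) (h2 : Other g h s) :
    s ∉ EE g h s := by
  intro hs
  obtain ⟨b1, b2, b3, b4, b5, b6⟩ := h1
  obtain ⟨o1, o2, -⟩ := h2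
  rcases EE_cases hs with h3 | ⟨x, hx, h3⟩
  · apply b1
    nth_rewrite 1 [h3]
    group
  · have hx1 : x ≠ 1 := by rcases hx with rfl | rfl <;> assumption
    have hx2 : s * s ≠ x := by rcases hx with rfl | rfl <;> assumption
    have hx3 : s * s ≠ x⁻¹ := by rcases hx with rfl | rfl <;> assumption
    rcases h3 with h3 | h3 | h3 | h3 | h3 | h3 | h3 | h3
    · exact hx2 ((eq_inv_mul_iff_mul_eq).1 h3)
    · exact hx1 (inv_eq_one.1 (mul_eq_right.1 h3.symm))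
    · exact hx1 (mul_eq_left.1 h3.symm)
    · exact hx3 (eq_mul_inv_iff_mul_eq.1 h3)
    · exact hx2 (eq_mul_inv_iff_mul_eq.1 h3)
    · exact hx1 (inv_eq_one.1 (mul_eq_left.1 h3.symm))
    · exact hx1 (mul_eq_right.1 h3.symm)
    · exact hx3 ((eq_inv_mul_iff_mul_eq).1 h3)

theorem EE_one {g h s : G} (h1 : Base g s) (h2 : Other g h s) : (1 : G) ∉ EE g h s := by
  intro hs
  obtain ⟨b1, b2, b3, b4, b5, b6⟩ := h1
  obtain ⟨o1, o2, o3, o4, -⟩ := h2
  rcases EE_cases hs with h3 | ⟨x, hx, h3⟩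
  · apply b1
    rw [inv_eq_one.1 h3.symm, one_mul]
  · have hx2 : s ≠ x := by rcases hx with rfl | rfl <;> assumption
    have hx3 : s ≠ x⁻¹ := by rcases hx with rfl | rfl <;> assumption
    rcases h3 with h3 | h3 | h3 | h3 | h3 | h3 | h3 | h3
    · exact hx2 (inv_mul_eq_one.1 h3.symm)
    · exact hx2 (inv_mul_eq_one.1 h3.symm).symm
    · exact hx3 (eq_inv_of_mul_eq_one_left h3.symm)
    · exact hx3 (by rw [← mul_inv_rev] at h3; exact eq_inv_of_mul_eq_one_left (inv_eq_one.1 h3.symm))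
    · exact hx2 (mul_inv_eq_one.1 h3.symm).symm
    · exact hx2 (mul_inv_eq_one.1 h3.symm)
    · exact hx3 (eq_inv_of_mul_eq_one_right h3.symm)
    · exact hx3 (by rw [← mul_inv_rev] at h3; exact eq_inv_of_mul_eq_one_right (inv_eq_one.1 h3.symm))

/-- The first coefficient. -/
def ca (g s : G) : ℤ := if g * s⁻¹ = s⁻¹ * g then 2 else 1

/-- The second coefficient. -/
def cb (g s : G) : ℤ := 1 + (if s * g = s⁻¹ * g ∨ s * g = (s⁻¹ * g)⁻¹ then 1 else 0) +
  (if g * s⁻¹ = s⁻¹ * g ∨ g * s⁻¹ = (s⁻¹ * g)⁻¹ then 1 else 0) +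
  (if g * s = s⁻¹ * g ∨ g * s = (s⁻¹ * g)⁻¹ then 1 else 0)

section flips

variable {g h s : G} {j : ℕ} {b : G → Bool}

/-- The values of the bits near `g`. -/
theorem vals_g (hg : g ≠ 1) (h1 : Base g s) (hb : ∀ y ∈ EE g h s, b y = pat j s (s⁻¹ * g) y) :
    b s⁻¹ = decide (2 ≤ j) ∧ b (s⁻¹ * g) = true ∧ b (g⁻¹ * s) = decide (j ≠ 1) := by
  obtain ⟨b1, b2, b3, b4, b5, b6⟩ := h1
  obtain ⟨m1, m2, -⟩ := mem_EE g h s (Or.inl rfl)
  have x1 : s⁻¹ * g ≠ s⁻¹ := fun h => hg (mul_eq_left.1 h)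
  have x2 : (s⁻¹ * g)⁻¹ ≠ s⁻¹ := by
    intro h3
    rw [inv_inj] at h3
    exact b3 ((eq_inv_mul_iff_mul_eq).1 h3.symm)
  have x3 : (s⁻¹ * g)⁻¹ ≠ s⁻¹ * g := by
    intro h3
    apply b2
    nth_rewrite 1 [← h3]
    exact inv_mul_cancel _
  refine ⟨?_, ?_, ?_⟩
  · rw [hb _ (mem_EE_inv g h s)]
    exact pat_inv
  · rw [hb _ m1]
    exact pat_self x1
  · have e : g⁻¹ * s = (s⁻¹ * g)⁻¹ := by group
    rw [e] at m2 ⊢
    rw [hb _ m2]
    exact pat_xinv x2 x3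

/-- The bits near `h` vanish. -/
theorem vals_h (hh : h ≠ 1) (hgh : h ≠ g) (hgh' : h ≠ g⁻¹) (h2 : Other g h s)
    (hb : ∀ y ∈ EE g h s, b y = pat j s (s⁻¹ * g) y) :
    b (s⁻¹ * h) = false ∧ b (s * h) = false ∧ b (h * s⁻¹) = false ∧ b (h * s) = false := by
  obtain ⟨o1, o2, o3, o4, o5, o6, o7, o8, o9, o10⟩ := h2
  obtain ⟨m1, -, m3, -, m5, -, m7, -⟩ := mem_EE g h s (Or.inr rfl)
  have e : (s⁻¹ * g)⁻¹ = g⁻¹ * s := by group
  refine ⟨?_, ?_, ?_, ?_⟩
  · rw [hb _ m1]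
    refine pat_ne (fun h3 => hh (mul_eq_left.1 h3)) (fun h3 => hgh (mul_left_cancel h3)) ?_
    rw [e]
    exact o5
  · rw [hb _ m3]
    refine pat_ne (fun h3 => ?_) o6 (by rw [e]; exact o7)
    apply o2
    rw [eq_inv_mul_of_mul_eq h3, mul_inv_rev, inv_inv]
  · rw [hb _ m5]
    exact pat_ne (fun h3 => hh (mul_eq_right.1 h3)) o8 (by rw [e]; exact o9)
  · rw [hb _ m7]
    refine pat_ne (fun h3 => ?_) o10 (by rw [e]; exact fun h3 => hgh' (mul_right_cancel h3))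
    apply o2
    rw [eq_mul_inv_of_mul_eq h3, mul_inv_rev, inv_inv]

/-- In the patterns `0` and `2` the set of the bits is symmetric. -/
theorem vals_symm (hj : j ≠ 1) (hg : g ≠ 1) (h1 : Base g s)
    (hb : ∀ y ∈ EE g h s, b y = pat j s (s⁻¹ * g) y) :
    b (s * g) = b (g⁻¹ * s⁻¹) ∧ b (g * s⁻¹) = b (s * g⁻¹) ∧ b (g * s) = b (s⁻¹ * g⁻¹) := by
  obtain ⟨b1, b2, b3, b4, b5, b6⟩ := h1
  obtain ⟨-, -, m3, m4, m5, m6, m7, m8⟩ := mem_EE g h s (Or.inl rfl)
  have e1 : g⁻¹ * s⁻¹ = (s * g)⁻¹ := by group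
  have e2 : s * g⁻¹ = (g * s⁻¹)⁻¹ := by group
  have e3 : s⁻¹ * g⁻¹ = (g * s)⁻¹ := by group
  refine ⟨?_, ?_, ?_⟩
  · rw [hb _ m3, hb _ m4, e1]
    refine pat_symm hj (fun h3 => ?_) (fun h3 => ?_)
    · apply b4
      rw [eq_inv_mul_of_mul_eq h3, mul_inv_rev, inv_inv]
    · rw [inv_inj] at h3
      exact hg (mul_eq_left.1 h3)
  · rw [hb _ m5, hb _ m6, e2]
    refine pat_symm hj (fun h3 => hg (mul_eq_right.1 h3)) (fun h3 => ?_)
    rw [inv_inj] at h3
    exact b3 (eq_mul_inv_iff_mul_eq.1 h3.symm)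
  · rw [hb _ m7, hb _ m8, e3]
    refine pat_symm hj (fun h3 => ?_) (fun h3 => ?_)
    · apply b4
      rw [eq_mul_inv_of_mul_eq h3, mul_inv_rev, inv_inv]
    · rw [inv_inj] at h3
      exact hg (mul_eq_right.1 h3)

/-- The difference of the counts. -/
def DD (g h : G) (j : ℕ) (b : G → Bool) : ℤ := F (ff j) g b - F (ff j) h b

theorem flip0 (hg : g ≠ 1) (hh : h ≠ 1) (hgh : h ≠ g) (hgh' : h ≠ g⁻¹) (h1 : Base g s)
    (h2 : Other g h s) (hb : ∀ y ∈ EE g h s, b y = pat 0 s (s⁻¹ * g) y) :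
    DD g h 0 (Function.update b s true) = DD g h 0 (Function.update b s false) + 1 := by
  obtain ⟨v1, v2, v3⟩ := vals_g hg h1 hb
  obtain ⟨w1, w2, w3, w4⟩ := vals_h hh hgh hgh' h2 hb
  have k1 := F_flip (ff 0) b hg h1.1 h1.2.2.1 h1.2.2.2.1
  have k2 := F_flip (ff 0) b hh h1.1 h2.1 h2.2.1
  unfold DD
  rw [v1, v2, v3] at k1
  rw [v1, w1, w2, w3, w4] at k2
  generalize hx : F (ff 0) g (Function.update b s true) -
    F (ff 0) g (Function.update b s false) = x at k1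
  generalize hy : F (ff 0) h (Function.update b s true) -
    F (ff 0) h (Function.update b s false) = y at k2
  simp [ff] at k1 k2
  linarith

theorem flip01 (hg : g ≠ 1) (hh : h ≠ 1) (hgh : h ≠ g) (hgh' : h ≠ g⁻¹) (h1 : Base g s)
    (h2 : Other g h s) (hb : ∀ y ∈ EE g h s, b y = pat 0 s (s⁻¹ * g) y) :
    DD g h 1 (Function.update b s true) = DD g h 1 (Function.update b s false) := by
  obtain ⟨v1, v2, v3⟩ := vals_g hg h1 hb
  obtain ⟨w1, w2, w3, w4⟩ := vals_h hh hgh hgh' h2 hb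
  obtain ⟨u1, u2, u3⟩ := vals_symm (by norm_num) hg h1 hb
  have k1 := F_flip (ff 1) b hg h1.1 h1.2.2.1 h1.2.2.2.1
  have k2 := F_flip (ff 1) b hh h1.1 h2.1 h2.2.1
  unfold DD
  rw [v1, v2, v3, ← u1, ← u2, ← u3] at k1
  rw [v1, w1, w2, w3, w4] at k2
  generalize hx : F (ff 1) g (Function.update b s true) -
    F (ff 1) g (Function.update b s false) = x at k1
  generalize hy : F (ff 1) h (Function.update b s true) -
    F (ff 1) h (Function.update b s false) = y at k2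
  simp [ff] at k1 k2
  linarith

theorem flip2 {j : ℕ} (hj : j < 2) (hg : g ≠ 1) (hh : h ≠ 1) (h1 : Base g s)
    (h2 : Other g h s) (hb : ∀ y ∈ EE g h s, b y = pat j s (s⁻¹ * g) y) :
    DD g h 2 (Function.update b s true) = DD g h 2 (Function.update b s false) := by
  obtain ⟨v1, v2, v3⟩ := vals_g hg h1 hb
  have k1 := F_flip (ff 2) b hg h1.1 h1.2.2.1 h1.2.2.2.1
  have k2 := F_flip (ff 2) b hh h1.1 h2.1 h2.2.1
  have hj' : decide (2 ≤ j) = false := by simp; omega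
  unfold DD
  rw [v1, hj'] at k1 k2
  generalize hx : F (ff 2) g (Function.update b s true) -
    F (ff 2) g (Function.update b s false) = x at k1
  generalize hy : F (ff 2) h (Function.update b s true) -
    F (ff 2) h (Function.update b s false) = y at k2
  simp [ff] at k1 k2
  linarith

theorem flip1 (hg : g ≠ 1) (hh : h ≠ 1) (hgh : h ≠ g) (hgh' : h ≠ g⁻¹) (h1 : Base g s)
    (h2 : Other g h s) (hb : ∀ y ∈ EE g h s, b y = pat 1 s (s⁻¹ * g) y) :
    DD g h 1 (Function.update b s true) = DD g h 1 (Function.update b s false) + ca g s := by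
  obtain ⟨v1, v2, v3⟩ := vals_g hg h1 hb
  obtain ⟨w1, w2, w3, w4⟩ := vals_h hh hgh hgh' h2 hb
  have k1 := F_flip (ff 1) b hg h1.1 h1.2.2.1 h1.2.2.2.1
  have k2 := F_flip (ff 1) b hh h1.1 h2.1 h2.2.1
  unfold DD
  rw [v1, v2, v3] at k1
  rw [v1, w1, w2, w3, w4] at k2
  obtain ⟨-, -, -, -, m5, m6, -⟩ := mem_EE g h s (Or.inl rfl)
  have e : (s⁻¹ * g)⁻¹ = g⁻¹ * s := by group
  have x2 : (s⁻¹ * g)⁻¹ ≠ s⁻¹ * g := by
    intro h3
    apply h1.2.1
    nth_rewrite 1 [← h3]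
    exact inv_mul_cancel _
  unfold ca
  by_cases hc : g * s⁻¹ = s⁻¹ * g
  · have hc' : s * g⁻¹ = g⁻¹ * s := by
      have := congrArg (·⁻¹) hc
      simpa using this
    rw [hc, hc', v2, v3] at k1
    rw [if_pos hc]
    generalize hx : F (ff 1) g (Function.update b s true) -
      F (ff 1) g (Function.update b s false) = x at k1
    generalize hy : F (ff 1) h (Function.update b s true) -
      F (ff 1) h (Function.update b s false) = y at k2
    simp [ff] at k1 k2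
    linarith
  · have n1 : g * s⁻¹ ≠ s⁻¹ := fun h => hg (mul_eq_right.1 h)
    rw [if_neg hc]
    by_cases hc' : g * s⁻¹ = (s⁻¹ * g)⁻¹
    · have h5 : b (g * s⁻¹) = false := by rw [hc', e, v3]; rfl
      rw [h5] at k1
      generalize hx : F (ff 1) g (Function.update b s true) -
        F (ff 1) g (Function.update b s false) = x at k1
      generalize hy : F (ff 1) h (Function.update b s true) -
        F (ff 1) h (Function.update b s false) = y at k2
      simp [ff] at k1 k2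
      linarith
    · have h5 : b (g * s⁻¹) = false := by
        rw [hb _ m5]
        exact pat_ne n1 hc hc'
      rw [h5] at k1
      generalize hx : F (ff 1) g (Function.update b s true) -
        F (ff 1) g (Function.update b s false) = x at k1
      generalize hy : F (ff 1) h (Function.update b s true) -
        F (ff 1) h (Function.update b s false) = y at k2
      simp [ff] at k1 k2
      linarith

theorem flip22 (hg : g ≠ 1) (hh : h ≠ 1) (hgh : h ≠ g) (hgh' : h ≠ g⁻¹) (h1 : Base g s)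
    (h2 : Other g h s) (hb : ∀ y ∈ EE g h s, b y = pat 2 s (s⁻¹ * g) y) :
    DD g h 2 (Function.update b s true) = DD g h 2 (Function.update b s false) + cb g s := by
  obtain ⟨v1, v2, v3⟩ := vals_g hg h1 hb
  obtain ⟨w1, w2, w3, w4⟩ := vals_h hh hgh hgh' h2 hb
  obtain ⟨u1, u2, u3⟩ := vals_symm (by norm_num) hg h1 hb
  have k1 := F_flip (ff 2) b hg h1.1 h1.2.2.1 h1.2.2.2.1
  have k2 := F_flip (ff 2) b hh h1.1 h2.1 h2.2.1
  unfold DD
  rw [v1, v2, v3, ← u1, ← u2, ← u3] at k1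
  rw [v1, w1, w2, w3, w4] at k2
  obtain ⟨m1, m2, m3, m4, m5, m6, m7, m8⟩ := mem_EE g h s (Or.inl rfl)
  have e : (s⁻¹ * g)⁻¹ = g⁻¹ * s := by group
  have val : ∀ y ∈ EE g h s, y ≠ s⁻¹ →
      b y = decide (y = s⁻¹ * g ∨ y = (s⁻¹ * g)⁻¹) := by
    intro y hy hy1
    by_cases c1 : y = s⁻¹ * g
    · rw [c1, v2]
      simp
    · by_cases c2 : y = (s⁻¹ * g)⁻¹
      · rw [c2, e, v3]
        simp
      · rw [hb y hy, pat_ne hy1 c1 c2]
        rw [e] at c2 ⊢
        simp [c1, c2]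
  obtain ⟨b1, b2, b3, b4, b5, b6⟩ := h1
  rw [val _ m3 (fun h3 => b4 (by rw [eq_inv_mul_of_mul_eq h3, mul_inv_rev, inv_inv])),
    val _ m5 (fun h => hg (mul_eq_right.1 h)),
    val _ m7 (fun h3 => b4 (by rw [eq_mul_inv_of_mul_eq h3, mul_inv_rev, inv_inv]))] at k1
  generalize hx : F (ff 2) g (Function.update b s true) -
    F (ff 2) g (Function.update b s false) = x at k1
  generalize hy : F (ff 2) h (Function.update b s true) -
    F (ff 2) h (Function.update b s false) = y at k2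
  simp only [ff] at k1 k2
  simp only [Bool.false_and, Bool.and_false, Bool.true_and, Bool.and_true, Bool.and_self,
    decide_eq_true_eq, if_true, Bool.false_eq_true, if_false, sub_zero, sub_self, add_zero,
    le_refl, decide_true, ne_eq, OfNat.ofNat_ne_one, not_false_eq_true] at k1 k2
  unfold cb
  linarith

end flips

end Pool.Agent.K4H90.RC
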