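import Pool.Agent.K4H90.RC.Pair

/-!
# The probability that two elements have the same counts
-/

set_option autoImplicit false
set_option linter.unusedSectionVars false

namespace Pool.Agent.K4H90.RC

open Finset

theorem pigeon {α τ : Type} [DecidableEq τ] (S : Finset α) (T : Finset τ) (f : α → τ)
    (hf : ∀ s ∈ S, f s ∈ T) (hT : T.Nonempty) :
    ∃ t ∈ T, S.card ≤ T.card * (S.filter fun s => f s = t).card := by
  by_contra h
  push Not at h
  have h1 := card_eq_sum_card_fiberwise hf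
  have h2 : ∑ t ∈ T, T.card * (S.filter fun s => f s = t).card < ∑ _t ∈ T, S.card :=
    sum_lt_sum_of_nonempty hT h
  rw [← mul_sum, ← h1, sum_const, smul_eq_mul] at h2
  exact lt_irrefl _ h2

theorem sqrt_ratio {A B c : ℕ} (h : A + 1 ≤ c * (B + 1)) (J : ℕ) {C : ℝ} (hC : 0 < C) :
    C / (Real.sqrt (B + 1)) ^ J ≤ C * (Real.sqrt c) ^ J / (Real.sqrt (A + 1)) ^ J := by
  have h1 : (A : ℝ) + 1 ≤ c * ((B : ℝ) + 1) := by exact_mod_cast h
  have h2 : Real.sqrt (A + 1) ≤ Real.sqrt c * Real.sqrt (B + 1) := by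
    rw [← Real.sqrt_mul (by positivity)]
    exact Real.sqrt_le_sqrt h1
  have h3 : 0 < Real.sqrt ((A : ℝ) + 1) := Real.sqrt_pos.2 (by positivity)
  have h4 : 0 < Real.sqrt ((B : ℝ) + 1) := Real.sqrt_pos.2 (by positivity)
  rw [div_le_div_iff₀ (by positivity) (by positivity), mul_assoc, ← mul_pow]
  exact mul_le_mul_of_nonneg_left (pow_le_pow_left₀ h3.le h2 _) hC.le

/-- Three counts. -/
theorem pair3 (ε : ℝ) (hε : 0 < ε) (hε2 : 2 * ε ≤ 1) : ∃ C : ℝ, 0 < C ∧
    ∀ (G : Type) [Group G] [Fintype G] [DecidableEq G] (p : G → ℝ) (_ : Pr p)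
      (_ : ∀ x, x ≠ 1 → ε ≤ p x ∧ p x ≤ 1 - ε) (g h : G) (_ : g ≠ 1) (_ : h ≠ 1) (_ : h ≠ g)
      (_ : h ≠ g⁻¹) (S : Finset G) (_ : ∀ s ∈ S, Base g s ∧ Other g h s),
      Pb p (fun b => ∀ j < 3, DD g h j b = 0) ≤ C / (Real.sqrt (S.card + 1)) ^ 3 := by
  obtain ⟨C, hC, hmain⟩ := tri_num ε hε hε2 17 3
  refine ⟨C * (Real.sqrt (2592 : ℕ)) ^ 3, by positivity, ?_⟩
  intro G _ _ _ p hp hpε g h hg hh hgh hgh' S hS
  obtain ⟨⟨α, β⟩, hαβ, h1⟩ := pigeon S (({1, 2} : Finset ℤ) ×ˢ ({1, 2, 3, 4} : Finset ℤ))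
    (fun s => (ca g s, cb g s)) (by
      intro s _
      rw [mem_product]
      constructor
      · show ca g s ∈ _
        unfold ca
        split_ifs <;> simp
      · show cb g s ∈ _
        unfold cb
        split_ifs <;> simp) ⟨(1, 1), by simp⟩
  have hα : α ≠ 0 := by
    have := (mem_product.1 hαβ).1
    simp only [mem_insert, mem_singleton] at this
    omega
  have hβ : β ≠ 0 := by
    have := (mem_product.1 hαβ).2
    simp only [mem_insert, mem_singleton] at this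
    omega
  have hcard : (({1, 2} : Finset ℤ) ×ˢ ({1, 2, 3, 4} : Finset ℤ)).card = 8 := by decide
  rw [hcard] at h1
  set S' := S.filter fun s => (ca g s, cb g s) = (α, β) with hS'
  have hS2 : ∀ s ∈ S', Base g s ∧ Other g h s ∧ ca g s = α ∧ cb g s = β := by
    intro s hs
    obtain ⟨h2, h3⟩ := mem_filter.1 hs
    obtain ⟨h4, h5⟩ := Prod.mk.inj h3
    exact ⟨(hS s h2).1, (hS s h2).2, h4, h5⟩
  obtain ⟨P, hP, hP1, hP2, hP3⟩ := select (env g h) (EE g h)
    (fun s y hy => by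
      obtain ⟨i, -, hi⟩ := mem_image.1 hy
      exact ⟨i, hi⟩) S' (fun s hs => EE_self hg hh (hS2 s hs).1 (hS2 s hs).2.1)
  have hι : 2 * Fintype.card (Option (Bool × Fin 8)) + Fintype.card (Option (Bool × Fin 8)) *
      Fintype.card (Option (Bool × Fin 8)) + 1 = 324 := by simp
  rw [hι] at hP3
  have hne : ∀ s ∈ P, s ≠ 1 := by
    intro s hs h2
    apply (hS2 s (hP hs)).1.1
    rw [h2, one_mul]
  have h4 := hmain G p hp P (EE g h) hP1 hP2 (fun s _ => EE_card g h s)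
    (fun s hs => hpε s (hne s hs))
    (fun s hs x hx => hpε x (fun h5 => EE_one (hS2 s (hP hs)).1 (hS2 s (hP hs)).2.1
      (by rw [← h5]; exact hx)))
    (fun j s y => pat j s (s⁻¹ * g) y) (DD g h)
    (fun j => if j = 0 then 1 else if j = 1 then α else β)
    (by
      intro j _
      split_ifs
      · norm_num
      · exact hα
      · exact hβ)
    (by
      intro j hj s hs b hb
      obtain ⟨c1, c2, c3, c4⟩ := hS2 s (hP hs)
      interval_cases j
      · exact flip0 hg hh hgh hgh' c1 c2 hb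
      · have := flip1 hg hh hgh hgh' c1 c2 hb
        rw [c3] at this
        exact this
      · have := flip22 hg hh hgh hgh' c1 c2 hb
        rw [c4] at this
        exact this)
    (by
      intro j hj s hs b hb j' hjj hj'
      obtain ⟨c1, c2, c3, c4⟩ := hS2 s (hP hs)
      interval_cases j
      · interval_cases j'
        · exact flip01 hg hh hgh hgh' c1 c2 hb
        · exact flip2 (by norm_num) hg hh c1 c2 hb
      · interval_cases j'
        exact flip2 (by norm_num) hg hh c1 c2 hb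
      · omega)
  refine h4.trans (sqrt_ratio ?_ 3 hC)
  omega

/-! ### A single count -/

section

variable {G : Type} [Group G] [Fintype G] [DecidableEq G]

theorem F0_eq (g : G) (b : G → Bool) :
    F f0 g b = ∑ z, if b z = true ∧ b (z⁻¹ * g) = true then 1 else 0 := by
  unfold F f0
  refine sum_congr rfl fun z _ => ?_
  simp

/-- The effect of a bit on the number of paths of length two, generic case. -/
theorem F0_flip {g s : G} (b : G → Bool) (h2 : s * s ≠ g) :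
    F f0 g (Function.update b s true) - F f0 g (Function.update b s false) =
      (if b (s⁻¹ * g) = true then 1 else 0) + (if b (g * s⁻¹) = true then 1 else 0) := by
  have e2 : g * s⁻¹ ≠ s := by
    intro h
    apply h2
    nth_rewrite 1 [← h]
    group
  have e7 : s⁻¹ * g ≠ s := by
    intro h
    apply h2
    nth_rewrite 2 [← h]
    group
  rw [F0_eq, F0_eq, ← sum_sub_distrib]
  have hsub : ({s, g * s⁻¹} : Finset G) ⊆ univ := subset_univ _
  have u : ∀ (v : Bool) (y : G), y ≠ s → Function.update b s v y = b y :=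
    fun v y hy => Function.update_of_ne hy _ _
  have w : ∀ v : Bool, Function.update b s v s = v := fun v => Function.update_self _ _ _
  rw [← sum_subset hsub]
  · rw [sum_insert (by rw [mem_singleton]; exact e2.symm), sum_singleton]
    have a1 : (g * s⁻¹)⁻¹ * g = s := by group
    simp only [a1, w, u _ _ e2, u _ _ e7]
    simp
  · intro z _ hz
    simp only [mem_insert, mem_singleton, not_or] at hz
    obtain ⟨z1, z3⟩ := hz
    have y2 : z⁻¹ * g ≠ s := fun h => z3 (by rw [← h]; group)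
    rw [u _ _ z1, u _ _ y2, u _ _ z1, u _ _ y2, sub_self]

/-- The effect of a bit on the number of paths of length two, the other case. -/
theorem F0_flip' {g s : G} (b : G → Bool) (h2 : s * s = g) :
    F f0 g (Function.update b s true) - F f0 g (Function.update b s false) = 1 := by
  rw [F0_eq, F0_eq, ← sum_sub_distrib, sum_eq_single s]
  · have a1 : s⁻¹ * g = s := by rw [← h2]; group
    rw [a1, Function.update_self, Function.update_self]
    simp
  · intro z _ hz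
    have y2 : z⁻¹ * g ≠ s := by
      intro h
      apply hz
      have h3 : g = z * s := by rw [← h]; group
      rw [← h2] at h3
      exact (mul_right_cancel h3).symm
    rw [Function.update_of_ne hz, Function.update_of_ne y2, Function.update_of_ne hz,
      Function.update_of_ne y2, sub_self]
  · intro h
    exact absurd (mem_univ _) h

/-- The maps to the environment. -/
def env1 (g h : G) : Bool × Bool → G ≃ G
  | (c, false) => (Equiv.inv G).trans (Equiv.mulRight (if c then g else h))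
  | (c, true) => (Equiv.inv G).trans (Equiv.mulLeft (if c then g else h))

/-- The environment. -/
def E1 (g h s : G) : Finset G := (univ.image fun i => env1 g h i s).erase s

theorem E1_sub (g h s : G) {y : G} (hy : y ∈ E1 g h s) : ∃ i, env1 g h i s = y := by
  obtain ⟨i, -, hi⟩ := mem_image.1 (mem_erase.1 hy).2
  exact ⟨i, hi⟩

theorem mem_E1 (g h s : G) {x : G} (hx : x = g ∨ x = h) :
    (s⁻¹ * x ≠ s → s⁻¹ * x ∈ E1 g h s) ∧ (x * s⁻¹ ≠ s → x * s⁻¹ ∈ E1 g h s) := by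
  rcases hx with rfl | rfl
  · exact ⟨fun h1 => mem_erase.2 ⟨h1, mem_image.2 ⟨(true, false), mem_univ _, rfl⟩⟩,
      fun h1 => mem_erase.2 ⟨h1, mem_image.2 ⟨(true, true), mem_univ _, rfl⟩⟩⟩
  · exact ⟨fun h1 => mem_erase.2 ⟨h1, mem_image.2 ⟨(false, false), mem_univ _, rfl⟩⟩,
      fun h1 => mem_erase.2 ⟨h1, mem_image.2 ⟨(false, true), mem_univ _, rfl⟩⟩⟩

theorem E1_card (g h s : G) : (E1 g h s).card ≤ 4 := by
  refine (card_erase_le).trans (card_image_le.trans ?_)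
  rw [card_univ]
  simp

theorem E1_one {g h s : G} (h1 : s ≠ g) (h2 : s ≠ h) : (1 : G) ∉ E1 g h s := by
  intro h3
  obtain ⟨⟨c, c'⟩, hi⟩ := E1_sub g h s h3
  cases c <;> cases c'
  · exact h2 (inv_mul_eq_one.1 hi)
  · exact h2 (mul_inv_eq_one.1 hi).symm
  · exact h1 (inv_mul_eq_one.1 hi)
  · exact h1 (mul_inv_eq_one.1 hi).symm

end

/-- One count: a set of suitable elements. -/
theorem pair1_aux (ε : ℝ) (hε : 0 < ε) (hε2 : 2 * ε ≤ 1) : ∃ C : ℝ, 0 < C ∧
    ∀ (G : Type) [Group G] [Fintype G] [DecidableEq G] (p : G → ℝ) (_ : Pr p)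
      (_ : ∀ x, x ≠ 1 → ε ≤ p x ∧ p x ≤ 1 - ε) (g h : G) (S : Finset G)
      (_ : ∀ s ∈ S, s ≠ 1 ∧ s ≠ g ∧ s ≠ h) (π : G → G → Bool) (a : ℤ) (_ : a ≠ 0)
      (_ : ∀ s ∈ S, ∀ b : G → Bool, (∀ y ∈ E1 g h s, b y = π s y) →
        F f0 g (Function.update b s true) - F f0 h (Function.update b s true) =
        F f0 g (Function.update b s false) - F f0 h (Function.update b s false) + a),
      Pb p (fun b => F f0 g b = F f0 h b) ≤ C / Real.sqrt (S.card + 1) := by
  obtain ⟨C, hC, hmain⟩ := tri_num ε hε hε2 4 1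
  refine ⟨C * (Real.sqrt (25 : ℕ)) ^ 1, by positivity, ?_⟩
  intro G _ _ _ p hp hpε g h S hS π a ha hfl
  obtain ⟨P, hP, hP1, hP2, hP3⟩ := select (env1 g h) (E1 g h)
    (fun s y hy => E1_sub g h s hy) S (fun s _ => notMem_erase _ _)
  have hι : 2 * Fintype.card (Bool × Bool) + Fintype.card (Bool × Bool) *
      Fintype.card (Bool × Bool) + 1 = 25 := by simp
  rw [hι] at hP3
  have h4 := hmain G p hp P (E1 g h) hP1 hP2 (fun s _ => E1_card g h s)
    (fun s hs => hpε s (hS s (hP hs)).1)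
    (fun s hs x hx => hpε x (fun h5 => E1_one (hS s (hP hs)).2.1 (hS s (hP hs)).2.2
      (by rw [← h5]; exact hx)))
    (fun _ => π) (fun _ b => F f0 g b - F f0 h b) (fun _ => a) (fun _ _ => ha)
    (fun j _ s hs b hb => hfl s (hP hs) b hb)
    (fun j hj s hs b hb j' hjj hj' => by omega)
  have h5 : Pb p (fun b => F f0 g b = F f0 h b) ≤
      Pb p (fun b => ∀ j < 1, F f0 g b - F f0 h b = 0) :=
    Pb_mono hp fun b hb j _ => sub_eq_zero.2 hb
  refine (h5.trans (h4.trans (sqrt_ratio (A := S.card) (c := 25) ?_ 1 hC))).trans (le_of_eq ?_)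
  · omega
  · rw [pow_one (Real.sqrt (S.card + 1))]

theorem conj_card {G : Type} [Group G] [Fintype G] [DecidableEq G] {g h : G} (hgh : g ≠ h) :
    2 * (univ.filter fun s : G => s * h = g * s).card ≤ Fintype.card G := by
  set Z := univ.filter fun s : G => s * h = g * s
  rcases Z.eq_empty_or_nonempty with h0 | ⟨s0, hs0⟩
  · rw [h0]
    simp
  · have h1 : (Z.image fun s => s * s0⁻¹) ⊆ univ \ Z := by
      intro t ht
      obtain ⟨s, hs, rfl⟩ := mem_image.1 ht
      refine mem_sdiff.2 ⟨mem_univ _, fun h2 => ?_⟩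
      have e1 : s * h = g * s := (mem_filter.1 hs).2
      have e0 : s0 * h = g * s0 := (mem_filter.1 hs0).2
      have e2 : s * s0⁻¹ * h = g * (s * s0⁻¹) := (mem_filter.1 h2).2
      apply hgh
      have e3 : s0⁻¹ * h = h * s0⁻¹ := by
        have : s * (s0⁻¹ * h) = s * (h * s0⁻¹) := by
          rw [← mul_assoc, e2, ← mul_assoc, ← e1, mul_assoc]
        exact mul_left_cancel this
      have e4 : g = s0 * h * s0⁻¹ := (mul_inv_eq_of_eq_mul e0).symm
      rw [e4, mul_assoc, ← e3, mul_inv_cancel_left]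
    have h2 := card_le_card h1
    rw [card_image_of_injective _ (mul_left_injective _)] at h2
    have h3 : (univ \ Z).card + Z.card = Fintype.card G := by
      rw [card_sdiff_add_card_eq_card (subset_univ _), card_univ]
    omega

/-- A single count. -/
theorem pair1 (ε : ℝ) (hε : 0 < ε) (hε2 : 2 * ε ≤ 1) : ∃ C : ℝ, 0 < C ∧
    ∀ (G : Type) [Group G] [Fintype G] [DecidableEq G] (p : G → ℝ) (_ : Pr p)
      (_ : ∀ x, x ≠ 1 → ε ≤ p x ∧ p x ≤ 1 - ε) (g h : G) (_ : g ≠ h),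
      Pb p (fun b => F f0 g b = F f0 h b) ≤ C / Real.sqrt (Fintype.card G + 1) := by
  obtain ⟨C, hC, hmain⟩ := pair1_aux ε hε hε2
  refine ⟨C * (Real.sqrt (8 : ℕ)) ^ 1, by positivity, ?_⟩
  intro G _ _ _ p hp hpε g h hgh
  let Q : G → Prop := fun s => s ≠ 1 ∧ s ≠ g ∧ s ≠ h
  obtain ⟨Z, hZ⟩ : ∃ Z : Finset G, Z = univ.filter fun s : G => s * h = g * s := ⟨_, rfl⟩
  obtain ⟨W, hW⟩ : ∃ Z : Finset G, Z = {1, g, h} := ⟨_, rfl⟩
  obtain ⟨C1, hC1⟩ : ∃ Z : Finset G, Z = univ.filter fun s : G => Q s ∧ s * s = g := ⟨_, rfl⟩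
  obtain ⟨C2, hC2⟩ : ∃ Z : Finset G, Z = univ.filter fun s : G => Q s ∧ s * s = h := ⟨_, rfl⟩
  obtain ⟨C3, hC3⟩ : ∃ Z : Finset G, Z = univ.filter fun s : G => Q s ∧ s * s ≠ g ∧ s * s ≠ h ∧
    s * h ≠ g * s ∧ g * s⁻¹ = s⁻¹ * g := ⟨_, rfl⟩
  obtain ⟨C4, hC4⟩ : ∃ Z : Finset G, Z = univ.filter fun s : G => Q s ∧ s * s ≠ g ∧ s * s ≠ h ∧
    s * h ≠ g * s ∧ g * s⁻¹ ≠ s⁻¹ * g := ⟨_, rfl⟩
  have hcov : (univ : Finset G) ⊆ Z ∪ W ∪ C1 ∪ C2 ∪ C3 ∪ C4 := by
    intro s _
    rw [hC1, hC2, hC3, hC4, hZ, hW]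
    clear hmain hC1 hC2 hC3 hC4 hZ hW hpε hp
    simp only [mem_union, mem_filter, mem_univ, true_and, mem_insert, mem_singleton, Q]
    by_cases q1 : s * h = g * s
    · simp only [q1, true_or]
    by_cases q2 : s = 1
    · simp only [q2, true_or, or_true]
    by_cases q3 : s = g
    · simp only [q3, true_or, or_true]
    by_cases q4 : s = h
    · simp only [q4, true_or, or_true]
    by_cases q5 : s * s = g
    · exact Or.inl (Or.inl (Or.inl (Or.inr ⟨⟨q2, q3, q4⟩, q5⟩)))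
    by_cases q6 : s * s = h
    · exact Or.inl (Or.inl (Or.inr ⟨⟨q2, q3, q4⟩, q6⟩))
    by_cases q7 : g * s⁻¹ = s⁻¹ * g
    · exact Or.inl (Or.inr ⟨⟨q2, q3, q4⟩, q5, q6, q1, q7⟩)
    · exact Or.inr ⟨⟨q2, q3, q4⟩, q5, q6, q1, q7⟩
  have hc := card_le_card hcov
  rw [card_univ] at hc
  have k0 := conj_card hgh
  rw [← hZ] at k0
  have k1 : W.card ≤ 3 := by rw [hW]; exact card_le_three
  have k2 := card_union_le (Z ∪ W ∪ C1 ∪ C2 ∪ C3) C4
  have k3 := card_union_le (Z ∪ W ∪ C1 ∪ C2) C3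
  have k4 := card_union_le (Z ∪ W ∪ C1) C2
  have k5 := card_union_le (Z ∪ W) C1
  have k6 := card_union_le Z W
  have fin : ∀ S : Finset G, Fintype.card G + 1 ≤ 8 * (S.card + 1) →
      Pb p (fun b => F f0 g b = F f0 h b) ≤ C / Real.sqrt (S.card + 1) →
      Pb p (fun b => F f0 g b = F f0 h b) ≤
        C * (Real.sqrt (8 : ℕ)) ^ 1 / Real.sqrt (Fintype.card G + 1) := by
    intro S h1 h2
    refine h2.trans ?_
    have := sqrt_ratio h1 1 hC
    rw [pow_one, pow_one (Real.sqrt ((Fintype.card G : ℝ) + 1))] at this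
    exact this
  have hcase : Fintype.card G + 1 ≤ 8 * (C1.card + 1) ∨ Fintype.card G + 1 ≤ 8 * (C2.card + 1) ∨
      Fintype.card G + 1 ≤ 8 * (C3.card + 1) ∨ Fintype.card G + 1 ≤ 8 * (C4.card + 1) := by
    omega
  rcases hcase with hc | hc | hc | hc
  · refine fin C1 hc (hmain G p hp hpε g h C1 (fun s hs => (mem_filter.1 (hC1 ▸ hs)).2.1)
      (fun _ _ => false) 1 one_ne_zero fun s hs b hb => ?_)
    obtain ⟨q, e⟩ := (mem_filter.1 (hC1 ▸ hs)).2
    have e' : s * s ≠ h := fun h2 => hgh (e.symm.trans h2)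
    have l1 := F0_flip' b e
    have l2 := F0_flip b e'
    obtain ⟨m1, m2⟩ := mem_E1 g h s (x := h) (Or.inr rfl)
    have n1 : s⁻¹ * h ≠ s := fun h3 => e' (inv_mul_eq_iff_eq_mul.1 h3).symm
    have n2 : h * s⁻¹ ≠ s := fun h3 => e' (mul_inv_eq_iff_eq_mul.1 h3).symm
    rw [hb _ (m1 n1), hb _ (m2 n2)] at l2
    simp at l2
    linarith
  · refine fin C2 hc (hmain G p hp hpε g h C2 (fun s hs => (mem_filter.1 (hC2 ▸ hs)).2.1)
      (fun _ _ => false) (-1) (by norm_num) fun s hs b hb => ?_)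
    obtain ⟨q, e⟩ := (mem_filter.1 (hC2 ▸ hs)).2
    have e' : s * s ≠ g := fun h2 => hgh (h2.symm.trans e)
    have l1 := F0_flip' b e
    have l2 := F0_flip b e'
    obtain ⟨m1, m2⟩ := mem_E1 g h s (x := g) (Or.inl rfl)
    have n1 : s⁻¹ * g ≠ s := fun h3 => e' (inv_mul_eq_iff_eq_mul.1 h3).symm
    have n2 : g * s⁻¹ ≠ s := fun h3 => e' (mul_inv_eq_iff_eq_mul.1 h3).symm
    rw [hb _ (m1 n1), hb _ (m2 n2)] at l2
    simp at l2
    linarith
  · refine fin C3 hc (hmain G p hp hpε g h C3 (fun s hs => (mem_filter.1 (hC3 ▸ hs)).2.1)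
      (fun s y => decide (y = s⁻¹ * g)) 2 (by norm_num) fun s hs b hb => ?_)
    obtain ⟨q, e1, e2, e3, e4⟩ := (mem_filter.1 (hC3 ▸ hs)).2
    have l1 := F0_flip b e1
    have l2 := F0_flip b e2
    obtain ⟨m1, m2⟩ := mem_E1 g h s (x := g) (Or.inl rfl)
    obtain ⟨m3, m4⟩ := mem_E1 g h s (x := h) (Or.inr rfl)
    have n1 : s⁻¹ * g ≠ s := fun h3 => e1 (inv_mul_eq_iff_eq_mul.1 h3).symm
    have n2 : g * s⁻¹ ≠ s := fun h3 => e1 (mul_inv_eq_iff_eq_mul.1 h3).symm
    have n3 : s⁻¹ * h ≠ s := fun h3 => e2 (inv_mul_eq_iff_eq_mul.1 h3).symm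
    have n4 : h * s⁻¹ ≠ s := fun h3 => e2 (mul_inv_eq_iff_eq_mul.1 h3).symm
    have n5 : s⁻¹ * h ≠ s⁻¹ * g := fun h3 => hgh (mul_left_cancel h3).symm
    have n6 : h * s⁻¹ ≠ s⁻¹ * g := by
      intro h3
      apply e3
      have h4 : h = s⁻¹ * g * s := eq_mul_of_mul_inv_eq h3
      rw [h4]; group
    rw [hb _ (m1 n1), hb _ (m2 n2)] at l1
    rw [hb _ (m3 n3), hb _ (m4 n4)] at l2
    simp only [e4, n5, n6, decide_true, decide_false, if_true, Bool.false_eq_true, if_false] at l1 l2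
    linarith
  · refine fin C4 hc (hmain G p hp hpε g h C4 (fun s hs => (mem_filter.1 (hC4 ▸ hs)).2.1)
      (fun s y => decide (y = s⁻¹ * g)) 1 (by norm_num) fun s hs b hb => ?_)
    obtain ⟨q, e1, e2, e3, e4⟩ := (mem_filter.1 (hC4 ▸ hs)).2
    have l1 := F0_flip b e1
    have l2 := F0_flip b e2
    obtain ⟨m1, m2⟩ := mem_E1 g h s (x := g) (Or.inl rfl)
    obtain ⟨m3, m4⟩ := mem_E1 g h s (x := h) (Or.inr rfl)
    have n1 : s⁻¹ * g ≠ s := fun h3 => e1 (inv_mul_eq_iff_eq_mul.1 h3).symm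
    have n2 : g * s⁻¹ ≠ s := fun h3 => e1 (mul_inv_eq_iff_eq_mul.1 h3).symm
    have n3 : s⁻¹ * h ≠ s := fun h3 => e2 (inv_mul_eq_iff_eq_mul.1 h3).symm
    have n4 : h * s⁻¹ ≠ s := fun h3 => e2 (mul_inv_eq_iff_eq_mul.1 h3).symm
    have n5 : s⁻¹ * h ≠ s⁻¹ * g := fun h3 => hgh (mul_left_cancel h3).symm
    have n6 : h * s⁻¹ ≠ s⁻¹ * g := by
      intro h3
      apply e3
      have h4 : h = s⁻¹ * g * s := eq_mul_of_mul_inv_eq h3
      rw [h4]; group
    rw [hb _ (m1 n1), hb _ (m2 n2)] at l1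
    rw [hb _ (m3 n3), hb _ (m4 n4)] at l2
    simp only [e4, n5, n6, decide_true, decide_false, if_true, Bool.false_eq_true, if_false] at l1 l2
    linarith

end Pool.Agent.K4H90.RC
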