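import Mathlib

/-!
# Product measures on a cube

Independent bits `b x` with probabilities `p x`.
-/

set_option autoImplicit false
set_option linter.unusedSectionVars false

namespace Pool.Agent.K4H90.RC

open Finset

variable {X : Type} [Fintype X] [DecidableEq X]

/-- The weight of the value `v` of the bit `x`. -/
def wb (p : X → ℝ) (x : X) (v : Bool) : ℝ := if v then p x else 1 - p x

/-- The weight of a point of the cube. -/
def wt (p : X → ℝ) (b : X → Bool) : ℝ := ∏ x, wb p x (b x)

/-- The expectation. -/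
def Ex (p : X → ℝ) (f : (X → Bool) → ℝ) : ℝ := ∑ b, wt p b * f b

/-- Probabilities. -/
def Pr (p : X → ℝ) : Prop := ∀ x, 0 ≤ p x ∧ p x ≤ 1

variable {p : X → ℝ}

theorem wb_nonneg (hp : Pr p) (x : X) (v : Bool) : 0 ≤ wb p x v := by
  unfold wb
  have := hp x
  split_ifs <;> linarith

theorem wt_nonneg (hp : Pr p) (b : X → Bool) : 0 ≤ wt p b :=
  prod_nonneg fun x _ => wb_nonneg hp x _

/-- A product of functions of single bits. -/
theorem Ex_prod (f : X → Bool → ℝ) :
    Ex p (fun b => ∏ x, f x (b x)) = ∏ x, (p x * f x true + (1 - p x) * f x false) := by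
  have h1 : ∀ x, p x * f x true + (1 - p x) * f x false =
      ∑ v ∈ (univ : Finset Bool), wb p x v * f x v := by
    intro x
    rw [Fintype.sum_bool]
    simp [wb]
  simp only [h1]
  rw [prod_univ_sum, Fintype.piFinset_univ]
  unfold Ex wt
  refine sum_congr rfl fun b _ => ?_
  rw [prod_mul_distrib]

theorem Ex_one : Ex p (fun _ => 1) = 1 := by
  have h := Ex_prod (p := p) (fun _ _ => 1)
  simp only [prod_const_one, mul_one, add_sub_cancel] at h
  exact h

theorem Ex_const (c : ℝ) : Ex p (fun _ => c) = c := by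
  have h := Ex_one (p := p)
  unfold Ex at h ⊢
  rw [← sum_mul]
  simp only [mul_one] at h
  rw [h, one_mul]

theorem Ex_add (f g : (X → Bool) → ℝ) : Ex p (fun b => f b + g b) = Ex p f + Ex p g := by
  unfold Ex
  rw [← sum_add_distrib]
  exact sum_congr rfl fun b _ => mul_add _ _ _

theorem Ex_mul_left (c : ℝ) (f : (X → Bool) → ℝ) : Ex p (fun b => c * f b) = c * Ex p f := by
  unfold Ex
  rw [mul_sum]
  exact sum_congr rfl fun b _ => by ring

theorem Ex_sum {ι : Type} (s : Finset ι) (f : ι → (X → Bool) → ℝ) :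
    Ex p (fun b => ∑ i ∈ s, f i b) = ∑ i ∈ s, Ex p (f i) := by
  unfold Ex
  rw [sum_comm]
  exact sum_congr rfl fun b _ => mul_sum _ _ _

theorem Ex_mono (hp : Pr p) {f g : (X → Bool) → ℝ} (h : ∀ b, f b ≤ g b) : Ex p f ≤ Ex p g :=
  sum_le_sum fun b _ => mul_le_mul_of_nonneg_left (h b) (wt_nonneg hp b)

theorem Ex_nonneg (hp : Pr p) {f : (X → Bool) → ℝ} (h : ∀ b, 0 ≤ f b) : 0 ≤ Ex p f :=
  sum_nonneg fun b _ => mul_nonneg (wt_nonneg hp b) (h b)

theorem Ex_congr {f g : (X → Bool) → ℝ} (h : ∀ b, f b = g b) : Ex p f = Ex p g := by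
  have : f = g := funext h
  rw [this]

/-- The bits of `b` are replaced by those of `u` on the set `A`. -/
def mix (A : Finset X) (b u : X → Bool) : X → Bool := fun x => if x ∈ A then u x else b x

theorem mix_mem {A : Finset X} {x : X} (h : x ∈ A) (b u : X → Bool) : mix A b u x = u x := if_pos h

theorem mix_not {A : Finset X} {x : X} (h : x ∉ A) (b u : X → Bool) : mix A b u x = b x := if_neg h

/-- Resampling. -/
theorem resample (A : (X → Bool) → Finset X) (hA : ∀ b u, A (mix (A b) b u) = A b)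
    (f : (X → Bool) → ℝ) :
    Ex p f = Ex p fun b => Ex p fun u => f (mix (A b) b u) := by
  have h1 : Ex p f = ∑ z : (X → Bool) × (X → Bool), wt p z.1 * wt p z.2 * f z.1 := by
    rw [Fintype.sum_prod_type]
    unfold Ex
    refine sum_congr rfl fun b _ => ?_
    have h2 := Ex_one (p := p)
    unfold Ex at h2
    simp only [mul_one] at h2
    show _ = ∑ u, wt p b * wt p u * f b
    rw [← sum_mul, ← mul_sum, h2, mul_one]
  have h3 : (Ex p fun b => Ex p fun u => f (mix (A b) b u)) =
      ∑ z : (X → Bool) × (X → Bool), wt p z.1 * wt p z.2 * f (mix (A z.1) z.1 z.2) := by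
    rw [Fintype.sum_prod_type]
    unfold Ex
    refine sum_congr rfl fun b _ => ?_
    rw [mul_sum]
    exact sum_congr rfl fun u _ => by ring
  rw [h1, h3]
  let e : (X → Bool) × (X → Bool) → (X → Bool) × (X → Bool) := fun z =>
    (mix (A z.1) z.1 z.2, mix (A z.1) z.2 z.1)
  have he : Function.Involutive e := by
    intro z
    obtain ⟨b, u⟩ := z
    have h4 : A (mix (A b) b u) = A b := hA b u
    refine Prod.ext (funext fun x => ?_) (funext fun x => ?_)
    · show mix (A (mix (A b) b u)) (mix (A b) b u) (mix (A b) u b) x = b x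
      rw [h4]
      by_cases hx : x ∈ A b
      · rw [mix_mem hx, mix_mem hx]
      · rw [mix_not hx, mix_not hx]
    · show mix (A (mix (A b) b u)) (mix (A b) u b) (mix (A b) b u) x = u x
      rw [h4]
      by_cases hx : x ∈ A b
      · rw [mix_mem hx, mix_mem hx]
      · rw [mix_not hx, mix_not hx]
  refine (Fintype.sum_equiv he.toPerm _ _ ?_).symm
  rintro ⟨b, u⟩
  show wt p b * wt p u * f (mix (A b) b u) =
    wt p (mix (A b) b u) * wt p (mix (A b) u b) * f (mix (A b) b u)
  congr 1
  unfold wt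
  rw [← prod_mul_distrib, ← prod_mul_distrib]
  refine prod_congr rfl fun x _ => ?_
  by_cases hx : x ∈ A b
  · rw [mix_mem hx, mix_mem hx, mul_comm]
  · rw [mix_not hx, mix_not hx]

/-- The function depends only on the bits in `T`. -/
def Dp {β : Type} (T : Finset X) (f : (X → Bool) → β) : Prop :=
  ∀ b b' : X → Bool, (∀ x ∈ T, b x = b' x) → f b = f b'

theorem Dp.mono {β : Type} {T T' : Finset X} {f : (X → Bool) → β} (h : Dp T f) (hT : T ⊆ T') :
    Dp T' f := fun b b' hb => h b b' fun x hx => hb x (hT hx)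

/-- Functions of disjoint sets of bits are independent. -/
theorem Ex_mul {T T' : Finset X} (hT : Disjoint T T') {f g : (X → Bool) → ℝ} (hf : Dp T f)
    (hg : Dp T' g) : Ex p (fun b => f b * g b) = Ex p f * Ex p g := by
  rw [resample (fun _ => T') (fun _ _ => rfl)]
  have h1 : ∀ b u, f (mix T' b u) * g (mix T' b u) = f b * g u := by
    intro b u
    rw [hf (mix T' b u) b fun x hx => mix_not (disjoint_left.1 hT hx) _ _,
      hg (mix T' b u) u fun x hx => mix_mem hx _ _]
  simp only [h1, Ex_mul_left]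
  unfold Ex
  rw [sum_mul]
  exact sum_congr rfl fun b _ => by ring

/-- Products of functions of pairwise disjoint sets of bits. -/
theorem Ex_prod_indep {ι : Type} [DecidableEq ι] (s : Finset ι) (E : ι → Finset X)
    (hE : ∀ i ∈ s, ∀ j ∈ s, i ≠ j → Disjoint (E i) (E j)) (f : ι → (X → Bool) → ℝ)
    (hf : ∀ i ∈ s, Dp (E i) (f i)) :
    Ex p (fun b => ∏ i ∈ s, f i b) = ∏ i ∈ s, Ex p (f i) := by
  induction s using Finset.induction_on with
  | empty => simp only [prod_empty]; exact Ex_one
  | insert a s ha ih =>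
    simp only [prod_insert ha]
    rw [← ih (fun i hi j hj => hE i (mem_insert_of_mem hi) j (mem_insert_of_mem hj))
      (fun i hi => hf i (mem_insert_of_mem hi))]
    refine Ex_mul (T := E a) (T' := s.biUnion E) ?_ (hf a (mem_insert_self _ _)) ?_
    · rw [disjoint_biUnion_right]
      intro i hi
      refine hE a (mem_insert_self _ _) i (mem_insert_of_mem hi) ?_
      rintro rfl
      exact ha hi
    · intro b b' hb
      refine prod_congr rfl fun i hi => ?_
      exact hf i (mem_insert_of_mem hi) b b' fun x hx => hb x (mem_biUnion.2 ⟨i, hi, hx⟩)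

/-- The indicator of a proposition. -/
noncomputable def ind (Q : Prop) : ℝ := @ite _ Q (Classical.propDecidable _) 1 0

theorem ind_pos {Q : Prop} (h : Q) : ind Q = 1 := if_pos h

theorem ind_neg {Q : Prop} (h : ¬ Q) : ind Q = 0 := if_neg h

theorem ind_nonneg (Q : Prop) : 0 ≤ ind Q := by
  by_cases h : Q
  · rw [ind_pos h]; norm_num
  · rw [ind_neg h]

theorem ind_le_one (Q : Prop) : ind Q ≤ 1 := by
  by_cases h : Q
  · rw [ind_pos h]
  · rw [ind_neg h]; norm_num

theorem ind_mono {Q Q' : Prop} (h : Q → Q') : ind Q ≤ ind Q' := by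
  by_cases h1 : Q
  · rw [ind_pos h1, ind_pos (h h1)]
  · rw [ind_neg h1]; exact ind_nonneg _

theorem ind_and (Q Q' : Prop) : ind (Q ∧ Q') = ind Q * ind Q' := by
  by_cases h1 : Q
  · by_cases h2 : Q'
    · rw [ind_pos h1, ind_pos h2, ind_pos ⟨h1, h2⟩, mul_one]
    · rw [ind_neg h2, ind_neg fun h => h2 h.2, mul_zero]
  · rw [ind_neg h1, ind_neg fun h => h1 h.1, zero_mul]

theorem ind_forall {ι : Type} (s : Finset ι) (Q : ι → Prop) :
    ind (∀ i ∈ s, Q i) = ∏ i ∈ s, ind (Q i) := by
  by_cases h : ∀ i ∈ s, Q i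
  · rw [ind_pos h, prod_congr rfl fun i hi => ind_pos (h i hi), prod_const_one]
  · rw [ind_neg h]
    push Not at h
    obtain ⟨i, hi, h1⟩ := h
    exact (prod_eq_zero hi (ind_neg h1)).symm

/-- The probability of an event. -/
noncomputable def Pb (p : X → ℝ) (Q : (X → Bool) → Prop) : ℝ := Ex p fun b => ind (Q b)

theorem Pb_le_one (hp : Pr p) (Q : (X → Bool) → Prop) : Pb p Q ≤ 1 :=
  calc _ ≤ Ex p (fun _ => (1 : ℝ)) := Ex_mono hp fun b => ind_le_one _
    _ = 1 := Ex_one

theorem Pb_nonneg (hp : Pr p) (Q : (X → Bool) → Prop) : 0 ≤ Pb p Q :=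
  Ex_nonneg hp fun b => ind_nonneg _

theorem Pb_mono (hp : Pr p) {Q Q' : (X → Bool) → Prop} (h : ∀ b, Q b → Q' b) :
    Pb p Q ≤ Pb p Q' :=
  Ex_mono hp fun b => ind_mono (h b)

theorem Pb_or (hp : Pr p) (Q Q' : (X → Bool) → Prop) :
    Pb p (fun b => Q b ∨ Q' b) ≤ Pb p Q + Pb p Q' := by
  unfold Pb
  rw [← Ex_add]
  refine Ex_mono hp fun b => ?_
  by_cases h1 : Q b
  · rw [ind_pos (Or.inl h1), ind_pos h1]
    linarith [ind_nonneg (Q' b)]
  · by_cases h2 : Q' b
    · rw [ind_pos (Or.inr h2), ind_pos h2]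
      linarith [ind_nonneg (Q b)]
    · rw [ind_neg fun h => h.elim h1 h2]
      linarith [ind_nonneg (Q b), ind_nonneg (Q' b)]

theorem Pb_exists (hp : Pr p) {ι : Type} (s : Finset ι) (Q : ι → (X → Bool) → Prop) :
    Pb p (fun b => ∃ i ∈ s, Q i b) ≤ ∑ i ∈ s, Pb p (Q i) := by
  unfold Pb
  rw [← Ex_sum]
  refine Ex_mono hp fun b => ?_
  by_cases h : ∃ i ∈ s, Q i b
  · rw [ind_pos h]
    obtain ⟨i, hi, h1⟩ := h
    refine le_trans (ind_pos h1).ge ?_
    exact single_le_sum (f := fun i => ind (Q i b)) (fun j _ => ind_nonneg _) hi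
  · rw [ind_neg h]
    exact sum_nonneg fun j _ => ind_nonneg _

/-- Markov's inequality. -/
theorem markov (hp : Pr p) {f : (X → Bool) → ℝ} (hf : ∀ b, 0 ≤ f b) {t : ℝ} (ht : 0 < t) :
    Pb p (fun b => t ≤ f b) ≤ Ex p f / t := by
  rw [le_div_iff₀ ht, mul_comm]
  unfold Pb
  rw [← Ex_mul_left]
  refine Ex_mono hp fun b => ?_
  by_cases h : t ≤ f b
  · rw [ind_pos h, mul_one]
    exact h
  · rw [ind_neg h, mul_zero]
    exact hf b

/-- The probability that a single bit has a given value. -/
theorem Ex_single (y : X) (F : Bool → ℝ) :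
    Ex p (fun b => F (b y)) = p y * F true + (1 - p y) * F false := by
  have h := Ex_prod (p := p) (fun x v => if x = y then F v else 1)
  have h1 : ∀ b : X → Bool, (∏ x, if x = y then F (b x) else 1) = F (b y) := by
    intro b
    rw [prod_ite_eq' univ y fun x => F (b x), if_pos (mem_univ _)]
  simp only [h1] at h
  rw [h]
  have h2 : ∀ x, (p x * (if x = y then F true else 1) + (1 - p x) * (if x = y then F false else 1)) =
      if x = y then (p x * F true + (1 - p x) * F false) else 1 := by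
    intro x
    split_ifs
    · rfl
    · ring
  simp only [h2]
  rw [prod_ite_eq' univ y fun x => p x * F true + (1 - p x) * F false, if_pos (mem_univ _)]

/-- The probability of a pattern on a set of bits. -/
theorem Pb_pattern {ε : ℝ} (hε : 0 ≤ ε) (E : Finset X) (hE : ∀ x ∈ E, ε ≤ p x ∧ p x ≤ 1 - ε)
    (π : X → Bool) : ε ^ E.card ≤ Pb p (fun b => ∀ x ∈ E, b x = π x) := by
  unfold Pb
  rw [Ex_congr fun b => ind_forall E fun x => b x = π x]
  rw [Ex_prod_indep E (fun x => {x}) (fun i _ j _ h => disjoint_singleton.2 h)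
    (fun x b => ind (b x = π x))]
  · rw [← prod_const]
    refine prod_le_prod (fun _ _ => hε) fun x hx => ?_
    rw [Ex_single x fun v => ind (v = π x)]
    obtain ⟨h2, h3⟩ := hE x hx
    cases h : π x
    · rw [ind_neg (by decide), ind_pos rfl]
      linarith
    · rw [ind_pos rfl, ind_neg (by decide)]
      linarith
  · intro x _ b b' hb
    show ind _ = ind _
    rw [hb x (mem_singleton_self x)]

end Pool.Agent.K4H90.RC
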