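import Pool.Agent.K4H90.RC.Step

/-!
# Selection of elements with disjoint environments
-/

set_option autoImplicit false
set_option linter.unusedSectionVars false

namespace Pool.Agent.K4H90.RC

open Finset

variable {X : Type} [Fintype X] [DecidableEq X]

/-- A maximal set without conflicts. -/
theorem indep (N : X → Finset X) (hs : ∀ s s', s' ∈ N s → s ∈ N s') (L : ℕ)
    (hL : ∀ s, (N s).card ≤ L) (k : ℕ) : ∀ S : Finset X, S.card ≤ k →
      ∃ P ⊆ S, (∀ s ∈ P, ∀ s' ∈ P, s ≠ s' → s' ∉ N s) ∧ S.card ≤ (L + 1) * P.card := by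
  induction k with
  | zero =>
    intro S hS
    have : S = ∅ := card_eq_zero.1 (Nat.le_zero.1 hS)
    subst this
    exact ⟨∅, Subset.refl _, by simp, by simp⟩
  | succ k ih =>
    intro S hS
    rcases S.eq_empty_or_nonempty with rfl | ⟨s, hsS⟩
    · exact ⟨∅, Subset.refl _, by simp, by simp⟩
    · obtain ⟨P, hP, h1, h2⟩ := ih (S \ insert s (N s)) (by
        have : (S \ insert s (N s)).card < S.card :=
          card_lt_card ⟨sdiff_subset, fun h => (mem_sdiff.1 (h hsS)).2 (mem_insert_self _ _)⟩
        omega)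
      have hsP : s ∉ P := fun h => (mem_sdiff.1 (hP h)).2 (mem_insert_self _ _)
      refine ⟨insert s P, insert_subset hsS (hP.trans sdiff_subset), ?_, ?_⟩
      · intro a ha a' ha' haa h3
        rcases mem_insert.1 ha with h5 | h5
        · rcases mem_insert.1 ha' with h6 | h6
          · exact haa (h5.trans h6.symm)
          · subst h5
            exact (mem_sdiff.1 (hP h6)).2 (mem_insert_of_mem h3)
        · rcases mem_insert.1 ha' with h6 | h6
          · subst h6
            exact (mem_sdiff.1 (hP h5)).2 (mem_insert_of_mem (hs _ _ h3))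
          · exact h1 a h5 a' h6 haa h3
      · rw [card_insert_of_notMem hsP]
        have h3 : S.card ≤ (S \ insert s (N s)).card + (insert s (N s)).card := by
          have := card_sdiff_add_card S (insert s (N s))
          have h4 := card_le_card (subset_union_left (s₁ := S) (s₂ := insert s (N s)))
          omega
        have h4 : (insert s (N s)).card ≤ L + 1 :=
          (card_insert_le _ _).trans (Nat.succ_le_succ (hL s))
        nlinarith

/-- Elements with disjoint environments. -/
theorem select {ι : Type} [Fintype ι] (φ : ι → X ≃ X) (E : X → Finset X)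
    (hE : ∀ s, ∀ y ∈ E s, ∃ i, φ i s = y) (S : Finset X) (hS : ∀ s ∈ S, s ∉ E s) :
    ∃ P ⊆ S, (∀ s ∈ P, ∀ s' ∈ P, s ∉ E s') ∧
      (∀ s ∈ P, ∀ s' ∈ P, s ≠ s' → Disjoint (E s) (E s')) ∧
      S.card ≤ (2 * Fintype.card ι + Fintype.card ι * Fintype.card ι + 1) * P.card := by
  classical
  let N : X → Finset X := fun s => univ.filter fun s' =>
    (s ∈ E s' ∨ s' ∈ E s ∨ ¬ Disjoint (E s) (E s'))
  have hN : ∀ s, (N s).card ≤ 2 * Fintype.card ι + Fintype.card ι * Fintype.card ι := by
    intro s
    have h1 : N s ⊆ (univ.image fun i => (φ i).symm s) ∪ (univ.image fun i => φ i s) ∪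
        (univ.image fun x : ι × ι => (φ x.2).symm (φ x.1 s)) := by
      intro s' hs'
      rcases (mem_filter.1 hs').2 with h | h | h
      · obtain ⟨i, hi⟩ := hE _ _ h
        refine mem_union_left _ (mem_union_left _ (mem_image.2 ⟨i, mem_univ _, ?_⟩))
        rw [← hi, Equiv.symm_apply_apply]
      · obtain ⟨i, hi⟩ := hE _ _ h
        exact mem_union_left _ (mem_union_right _ (mem_image.2 ⟨i, mem_univ _, hi⟩))
      · rw [not_disjoint_iff] at h
        obtain ⟨y, h2, h3⟩ := h
        obtain ⟨i, hi⟩ := hE _ _ h2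
        obtain ⟨j, hj⟩ := hE _ _ h3
        refine mem_union_right _ (mem_image.2 ⟨(i, j), mem_univ _, ?_⟩)
        show (φ j).symm (φ i s) = s'
        rw [hi, ← hj, Equiv.symm_apply_apply]
    refine (card_le_card h1).trans ((card_union_le _ _).trans ?_)
    have h2 := card_union_le (univ.image fun i => (φ i).symm s) (univ.image fun i => φ i s)
    have h3 : (univ.image fun i => (φ i).symm s).card ≤ Fintype.card ι := card_image_le
    have h4 : (univ.image fun i => φ i s).card ≤ Fintype.card ι := card_image_le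
    have h5 : (univ.image fun x : ι × ι => (φ x.2).symm (φ x.1 s)).card ≤
        Fintype.card ι * Fintype.card ι := by
      refine card_image_le.trans (le_of_eq ?_)
      rw [card_univ, Fintype.card_prod]
    omega
  obtain ⟨P, hP, h1, h2⟩ := indep N (fun s s' h => by
      rcases (mem_filter.1 h).2 with h3 | h3 | h3
      · exact mem_filter.2 ⟨mem_univ _, Or.inr (Or.inl h3)⟩
      · exact mem_filter.2 ⟨mem_univ _, Or.inl h3⟩
      · exact mem_filter.2 ⟨mem_univ _, Or.inr (Or.inr fun h4 => h3 h4.symm)⟩) _ hN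
    S.card S le_rfl
  refine ⟨P, hP, ?_, ?_, h2⟩
  · intro s hs s' hs' h
    by_cases hss : s = s'
    · subst hss
      exact hS s (hP hs) h
    · exact h1 s hs s' hs' hss (mem_filter.2 ⟨mem_univ _, Or.inl h⟩)
  · intro s hs s' hs' hss
    by_contra h
    exact h1 s hs s' hs' hss (mem_filter.2 ⟨mem_univ _, Or.inr (Or.inr h)⟩)

end Pool.Agent.K4H90.RC
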