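import Pool.Agent.K4H90.RC.LO

/-!
# A Littlewood-Offord inequality in triangular form
-/

set_option autoImplicit false
set_option linter.unusedSectionVars false

namespace Pool.Agent.K4H90.RC

open Finset

section

variable {X : Type} [Fintype X] [DecidableEq X] {p : X → ℝ}

theorem mix_empty (b u : X → Bool) : mix ∅ b u = b := funext fun x => mix_not (notMem_empty x) _ _

theorem mix_insert {B : Finset X} {s : X} (b u : X → Bool) :
    mix (insert s B) b u = Function.update (mix B b u) s (u s) := by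
  funext x
  by_cases h : x = s
  · subst h
    rw [mix_mem (mem_insert_self _ _), Function.update_self]
  · rw [Function.update_of_ne h]
    by_cases h1 : x ∈ B
    · rw [mix_mem h1, mix_mem (mem_insert_of_mem h1)]
    · rw [mix_not h1, mix_not]
      intro h2
      rcases mem_insert.1 h2 with h3 | h3
      · exact h h3
      · exact h1 h3

theorem mix_update {B : Finset X} {s : X} (hs : s ∉ B) (b u : X → Bool) (v : Bool) :
    mix B (Function.update b s v) u = Function.update (mix B b u) s v := by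
  funext x
  by_cases h : x = s
  · subst h
    rw [mix_not hs, Function.update_self, Function.update_self]
  · rw [Function.update_of_ne h]
    by_cases h1 : x ∈ B
    · rw [mix_mem h1, mix_mem h1]
    · rw [mix_not h1, mix_not h1, Function.update_of_ne h]

theorem cnt_insert {B : Finset X} {s : X} (hs : s ∉ B) (u : X → Bool) :
    cnt (insert s B) u = cnt B u + if u s = true then 1 else 0 := by
  unfold cnt
  rw [filter_insert]
  split_ifs with h
  · rw [card_insert_of_notMem fun h1 => hs (mem_filter.1 h1).1]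
  · rw [add_zero]

variable {A : (X → Bool) → Finset X}

/-- Changing the bits in `A b` has no effect on `H`. -/
def Inv {β : Type} (A : (X → Bool) → Finset X) (H : (X → Bool) → β) : Prop :=
  ∀ b, ∀ s ∈ A b, ∀ v, H (Function.update b s v) = H b

theorem mix_inv (hA : Inv A A) {β : Type} {H : (X → Bool) → β} (hH : Inv A H) (B : Finset X)
    (b u : X → Bool) (hB : B ⊆ A b) : A (mix B b u) = A b ∧ H (mix B b u) = H b := by
  induction B using Finset.induction_on with
  | empty => rw [mix_empty]; exact ⟨rfl, rfl⟩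
  | insert s B hs ih =>
    obtain ⟨h1, h2⟩ := ih ((subset_insert _ _).trans hB)
    have h3 : s ∈ A (mix B b u) := by rw [h1]; exact hB (mem_insert_self _ _)
    rw [mix_insert, hA _ s h3, hH _ s h3]
    exact ⟨h1, h2⟩

theorem mix_D (hA : Inv A A) {D : (X → Bool) → ℤ} {a : ℤ}
    (hD : ∀ b, ∀ s ∈ A b, D (Function.update b s true) = D (Function.update b s false) + a)
    (B : Finset X) (u : X → Bool) : ∀ b : X → Bool, B ⊆ A b →
      D (mix B b u) = D (mix B b fun _ => false) + a * (cnt B u : ℤ) := by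
  induction B using Finset.induction_on with
  | empty =>
    intro b _
    rw [mix_empty, mix_empty]
    simp [cnt]
  | insert s B hs ih =>
    intro b hB
    have h0 : s ∈ A b := hB (mem_insert_self _ _)
    have h1 := ih (Function.update b s false) (by
      rw [hA b s h0]
      exact (subset_insert _ _).trans hB)
    rw [mix_update hs, mix_update hs] at h1
    have h2 : mix (insert s B) b (fun _ => false) =
        Function.update (mix B b fun _ => false) s false := mix_insert _ _
    rw [h2, mix_insert, cnt_insert hs]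
    have h3 : s ∈ A (mix B b u) := by
      rw [(mix_inv hA hA B b u ((subset_insert _ _).trans hB)).1]
      exact h0
    cases hu : u s with
    | true =>
      rw [hD _ s h3, h1]
      simp only [if_true]
      push_cast
      ring
    | false =>
      rw [h1]
      simp

/-- One step of the argument. -/
theorem step (hp : Pr p) {ε : ℝ} (hε : 0 < ε) (hε2 : 2 * ε ≤ 1) (hA : Inv A A)
    (hpA : ∀ b, ∀ x ∈ A b, ε ≤ p x ∧ p x ≤ 1 - ε) {H : (X → Bool) → ℝ} (hH0 : ∀ b, 0 ≤ H b)
    (hH : Inv A H) {D : (X → Bool) → ℤ} {a : ℤ} (ha : a ≠ 0)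
    (hD : ∀ b, ∀ s ∈ A b, D (Function.update b s true) = D (Function.update b s false) + a) :
    Ex p (fun b => H b * ind (D b = 0)) ≤ Ex p (fun b => H b * gb ε (A b).card) := by
  rw [resample A fun b u => (mix_inv hA hA (A b) b u (Subset.refl _)).1]
  refine Ex_mono hp fun b => ?_
  have h1 : ∀ u, H (mix (A b) b u) * ind (D (mix (A b) b u) = 0) =
      H b * ind (D (mix (A b) b fun _ => false) + a * (cnt (A b) u : ℤ) = 0) := by
    intro u
    rw [(mix_inv hA hH (A b) b u (Subset.refl _)).2, mix_D hA hD (A b) u b (Subset.refl _)]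
  rw [Ex_congr h1, Ex_mul_left]
  refine mul_le_mul_of_nonneg_left ?_ (hH0 b)
  by_cases h : ∃ k : ℕ, D (mix (A b) b fun _ => false) + a * (k : ℤ) = 0
  · obtain ⟨k, hk⟩ := h
    refine le_trans (Ex_mono hp fun u => ind_mono fun h2 => ?_) (cnt_le hε (A b) (hpA b) k hε2)
    have h3 : a * (cnt (A b) u : ℤ) = a * (k : ℤ) := by linarith
    exact_mod_cast mul_left_cancel₀ ha h3
  · have h2 : ∀ u, ind (D (mix (A b) b fun _ => false) + a * (cnt (A b) u : ℤ) = 0) = 0 :=
      fun u => ind_neg fun h3 => h ⟨_, h3⟩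
    rw [Ex_congr h2, Ex_const]
    unfold gb
    positivity

/-! ### Patterns -/

/-- The elements of `P` with the right pattern on the environment. -/
def At (P : Finset X) (E : X → Finset X) (π : X → X → Bool) (b : X → Bool) : Finset X :=
  P.filter fun s => ∀ y ∈ E s, b y = π s y

theorem At_inv {P : Finset X} {E : X → Finset X} (hE : ∀ s ∈ P, ∀ s' ∈ P, s ∉ E s')
    (π : X → X → Bool) {b : X → Bool} {s : X} (hs : s ∈ P) (v : Bool) :
    At P E π (Function.update b s v) = At P E π b := by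
  unfold At
  refine filter_congr fun s' hs' => ?_
  refine forall₂_congr fun y hy => ?_
  rw [Function.update_of_ne]
  rintro rfl
  exact hE _ hs s' hs' hy

theorem At_few {ε : ℝ} (hp : Pr p) (hε : 0 ≤ ε) (hε1 : ε ≤ 1) {P : Finset X} {E : X → Finset X}
    (hd : ∀ s ∈ P, ∀ s' ∈ P, s ≠ s' → Disjoint (E s) (E s')) {K : ℕ}
    (hK : ∀ s ∈ P, (E s).card ≤ K) (hpE : ∀ s ∈ P, ∀ x ∈ E s, ε ≤ p x ∧ p x ≤ 1 - ε)
    (π : X → X → Bool) (m : ℕ) :
    Pb p (fun b => (At P E π b).card < m) ≤ 2 ^ m * (1 - ε ^ K / 2) ^ P.card := by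
  have h1 : ∀ b : X → Bool, ∏ s ∈ P, (1 - ind (∀ y ∈ E s, b y = π s y) / 2) =
      (1 / 2) ^ (At P E π b).card := by
    intro b
    unfold At
    rw [← prod_const, prod_filter]
    refine prod_congr rfl fun s _ => ?_
    by_cases h : ∀ y ∈ E s, b y = π s y
    · rw [ind_pos h, if_pos h]
      norm_num
    · rw [ind_neg h, if_neg h]
      norm_num
  have h2 : Pb p (fun b => (At P E π b).card < m) ≤
      Ex p fun b => 2 ^ m * ∏ s ∈ P, (1 - ind (∀ y ∈ E s, b y = π s y) / 2) := by
    refine Ex_mono hp fun b => ?_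
    rw [h1 b]
    by_cases h : (At P E π b).card < m
    · rw [ind_pos h, one_div, inv_pow, ← div_eq_mul_inv, one_le_div (by positivity)]
      exact pow_le_pow_right₀ (by norm_num) h.le
    · rw [ind_neg h]
      positivity
  refine h2.trans ?_
  rw [Ex_mul_left]
  refine mul_le_mul_of_nonneg_left ?_ (by positivity)
  rw [Ex_prod_indep P E hd (fun s b => 1 - ind (∀ y ∈ E s, b y = π s y) / 2)]
  · rw [← prod_const]
    refine prod_le_prod (fun s _ => Ex_nonneg hp fun b => ?_) fun s hs => ?_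
    · linarith [ind_le_one (∀ y ∈ E s, b y = π s y)]
    · have h3 : Ex p (fun b => 1 - ind (∀ y ∈ E s, b y = π s y) / 2) =
          1 + (-(1 / 2)) * Pb p (fun b => ∀ y ∈ E s, b y = π s y) := by
        unfold Pb
        rw [← Ex_mul_left, ← Ex_one (p := p), ← Ex_add]
        exact Ex_congr fun b => by rw [Ex_one]; ring
      rw [h3]
      have h4 := Pb_pattern hε (E s) (hpE s hs) (π s)
      have h5 : ε ^ K ≤ ε ^ (E s).card := pow_le_pow_of_le_one hε hε1 (hK s hs)
      linarith
  · intro s _ b b' hb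
    show 1 - ind _ / 2 = 1 - ind _ / 2
    have : (∀ y ∈ E s, b y = π s y) ↔ (∀ y ∈ E s, b' y = π s y) :=
      forall₂_congr fun y hy => by rw [hb y hy]
    rw [this]

/-- The triangular Littlewood-Offord argument. -/
theorem tri {ε : ℝ} (hp : Pr p) (hε : 0 < ε) (hε2 : 2 * ε ≤ 1) {P : Finset X} {E : X → Finset X}
    (hE : ∀ s ∈ P, ∀ s' ∈ P, s ∉ E s') (hpP : ∀ s ∈ P, ε ≤ p s ∧ p s ≤ 1 - ε)
    (π : ℕ → X → X → Bool) (D : ℕ → (X → Bool) → ℤ) (a : ℕ → ℤ) (J : ℕ)
    (ha : ∀ j < J, a j ≠ 0)
    (h1 : ∀ j < J, ∀ s ∈ P, ∀ b : X → Bool, (∀ y ∈ E s, b y = π j s y) →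
      D j (Function.update b s true) = D j (Function.update b s false) + a j)
    (h2 : ∀ j < J, ∀ s ∈ P, ∀ b : X → Bool, (∀ y ∈ E s, b y = π j s y) → ∀ j', j < j' → j' < J →
      D j' (Function.update b s true) = D j' (Function.update b s false)) :
    Pb p (fun b => ∀ j < J, D j b = 0) ≤
      Ex p fun b => ∏ j ∈ range J, gb ε (At P E (π j) b).card := by
  have key : ∀ i ≤ J, Pb p (fun b => ∀ j < J, D j b = 0) ≤
      Ex p fun b => (∏ j ∈ range i, gb ε (At P E (π j) b).card) *
        ind (∀ j, i ≤ j → j < J → D j b = 0) := by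
    intro i hi
    induction i with
    | zero =>
      refine le_of_eq (Ex_congr fun b => ?_)
      rw [range_zero, prod_empty, one_mul]
      simp
    | succ i ih =>
      refine (ih (by omega)).trans ?_
      have hi' : i < J := hi
      have h3 := step (p := p) (A := At P E (π i)) hp hε hε2
        (fun b s hs v => At_inv hE _ (mem_filter.1 hs).1 v)
        (fun b x hx => hpP x (mem_filter.1 hx).1)
        (H := fun b => (∏ j ∈ range i, gb ε (At P E (π j) b).card) *
          ind (∀ j, i + 1 ≤ j → j < J → D j b = 0))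
        (fun b => mul_nonneg (prod_nonneg fun j _ => by unfold gb; positivity) (ind_nonneg _))
        (by
          intro b s hs v
          have hsP := (mem_filter.1 hs).1
          have hsE := (mem_filter.1 hs).2
          dsimp only
          congr 1
          · exact prod_congr rfl fun j _ => by rw [At_inv hE _ hsP]
          · congr 1
            refine propext (forall_congr' fun j => forall₂_congr fun hj hj' => ?_)
            have h4 := h2 i hi' s hsP b hsE j hj hj'
            have h5 : D j (Function.update b s v) = D j b := by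
              have h6 : D j (Function.update b s (b s)) = D j b := by
                rw [Function.update_eq_self]
              rw [← h6]
              cases v <;> cases b s
              · rfl
              · exact h4.symm
              · exact h4
              · rfl
            rw [h5])
        (D := D i) (ha i hi') (fun b s hs => h1 i hi' s (mem_filter.1 hs).1 b (mem_filter.1 hs).2)
      refine le_trans (le_of_eq (Ex_congr fun b => ?_)) (h3.trans (le_of_eq (Ex_congr fun b => ?_)))
      · rw [mul_assoc, ← ind_and]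
        congr 2
        refine propext ⟨fun h => ⟨fun j hj hj' => h j (by omega) hj', h i le_rfl hi'⟩,
          fun h j hj hj' => ?_⟩
        rcases Nat.lt_or_ge i j with h4 | h4
        · exact h.1 j h4 hj'
        · have : j = i := by omega
          subst this
          exact h.2
      · rw [prod_range_succ]
        ring
  refine (key J le_rfl).trans (le_of_eq (Ex_congr fun b => ?_))
  rw [ind_pos, mul_one]
  intro j hj hj'
  omega

end

theorem gb_anti {ε : ℝ} (hε : 0 < ε) {m n : ℕ} (h : m ≤ n) : gb ε n ≤ gb ε m := by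
  unfold gb
  have h1 : (m : ℝ) ≤ n := by exact_mod_cast h
  have h2 : 0 < Real.sqrt (2 * ε * (m + 1)) := Real.sqrt_pos.2 (by positivity)
  exact one_div_le_one_div_of_le h2 (Real.sqrt_le_sqrt (by nlinarith))

theorem gb_nonneg (ε : ℝ) (m : ℕ) : 0 ≤ gb ε m := by
  unfold gb
  positivity

/-- The numerical form. -/
theorem tri_num (ε : ℝ) (hε : 0 < ε) (hε2 : 2 * ε ≤ 1) (K J : ℕ) : ∃ C : ℝ, 0 < C ∧
    ∀ (X : Type) [Fintype X] [DecidableEq X] (p : X → ℝ) (_ : Pr p) (P : Finset X)
      (E : X → Finset X) (_ : ∀ s ∈ P, ∀ s' ∈ P, s ∉ E s')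
      (_ : ∀ s ∈ P, ∀ s' ∈ P, s ≠ s' → Disjoint (E s) (E s')) (_ : ∀ s ∈ P, (E s).card ≤ K)
      (_ : ∀ s ∈ P, ε ≤ p s ∧ p s ≤ 1 - ε)
      (_ : ∀ s ∈ P, ∀ x ∈ E s, ε ≤ p x ∧ p x ≤ 1 - ε)
      (π : ℕ → X → X → Bool) (D : ℕ → (X → Bool) → ℤ) (a : ℕ → ℤ) (_ : ∀ j < J, a j ≠ 0)
      (_ : ∀ j < J, ∀ s ∈ P, ∀ b : X → Bool, (∀ y ∈ E s, b y = π j s y) →
        D j (Function.update b s true) = D j (Function.update b s false) + a j)
      (_ : ∀ j < J, ∀ s ∈ P, ∀ b : X → Bool, (∀ y ∈ E s, b y = π j s y) →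
        ∀ j', j < j' → j' < J →
        D j' (Function.update b s true) = D j' (Function.update b s false)),
      Pb p (fun b => ∀ j < J, D j b = 0) ≤ C / (Real.sqrt (P.card + 1)) ^ J := by
  set r : ℝ := ε ^ K with hr
  have hr0 : 0 < r := by positivity
  have hε1 : ε ≤ 1 := by linarith
  have hr1 : r ≤ 1 := pow_le_one₀ hε.le hε1
  set c : ℝ := r / 4 with hc
  have hc0 : 0 < c := by positivity
  have hc1 : c ≤ 1 := by linarith
  set ρ : ℝ := (2 : ℝ) ^ c * (1 - r / 2) with hρ
  have hρ0 : 0 ≤ ρ := mul_nonneg (by positivity) (by linarith)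
  have hρ1 : ρ < 1 := by
    have h1 : (2 : ℝ) ^ c ≤ 1 + c := by
      have := rpow_one_add_le_one_add_mul_self (s := 1) (by norm_num) hc0.le hc1
      norm_num at this
      linarith
    calc ρ ≤ (1 + c) * (1 - r / 2) := mul_le_mul_of_nonneg_right h1 (by linarith)
      _ < 1 := by rw [hc]; nlinarith
  obtain ⟨B, hB⟩ : ∃ B : ℝ, ∀ M : ℕ, ρ ^ M * (M + 1) ^ J ≤ B := by
    have h1 : Filter.Tendsto (fun M : ℕ => (M : ℝ) ^ J * ρ ^ M) Filter.atTop (nhds 0) :=
      tendsto_pow_const_mul_const_pow_of_lt_one J hρ0 hρ1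
    obtain ⟨B, hB⟩ := h1.bddAbove_range
    refine ⟨1 + 2 ^ J * B, fun M => ?_⟩
    have hB0 : (0 : ℝ) ^ J * ρ ^ 0 ≤ B := by
      have := hB ⟨0, rfl⟩
      simpa using this
    have hB1 : 0 ≤ B := le_trans (by positivity) hB0
    rcases Nat.eq_zero_or_pos M with rfl | hM
    · simp only [pow_zero, Nat.cast_zero, zero_add, one_pow, mul_one]
      have : 0 ≤ 2 ^ J * B := by positivity
      linarith
    · have h2 : ((M : ℝ) + 1) ^ J ≤ 2 ^ J * (M : ℝ) ^ J := by
        rw [← mul_pow]
        refine pow_le_pow_left₀ (by positivity) ?_ _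
        have : (1 : ℝ) ≤ M := by exact_mod_cast hM
        linarith
      have h3 : (M : ℝ) ^ J * ρ ^ M ≤ B := hB ⟨M, rfl⟩
      calc ρ ^ M * ((M : ℝ) + 1) ^ J ≤ ρ ^ M * (2 ^ J * (M : ℝ) ^ J) :=
            mul_le_mul_of_nonneg_left h2 (by positivity)
        _ = 2 ^ J * ((M : ℝ) ^ J * ρ ^ M) := by ring
        _ ≤ 2 ^ J * B := mul_le_mul_of_nonneg_left h3 (by positivity)
        _ ≤ _ := by linarith
  have hB0 : 0 ≤ B := le_trans (by positivity) (hB 0)
  refine ⟨(gb ε 0) ^ J * (J * (2 * B)) + (1 / Real.sqrt (2 * ε * c)) ^ J, ?_, ?_⟩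
  · have : 0 < Real.sqrt (2 * ε * c) := Real.sqrt_pos.2 (by positivity)
    have h2 : 0 ≤ (gb ε 0) ^ J := pow_nonneg (gb_nonneg _ _) _
    positivity
  intro X _ _ p hp P E hE hd hK hpP hpE π D a ha h1 h2
  refine (tri hp hε hε2 hE hpP π D a J ha h1 h2).trans ?_
  set M := P.card with hM
  set m : ℕ := ⌊c * M⌋₊ + 1 with hm
  have hm1 : c * M ≤ m := by
    rw [hm]
    push_cast
    exact (Nat.lt_floor_add_one _).le
  have hm2 : (2 : ℝ) ^ m ≤ 2 * ((2 : ℝ) ^ c) ^ M := by
    rw [hm, pow_succ, mul_comm]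
    refine mul_le_mul_of_nonneg_left ?_ (by norm_num)
    rw [← Real.rpow_natCast, ← Real.rpow_natCast, ← Real.rpow_mul (by norm_num)]
    exact Real.rpow_le_rpow_of_exponent_le (by norm_num) (Nat.floor_le (by positivity))
  have hsq : (0 : ℝ) < Real.sqrt (M + 1) := Real.sqrt_pos.2 (by positivity)
  have hsq1 : (Real.sqrt (M + 1)) ^ J ≤ ((M : ℝ) + 1) ^ J := by
    refine pow_le_pow_left₀ hsq.le ?_ _
    rw [Real.sqrt_le_left (by positivity)]
    have : (0 : ℝ) ≤ M := by positivity
    nlinarith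
  have h3 : ∀ b : X → Bool, ∏ j ∈ range J, gb ε (At P E (π j) b).card ≤
      (gb ε 0) ^ J * (∑ j ∈ range J, ind ((At P E (π j) b).card < m)) + (gb ε m) ^ J := by
    intro b
    by_cases h : ∀ j ∈ range J, m ≤ (At P E (π j) b).card
    · have h4 : ∏ j ∈ range J, gb ε (At P E (π j) b).card ≤ (gb ε m) ^ J := by
        calc _ ≤ ∏ _j ∈ range J, gb ε m :=
              prod_le_prod (fun _ _ => gb_nonneg _ _) fun j hj => gb_anti hε (h j hj)
          _ = (gb ε m) ^ J := by rw [prod_const, card_range]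
      have h5 : 0 ≤ (gb ε 0) ^ J * (∑ j ∈ range J, ind ((At P E (π j) b).card < m)) :=
        mul_nonneg (pow_nonneg (gb_nonneg _ _) _) (sum_nonneg fun _ _ => ind_nonneg _)
      linarith
    · push Not at h
      obtain ⟨j, hj, h4⟩ := h
      have h5 : (1 : ℝ) ≤ ∑ j ∈ range J, ind ((At P E (π j) b).card < m) := by
        rw [← ind_pos h4]
        exact single_le_sum (f := fun j => ind ((At P E (π j) b).card < m))
          (fun _ _ => ind_nonneg _) hj
      have h6 : ∏ j ∈ range J, gb ε (At P E (π j) b).card ≤ (gb ε 0) ^ J := by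
        calc _ ≤ ∏ _j ∈ range J, gb ε 0 :=
              prod_le_prod (fun _ _ => gb_nonneg _ _) fun j hj => gb_anti hε (Nat.zero_le _)
          _ = (gb ε 0) ^ J := by rw [prod_const, card_range]
      have h7 : (gb ε 0) ^ J ≤ (gb ε 0) ^ J *
          (∑ j ∈ range J, ind ((At P E (π j) b).card < m)) :=
        le_mul_of_one_le_right (pow_nonneg (gb_nonneg _ _) _) h5
      have h8 : 0 ≤ (gb ε m) ^ J := pow_nonneg (gb_nonneg _ _) _
      linarith
  refine (Ex_mono hp h3).trans ?_
  rw [Ex_add, Ex_const, Ex_mul_left, Ex_sum]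
  have h4 : ∑ j ∈ range J, Ex p (fun b => ind ((At P E (π j) b).card < m)) ≤
      J * (2 * (B / (Real.sqrt (M + 1)) ^ J)) := by
    have h5 : ∀ j ∈ range J, Ex p (fun b => ind ((At P E (π j) b).card < m)) ≤
        2 * (B / (Real.sqrt (M + 1)) ^ J) := by
      intro j _
      refine (At_few hp hε.le hε1 hd hK hpE (π j) m).trans ?_
      have h6 : 0 ≤ 1 - r / 2 := by linarith
      calc (2 : ℝ) ^ m * (1 - r / 2) ^ M ≤ 2 * ((2 : ℝ) ^ c) ^ M * (1 - r / 2) ^ M :=
            mul_le_mul_of_nonneg_right hm2 (by positivity)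
        _ = 2 * ρ ^ M := by rw [hρ, mul_pow]; ring
        _ ≤ 2 * (B / (Real.sqrt (M + 1)) ^ J) := by
            refine mul_le_mul_of_nonneg_left ?_ (by norm_num)
            rw [le_div_iff₀ (by positivity)]
            exact (mul_le_mul_of_nonneg_left hsq1 (by positivity)).trans (hB M)
    refine (sum_le_sum h5).trans (le_of_eq ?_)
    rw [sum_const, card_range, nsmul_eq_mul]
  have h5 : gb ε m ≤ (1 / Real.sqrt (2 * ε * c)) / Real.sqrt (M + 1) := by
    unfold gb
    rw [div_div, ← Real.sqrt_mul (by positivity)]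
    refine one_div_le_one_div_of_le (Real.sqrt_pos.2 (by positivity)) (Real.sqrt_le_sqrt ?_)
    have h6 : c * ((M : ℝ) + 1) ≤ m + 1 := by nlinarith
    have h7 : 0 < 2 * ε := by positivity
    nlinarith
  have h6 : (gb ε m) ^ J ≤ (1 / Real.sqrt (2 * ε * c)) ^ J / (Real.sqrt (M + 1)) ^ J := by
    rw [← div_pow]
    exact pow_le_pow_left₀ (gb_nonneg _ _) h5 _
  have h7 : (gb ε 0) ^ J * ∑ j ∈ range J, Ex p (fun b => ind ((At P E (π j) b).card < m)) ≤
      (gb ε 0) ^ J * (J * (2 * (B / (Real.sqrt (M + 1)) ^ J))) :=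
    mul_le_mul_of_nonneg_left h4 (pow_nonneg (gb_nonneg _ _) _)
  calc _ ≤ (gb ε 0) ^ J * (J * (2 * (B / (Real.sqrt (M + 1)) ^ J))) +
        (1 / Real.sqrt (2 * ε * c)) ^ J / (Real.sqrt (M + 1)) ^ J := add_le_add h7 h6
    _ = _ := by ring

end Pool.Agent.K4H90.RC
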