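import Pool.Agent.K4H90.RC.Uniq

/-!
# Large subgroups separate all elements
-/

set_option autoImplicit false
set_option linter.unusedSectionVars false

namespace Pool.Agent.K4H90.RC

open Finset

section

variable {X : Type} [Fintype X] [DecidableEq X] {p : X → ℝ}

/-- Two bits are equal. -/
theorem Pb_eq {ε : ℝ} (hp : Pr p) {u v : X} (huv : u ≠ v) (hu : ε ≤ p u ∧ p u ≤ 1 - ε)
    (hv : ε ≤ p v ∧ p v ≤ 1 - ε) : Pb p (fun b => b u = b v) ≤ 1 - ε := by
  have h1 : ∀ b : X → Bool, ind (b u = b v) = ind (b u = true) * ind (b v = true) +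
      ind (b u = false) * ind (b v = false) := by
    intro b
    cases b u <;> cases b v <;>
      simp [ind_pos, ind_neg]
  unfold Pb
  rw [Ex_congr h1, Ex_add]
  have hd : Disjoint ({u} : Finset X) {v} := disjoint_singleton.2 huv
  have dep : ∀ (x : X) (w : Bool), Dp {x} (fun b : X → Bool => ind (b x = w)) := by
    intro x w b b' hb
    show ind _ = ind _
    rw [hb x (mem_singleton_self x)]
  rw [Ex_mul hd (dep u true) (dep v true), Ex_mul hd (dep u false) (dep v false),
    Ex_single u fun w => ind (w = true), Ex_single v fun w => ind (w = true),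
    Ex_single u fun w => ind (w = false), Ex_single v fun w => ind (w = false)]
  simp only [ind_pos, ind_neg (Q := false = true) (by decide), ind_neg (Q := true = false) (by decide),
    mul_one, mul_zero, add_zero, zero_add]
  obtain ⟨h2, h3⟩ := hu
  obtain ⟨h4, h5⟩ := hv
  have h6 := hp u
  nlinarith [mul_nonneg h6.1 (by linarith : 0 ≤ 1 - ε - p v),
    mul_nonneg (by linarith [h6.2] : 0 ≤ 1 - p u) (by linarith : 0 ≤ p v - ε)]

end

section

variable {G : Type} [Group G] [Fintype G] [DecidableEq G] {p : G → ℝ}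

/-- A fixed large set of translations. -/
theorem Pb_fixed {ε : ℝ} (hε0 : 0 ≤ ε) (hε1 : ε ≤ 1) (hp : Pr p) (hpε : ∀ x, x ≠ 1 → ε ≤ p x ∧ p x ≤ 1 - ε)
    (T : Finset G) {x y : G} (hxy : x ≠ y) (k : ℕ) (hk : 3 * k + 2 ≤ T.card) :
    Pb p (fun b => ∀ t ∈ T, b (t * x) = b (t * y)) ≤ (1 - ε) ^ k := by
  set S := T.filter fun t => t * x ≠ 1 ∧ t * y ≠ 1 with hS
  have h1 : T.card ≤ S.card + 2 := by
    have h2 : T ⊆ S ∪ {x⁻¹, y⁻¹} := by
      intro t ht
      by_cases h3 : t * x = 1
      · refine mem_union_right _ ?_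
        rw [eq_inv_of_mul_eq_one_left h3]
        exact mem_insert_self _ _
      · by_cases h4 : t * y = 1
        · refine mem_union_right _ ?_
          rw [eq_inv_of_mul_eq_one_left h4]
          exact mem_insert_of_mem (mem_singleton_self _)
        · exact mem_union_left _ (mem_filter.2 ⟨ht, h3, h4⟩)
    have h3 := card_le_card h2
    have h4 := card_union_le S {x⁻¹, y⁻¹}
    have h5 : ({x⁻¹, y⁻¹} : Finset G).card ≤ 2 := card_le_two
    omega
  obtain ⟨P, hP, hP1, hP2⟩ := indep (fun t => {t * y * x⁻¹, t * x * y⁻¹}) (by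
      intro t t' h
      rcases mem_insert.1 h with h | h
      · refine mem_insert_of_mem (mem_singleton.2 ?_)
        rw [h]; group
      · rw [mem_singleton] at h
        refine mem_insert.2 (Or.inl ?_)
        rw [h]; group) 2 (fun _ => card_le_two) S.card S le_rfl
  have hPk : k ≤ P.card := by omega
  have h2 : Pb p (fun b => ∀ t ∈ T, b (t * x) = b (t * y)) ≤
      Ex p fun b => ∏ t ∈ P, ind (b (t * x) = b (t * y)) := by
    refine Ex_mono hp fun b => ?_
    rw [← ind_forall]
    exact ind_mono fun h t ht => h t (mem_filter.1 (hP ht)).1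
  refine h2.trans ?_
  rw [Ex_prod_indep P (fun t => {t * x, t * y}) ?_ (fun t b => ind (b (t * x) = b (t * y)))]
  · have h3 : ∏ t ∈ P, Ex p (fun b => ind (b (t * x) = b (t * y))) ≤ ∏ _t ∈ P, (1 - ε) := by
      refine prod_le_prod (fun t _ => Ex_nonneg hp fun _ => ind_nonneg _) fun t ht => ?_
      obtain ⟨-, h4, h5⟩ := mem_filter.1 (hP ht)
      exact Pb_eq hp (fun h => hxy (mul_left_cancel h)) (hpε _ h4) (hpε _ h5)
    refine h3.trans ?_
    rw [prod_const]
    exact pow_le_pow_of_le_one (by linarith) (by linarith) hPk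
  · intro t _ b b' hb
    show ind _ = ind _
    rw [hb _ (mem_insert_self _ _), hb _ (mem_insert_of_mem (mem_singleton_self _))]
  · intro t ht t' ht' htt
    rw [Finset.disjoint_left]
    intro z hz hz'
    have h7 := hP1 t ht t' ht' htt
    simp only [mem_insert, mem_singleton, not_or] at h7 hz hz'
    rcases hz with h8 | h8 <;> rcases hz' with h9 | h9
    · exact htt (mul_right_cancel (h8.symm.trans h9))
    · apply h7.2
      rw [← h8, h9]; group
    · apply h7.1
      rw [← h8, h9]; group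
    · exact htt (mul_right_cancel (h8.symm.trans h9))

/-- Subgroups are generated by few elements. -/
theorem generate (T : Subgroup G) (k : ℕ) : ∃ f : Fin k → G, (∀ i, f i ∈ T) ∧
    (Subgroup.closure (Set.range f) = T ∨
      2 ^ k ≤ Nat.card (Subgroup.closure (Set.range f))) := by
  induction k with
  | zero =>
    refine ⟨Fin.elim0, fun i => i.elim0, Or.inr ?_⟩
    rw [pow_zero]
    exact Nat.card_pos
  | succ k ih =>
    obtain ⟨f, h1, h2⟩ := ih
    rcases h2 with h2 | h2
    · refine ⟨Fin.cons 1 f, ?_, Or.inl ?_⟩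
      · intro i
        refine Fin.cases ?_ (fun i => ?_) i
        · exact T.one_mem
        · exact h1 i
      · rw [Fin.range_cons, Subgroup.closure_insert_one, h2]
    · by_cases h3 : Subgroup.closure (Set.range f) = T
      · refine ⟨Fin.cons 1 f, ?_, Or.inl ?_⟩
        · intro i
          refine Fin.cases ?_ (fun i => ?_) i
          · exact T.one_mem
          · exact h1 i
        · rw [Fin.range_cons, Subgroup.closure_insert_one, h3]
      · have h4 : Subgroup.closure (Set.range f) ≤ T := by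
          rw [Subgroup.closure_le]
          rintro _ ⟨i, rfl⟩
          exact h1 i
        obtain ⟨t, ht, ht'⟩ := SetLike.exists_of_lt (lt_of_le_of_ne h4 h3)
        refine ⟨Fin.cons t f, ?_, Or.inr ?_⟩
        · intro i
          refine Fin.cases ?_ (fun i => ?_) i
          · exact ht
          · exact h1 i
        · set H := Subgroup.closure (Set.range f)
          set H' := Subgroup.closure (Set.range (Fin.cons t f : Fin (k + 1) → G))
          have h5 : H ≤ H' := by
            refine Subgroup.closure_mono ?_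
            rw [Fin.range_cons]
            exact Set.subset_insert _ _
          have h6 : t ∈ H' := Subgroup.subset_closure ⟨0, rfl⟩
          have h7 := Subgroup.card_dvd_of_le h5
          obtain ⟨m, hm⟩ := h7
          have h8 : m ≠ 1 := by
            rintro rfl
            rw [mul_one] at hm
            have h9 : H = H' := Subgroup.eq_of_le_of_card_ge h5 hm.le
            exact ht' (h9 ▸ h6)
          have h9 : m ≠ 0 := by
            rintro rfl
            rw [mul_zero] at hm
            exact absurd hm Nat.card_pos.ne'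
          have h10 : 2 ≤ m := by omega
          rw [hm, pow_succ]
          exact Nat.mul_le_mul h2 h10

theorem generate' (T : Subgroup G) : ∃ f : Fin (Nat.log 2 (Fintype.card G) + 1) → G,
    Subgroup.closure (Set.range f) = T := by
  obtain ⟨f, h1, h2⟩ := generate T (Nat.log 2 (Fintype.card G) + 1)
  refine ⟨f, ?_⟩
  rcases h2 with h2 | h2
  · exact h2
  · exfalso
    have h3 := Nat.lt_pow_succ_log_self (b := 2) (by norm_num) (Fintype.card G)
    have h4 := Subgroup.card_le_card_group (Subgroup.closure (Set.range f))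
    rw [Nat.card_eq_fintype_card (α := G)] at h4
    exact absurd (h3.trans_le (h2.trans h4)) (lt_irrefl _)

/-- The event that a large subgroup does not separate the elements. -/
def Bad (b : G → Bool) : Prop := ∃ T : Subgroup G, Fintype.card G ≤ 256 * Nat.card T ∧
  ∃ x y, x ≠ y ∧ ∀ t ∈ T, b (t * x) = b (t * y)

theorem Pb_bad {ε : ℝ} (hε0 : 0 ≤ ε) (hε1 : ε ≤ 1) (hp : Pr p)
    (hpε : ∀ x, x ≠ 1 → ε ≤ p x ∧ p x ≤ 1 - ε) (k : ℕ)
    (hk : 256 * (3 * k + 2) ≤ Fintype.card G) :
    Pb p (Bad (G := G)) ≤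
      (Fintype.card G : ℝ) ^ (Nat.log 2 (Fintype.card G) + 3) * (1 - ε) ^ k := by
  classical
  set L := Nat.log 2 (Fintype.card G) + 1 with hL
  have h1 : Pb p (Bad (G := G)) ≤ ∑ z ∈ (univ : Finset ((Fin L → G) × G × G)),
      Pb p (fun b => Fintype.card G ≤ 256 * Nat.card (Subgroup.closure (Set.range z.1)) ∧
        z.2.1 ≠ z.2.2 ∧ ∀ t ∈ Subgroup.closure (Set.range z.1), b (t * z.2.1) = b (t * z.2.2)) := by
    refine le_trans (Pb_mono hp fun b hb => ?_) (Pb_exists hp _ _)
    obtain ⟨T, h2, x, y, h3, h4⟩ := hb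
    obtain ⟨f, rfl⟩ := generate' T
    exact ⟨(f, x, y), mem_univ _, h2, h3, h4⟩
  refine h1.trans ?_
  have h2 : ∀ z ∈ (univ : Finset ((Fin L → G) × G × G)),
      Pb p (fun b => Fintype.card G ≤ 256 * Nat.card (Subgroup.closure (Set.range z.1)) ∧
        z.2.1 ≠ z.2.2 ∧ ∀ t ∈ Subgroup.closure (Set.range z.1), b (t * z.2.1) = b (t * z.2.2)) ≤
      (1 - ε) ^ k := by
    rintro ⟨f, x, y⟩ -
    by_cases h3 : Fintype.card G ≤ 256 * Nat.card (Subgroup.closure (Set.range f)) ∧ x ≠ y
    · refine le_trans (Pb_mono hp fun b hb => ?_) (Pb_fixed hε0 hε1 hp hpε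
        (univ.filter fun t => t ∈ Subgroup.closure (Set.range f)) h3.2 k ?_)
      · intro t ht
        exact hb.2.2 t (mem_filter.1 ht).2
      · have h4 := h3.1
        rw [Nat.card_eq_fintype_card, Fintype.card_subtype] at h4
        omega
    · have h4 : ∀ b : G → Bool, ind (Fintype.card G ≤
          256 * Nat.card (Subgroup.closure (Set.range f)) ∧ x ≠ y ∧
            ∀ t ∈ Subgroup.closure (Set.range f), b (t * x) = b (t * y)) = 0 := by
        intro b
        exact ind_neg fun h5 => h3 ⟨h5.1, h5.2.1⟩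
      unfold Pb
      rw [Ex_congr h4, Ex_const]
      exact pow_nonneg (by linarith) _
  refine (sum_le_sum h2).trans (le_of_eq ?_)
  rw [sum_const, card_univ, nsmul_eq_mul]
  congr 1
  rw [Fintype.card_prod, Fintype.card_prod, Fintype.card_fun, Fintype.card_fin, hL]
  push_cast
  ring

end

/-- The numerical bound. -/
theorem num (ρ : ℝ) (h0 : 0 < ρ) (h1 : ρ < 1) : ∃ N : ℕ, ∀ n : ℕ, N ≤ n →
    (n : ℝ) ^ (Nat.log 2 n + 3) * ρ ^ (n / 1024) ≤ 1 / ((n : ℝ) + 1) := by
  have hl : 0 < -Real.log ρ := by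
    have := Real.log_neg h0 h1
    linarith
  set c := -Real.log ρ with hc
  have h2 := Real.isLittleO_pow_log_id_atTop (n := 2)
  have h3 := (h2.def (c := c / 1024 / 32) (by positivity))
  have h4 := tendsto_natCast_atTop_atTop.eventually h3
  obtain ⟨N1, hN1⟩ := Filter.eventually_atTop.1 h4
  obtain ⟨N2, hN2⟩ := Filter.eventually_atTop.1
    ((Filter.tendsto_atTop.1 (Real.tendsto_log_atTop.comp tendsto_natCast_atTop_atTop)) (1 + c))
  refine ⟨max (max N1 N2) 2, fun n hn => ?_⟩
  have hn1 : N1 ≤ n := by omega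
  have hn2 : N2 ≤ n := by omega
  have hn3 : 2 ≤ n := by omega
  have hn3' : (2 : ℝ) ≤ n := by exact_mod_cast hn3
  have e1 := hN1 n hn1
  have e2 : 1 + c ≤ Real.log n := hN2 n hn2
  set ℓ := Real.log n with hℓ
  have hℓ1 : 1 ≤ ℓ := by linarith
  simp only [id_eq, Real.norm_eq_abs] at e1
  rw [abs_of_nonneg (by positivity), abs_of_nonneg (by positivity)] at e1
  -- ℓ ^ 2 ≤ c / 1024 / 32 * n
  have hlog2 : (Nat.log 2 n : ℝ) ≤ 2 * ℓ := by
    have h5 : (2 : ℝ) ^ (Nat.log 2 n) ≤ n := by
      exact_mod_cast Nat.pow_log_le_self 2 (by omega : n ≠ 0)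
    have h6 := Real.log_le_log (by positivity) h5
    rw [Real.log_pow] at h6
    have h7 : (0.6931471803 : ℝ) < Real.log 2 := Real.log_two_gt_d9
    have h8 : (0 : ℝ) ≤ (Nat.log 2 n : ℝ) := by positivity
    nlinarith
  have hdiv : (n : ℝ) / 1024 - 1 ≤ ((n / 1024 : ℕ) : ℝ) := by
    have h5 : n < 1024 * (n / 1024) + 1024 := by omega
    have h6 : (n : ℝ) < 1024 * ((n / 1024 : ℕ) : ℝ) + 1024 := by exact_mod_cast h5
    linarith
  have hn0 : (0 : ℝ) < n := by linarith
  have e3 : Real.log ((n : ℝ) ^ (Nat.log 2 n + 3) * ρ ^ (n / 1024)) ≤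
      Real.log (1 / ((n : ℝ) + 1)) := by
    rw [Real.log_mul (by positivity) (by positivity), Real.log_pow, Real.log_pow, one_div,
      Real.log_inv]
    have e4 : Real.log ((n : ℝ) + 1) ≤ 2 * ℓ := by
      rw [hℓ, ← Real.log_rpow hn0]
      refine Real.log_le_log (by positivity) ?_
      norm_num
      nlinarith
    have e5 : ((n / 1024 : ℕ) : ℝ) * Real.log ρ ≤ -(c * ((n : ℝ) / 1024 - 1)) := by
      have : Real.log ρ = -c := by rw [hc]; ring
      rw [this]
      nlinarith
    have e6 : ((Nat.log 2 n + 3 : ℕ) : ℝ) * ℓ ≤ (2 * ℓ + 3) * ℓ := by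
      push_cast
      nlinarith
    have e7 : c * ((n : ℝ) / 1024) ≥ 32 * ℓ ^ 2 := by
      have : c / 1024 / 32 * n = c * ((n : ℝ) / 1024) / 32 := by ring
      rw [this] at e1
      linarith
    nlinarith
  exact (Real.log_le_log_iff (by positivity) (by positivity)).1 e3

theorem bad_main (ε : ℝ) (hε : 0 < ε) (hε1 : ε < 1) : ∃ C : ℝ, 0 < C ∧
    ∀ (G : Type) [Group G] [Fintype G] [DecidableEq G] (p : G → ℝ) (_ : Pr p)
      (_ : ∀ x, x ≠ 1 → ε ≤ p x ∧ p x ≤ 1 - ε),
      Pb p (Bad (G := G)) ≤ C / Real.sqrt (Fintype.card G + 1) := by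
  obtain ⟨N, hN⟩ := num (1 - ε) (by linarith) (by linarith)
  refine ⟨Real.sqrt (N + 2 ^ 20 + 1) + 1, by positivity, ?_⟩
  intro G _ _ _ p hp hpε
  set n := Fintype.card G with hn
  have hsq : 0 < Real.sqrt ((n : ℝ) + 1) := Real.sqrt_pos.2 (by positivity)
  rcases Nat.lt_or_ge n (N + 2 ^ 20) with h | h
  · refine (Pb_le_one hp _).trans ?_
    rw [le_div_iff₀ hsq, one_mul]
    have h1 : Real.sqrt ((n : ℝ) + 1) ≤ Real.sqrt (N + 2 ^ 20 + 1) := by
      refine Real.sqrt_le_sqrt ?_
      have : (n : ℝ) ≤ N + 2 ^ 20 := by exact_mod_cast h.le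
      linarith
    linarith
  · have h1 := Pb_bad (G := G) hε.le hε1.le hp hpε (n / 1024) (by omega)
    refine h1.trans ((hN n (by omega)).trans ?_)
    have h2 : Real.sqrt ((n : ℝ) + 1) ≤ (n : ℝ) + 1 := by
      rw [Real.sqrt_le_left (by positivity)]
      have : (0 : ℝ) ≤ n := by positivity
      nlinarith
    calc 1 / ((n : ℝ) + 1) ≤ 1 / Real.sqrt ((n : ℝ) + 1) := one_div_le_one_div_of_le hsq h2
      _ ≤ _ := by
          refine div_le_div_of_nonneg_right ?_ hsq.le
          have := Real.sqrt_nonneg ((N : ℝ) + 2 ^ 20 + 1)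
          linarith

end Pool.Agent.K4H90.RC
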